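import Pool.Agent.H589.Pent.Small
import Pool.Graph.R_pool_sql_team_seeded_63374d34.N772.SC.Main

/-!
# Integer polynomials of length at most five
-/

set_option autoImplicit false

open Polynomial

namespace Pool.Agent.H589.Pent

/-- sums over arbitrary sets are bounded by the length -/
lemma sum_le_len (f : ℤ[X]) (T : Finset ℕ) :
    ∑ i ∈ T, |f.coeff i| ≤ ∑ i ∈ f.support, |f.coeff i| := by
  classical
  have h1 : ∑ i ∈ T, |f.coeff i| = ∑ i ∈ T.filter (fun i => f.coeff i ≠ 0), |f.coeff i| := by
    rw [Finset.sum_filter]
    apply Finset.sum_congr rfl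
    intro i _
    split_ifs with h
    · rfl
    · push Not at h
      rw [h, abs_zero]
  rw [h1]
  apply Finset.sum_le_sum_of_subset_of_nonneg
  · intro i hi
    exact mem_support_iff.mpr (Finset.mem_filter.mp hi).2
  · intro i _ _
    exact abs_nonneg _

lemma MM_X_pow_add_one (n : ℕ) (hn : 1 ≤ n) : MM (X ^ n + 1) = 1 := by
  apply MM_eq_one_of_mul _ (X ^ n - 1)
  have : (X ^ n + 1 : ℤ[X]) * (X ^ n - 1) = X ^ (2 * n) - 1 := by ring
  rw [this, MM_X_pow_sub_one _ (by omega)]

lemma MM_X_pow_add_sign (n : ℕ) (hn : 1 ≤ n) (p : ℤ) (hp : p = 1 ∨ p = -1) :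
    MM (X ^ n + C p) = 1 := by
  rcases hp with rfl | rfl
  · rw [map_one]; exact MM_X_pow_add_one n hn
  · have : (X ^ n + C (-1) : ℤ[X]) = X ^ n - 1 := by
      rw [map_neg, map_one]; ring
    rw [this]; exact MM_X_pow_sub_one n hn

/-- the quadratic case -/
lemma good_quad (m : ℤ) (hm : |m| ≤ 3) : MM (X ^ 2 + C m * X + 1) = 1 ∨
    6 / 5 ≤ MM (X ^ 2 + C m * X + 1) := by
  have h3 : 6 / 5 ≤ MM (X ^ 2 + C (-3) * X + 1) := by
    set g : ℝ → ℝ := fun x => x ^ 2 - 3 * x + 1 with hg
    have hc : ContinuousOn g (Set.Icc (6 / 5) 3) := by fun_prop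
    have h1 : g (6 / 5) ≤ 0 := by rw [hg]; norm_num
    have h2 : 0 ≤ g 3 := by rw [hg]; norm_num
    obtain ⟨r, hr, hr0⟩ := intermediate_value_Icc (by norm_num) hc ⟨h1, h2⟩
    have h3 : r ≤ MM (X ^ 2 + C (-3) * X + 1) := by
      apply root_le_MM _ _ r (by linarith [hr.1])
      · simp only [Polynomial.map_add, Polynomial.map_mul, Polynomial.map_pow, map_X, map_C,
          Polynomial.map_one, eval_add, eval_mul, eval_pow, eval_X, eval_C, eval_one]
        have h4 : ((g r : ℝ) : ℂ) = 0 := by rw [hr0]; simp
        rw [hg] at h4
        push_cast at h4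
        rw [← h4]
        norm_num
        ring
      · intro h
        have h1 := congrArg (fun f : ℤ[X] => f.eval 0) h
        simp at h1
    exact hr.1.trans h3
  have hm1 := (abs_le.mp hm).1
  have hm2 := (abs_le.mp hm).2
  have hcase : m = -3 ∨ m = -2 ∨ m = -1 ∨ m = 0 ∨ m = 1 ∨ m = 2 ∨ m = 3 := by omega
  rcases hcase with rfl | rfl | rfl | rfl | rfl | rfl | rfl
  · right; exact h3
  · left
    have : (X ^ 2 + C (-2) * X + 1 : ℤ[X]) = (X ^ 1 - 1) * (X ^ 1 - 1) := by
      rw [show (-2 : ℤ) = -1 + -1 by norm_num, map_add, map_neg, map_one]; ring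
    rw [this, MM_mul, MM_X_pow_sub_one 1 (by norm_num), one_mul]
  · left
    apply MM_eq_one_of_mul _ (X + 1)
    have : (X ^ 2 + C (-1) * X + 1 : ℤ[X]) * (X + 1) = X ^ 3 + 1 := by
      rw [map_neg, map_one]; ring
    rw [this, MM_X_pow_add_one 3 (by norm_num)]
  · left
    have : (X ^ 2 + C 0 * X + 1 : ℤ[X]) = X ^ 2 + 1 := by
      rw [map_zero]; ring
    rw [this, MM_X_pow_add_one 2 (by norm_num)]
  · left
    apply MM_eq_one_of_mul _ (X - 1)
    have : (X ^ 2 + C 1 * X + 1 : ℤ[X]) * (X - 1) = X ^ 3 - 1 := by
      rw [map_one]; ring
    rw [this, MM_X_pow_sub_one 3 (by norm_num)]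
  · left
    have : (X ^ 2 + C 2 * X + 1 : ℤ[X]) = (X ^ 1 + 1) * (X ^ 1 + 1) := by
      rw [show (2 : ℤ) = 1 + 1 by norm_num, map_add, map_one]; ring
    rw [this, MM_mul, MM_X_pow_add_one 1 (by norm_num), one_mul]
  · right
    have : (X ^ 2 + C 3 * X + 1 : ℤ[X]) = (X ^ 2 + C (-3) * X + 1).comp (-X) := by
      simp only [add_comp, mul_comp, pow_comp, X_comp, C_comp, one_comp]
      rw [map_neg]
      ring
    rw [this, MM_comp_neg]
    exact h3

/-- normalised reciprocal and antireciprocal polynomials -/
lemma good_rec_monic (f : ℤ[X]) (n : ℕ) (hn : f.natDegree = n) (hn1 : 1 ≤ n) (s : ℤ)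
    (hs : s = 1 ∨ s = -1) (hlc : f.coeff n = 1)
    (hrec : ∀ i ≤ n, f.coeff (n - i) = s * f.coeff i)
    (hlen : ∑ i ∈ f.support, |f.coeff i| ≤ 5) : Good f := by
  classical
  have hss : s * s = 1 := by rcases hs with rfl | rfl <;> norm_num
  have hc0 : f.coeff 0 = s := by
    have := hrec n le_rfl
    rw [Nat.sub_self, hlc, mul_one] at this
    exact this
  have habs : ∀ i ≤ n, |f.coeff (n - i)| = |f.coeff i| := by
    intro i hi
    rw [hrec i hi, abs_mul]
    rcases hs with rfl | rfl <;> simp
  have hhigh : ∀ i, n < i → f.coeff i = 0 := fun i hi =>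
    coeff_eq_zero_of_natDegree_lt (by omega)
  have habs0 : |f.coeff 0| = 1 := by
    rw [hc0]; rcases hs with rfl | rfl <;> simp
  have habsn : |f.coeff n| = 1 := by rw [hlc]; simp
  have hmid : s = -1 → ∀ b, n = 2 * b → f.coeff b = 0 := by
    intro h b hb
    have h1 := hrec b (by omega)
    have h2 : n - b = b := by omega
    rw [h2, h] at h1
    omega
  by_cases hA : ∃ k, 0 < k ∧ k < n ∧ 2 * k ≠ n ∧ f.coeff k ≠ 0
  · -- two pairs
    obtain ⟨k, hk0, hkn, hk2, hck⟩ : ∃ k, 0 < k ∧ k < n ∧ 2 * k < n ∧ f.coeff k ≠ 0 := by
      obtain ⟨k, h1, h2, h3, h4⟩ := hA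
      rcases lt_or_gt_of_ne h3 with h | h
      · exact ⟨k, h1, h2, h, h4⟩
      · refine ⟨n - k, by omega, by omega, by omega, ?_⟩
        rw [hrec k h2.le]
        rcases hs with rfl | rfl <;> simpa using h4
    have hck1 : 1 ≤ |f.coeff k| := Int.one_le_abs hck
    have hck2 : |f.coeff (n - k)| = |f.coeff k| := habs k hkn.le
    have h4 : ∀ T : Finset ℕ, ∑ i ∈ T, |f.coeff i| ≤ 5 := fun T => (sum_le_len f T).trans hlen
    have hk1 : |f.coeff k| = 1 := by
      have h := h4 {0, k, n - k, n}
      rw [Finset.sum_insert (by simp; omega), Finset.sum_insert (by simp; omega),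
        Finset.sum_insert (by simp; omega), Finset.sum_singleton] at h
      rw [habs0, habsn, hck2] at h
      omega
    have hj : ∀ j, 0 < j → j < n → j ≠ k → j ≠ n - k → 2 * j ≠ n → f.coeff j = 0 := by
      intro j h1 h2 h3 h5 h6
      by_contra h7
      have h8 : 1 ≤ |f.coeff j| := Int.one_le_abs h7
      have h9 := habs j h2.le
      have h := h4 {0, k, n - k, n, j, n - j}
      rw [Finset.sum_insert (by simp; omega), Finset.sum_insert (by simp; omega),
        Finset.sum_insert (by simp; omega), Finset.sum_insert (by simp; omega),
        Finset.sum_insert (by simp; omega), Finset.sum_singleton] at h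
      rw [habs0, habsn, hck2] at h
      omega
    set p := f.coeff (n - k) with hp
    have hp1 : p = 1 ∨ p = -1 := by
      have : |p| = 1 := by rw [hck2, hk1]
      rcases (abs_eq (by norm_num : (0:ℤ) ≤ 1)).mp this with h | h
      · exact Or.inl h
      · exact Or.inr h
    have hpp : p * p = 1 := by rcases hp1 with h | h <;> rw [h] <;> norm_num
    have hck' : f.coeff k = s * p := by
      have := hrec k hkn.le
      rw [← hp] at this
      rw [this, ← mul_assoc, hss, one_mul]
    by_cases hM : ∃ b, n = 2 * b ∧ f.coeff b ≠ 0
    · -- pentanomial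
      obtain ⟨b, hb, hcb⟩ := hM
      have hs1 : s = 1 := by
        rcases hs with h | h
        · exact h
        · exact absurd (hmid h b hb) hcb
      have hcb1 : |f.coeff b| ≤ 1 := by
        have h := h4 {0, k, b, n - k, n}
        rw [Finset.sum_insert (by simp; omega), Finset.sum_insert (by simp; omega),
          Finset.sum_insert (by simp; omega), Finset.sum_insert (by simp; omega),
          Finset.sum_singleton] at h
        rw [habs0, habsn, hck2, hk1] at h
        omega
      set q := f.coeff b with hq
      have hq1 : q = 1 ∨ q = -1 := by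
        have h1 : 1 ≤ |q| := Int.one_le_abs hcb
        rcases (abs_eq (by norm_num : (0:ℤ) ≤ 1)).mp (le_antisymm hcb1 h1) with h | h
        · exact Or.inl h
        · exact Or.inr h
      have hf : f = pent b (b - k) p q := by
        ext i
        unfold pent
        simp only [coeff_add, coeff_C_mul, coeff_X_pow, coeff_one]
        have e1 : b + (b - k) = n - k := by omega
        have e2 : b - (b - k) = k := by omega
        rw [e1, e2, ← hb]
        rcases lt_or_ge n i with hi | hi
        · rw [hhigh i hi]
          rw [if_neg (by omega), if_neg (by omega), if_neg (by omega), if_neg (by omega),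
            if_neg (by omega)]
          ring
        · by_cases hi0 : i = 0
          · subst hi0
            rw [hc0, hs1, if_neg (by omega), if_neg (by omega), if_neg (by omega),
              if_neg (by omega), if_pos rfl]
            ring
          by_cases hin : i = n
          · subst hin
            rw [hlc, if_pos rfl, if_neg (by omega), if_neg (by omega),
              if_neg (by omega), if_neg (by omega)]
            ring
          by_cases hik : i = k
          · subst hik
            rw [hck', hs1, if_neg (by omega), if_neg (by omega), if_neg (by omega),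
              if_pos rfl, if_neg (by omega)]
            ring
          by_cases hink : i = n - k
          · rw [hink, ← hp, if_neg (by omega), if_pos rfl, if_neg (by omega), if_neg (by omega),
              if_neg (by omega)]
            ring
          by_cases hib : i = b
          · subst hib
            rw [← hq, if_neg (by omega), if_neg (by omega), if_pos rfl, if_neg (by omega),
              if_neg (by omega)]
            ring
          · rw [hj i (by omega) (by omega) hik hink (by omega),
              if_neg (by omega), if_neg (by omega), if_neg (by omega), if_neg (by omega),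
              if_neg (by omega)]
            ring
      rw [hf]
      exact good_pent b (b - k) (by omega) (by omega) p q hp1 hq1
    · -- product of two binomials
      push Not at hM
      left
      have hf : f = (X ^ (n - k) + C (s * p)) * (X ^ k + C p) := by
        have hx : (X ^ (n - k) + C (s * p) : ℤ[X]) * (X ^ k + C p) =
            X ^ n + C p * X ^ (n - k) + C (s * p) * X ^ k + C s := by
          have e1 : (X : ℤ[X]) ^ n = X ^ (n - k) * X ^ k := by
            rw [← pow_add]; congr 1; omega
          rw [e1]
          have e2 : (C s : ℤ[X]) = C (s * p) * C p := by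
            rw [← C_mul, mul_assoc, hpp, mul_one]
          rw [e2]
          ring
        rw [hx]
        ext i
        simp only [coeff_add, coeff_C_mul, coeff_X_pow, coeff_C]
        rcases lt_or_ge n i with hi | hi
        · rw [hhigh i hi]
          rw [if_neg (by omega), if_neg (by omega), if_neg (by omega), if_neg (by omega)]
          ring
        · by_cases hi0 : i = 0
          · subst hi0
            rw [hc0, if_neg (by omega), if_neg (by omega), if_neg (by omega),
              if_pos rfl]
            ring
          by_cases hin : i = n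
          · subst hin
            rw [hlc, if_pos rfl, if_neg (by omega), if_neg (by omega),
              if_neg (by omega)]
            ring
          by_cases hik : i = k
          · subst hik
            rw [hck', if_neg (by omega), if_neg (by omega), if_pos rfl, if_neg (by omega)]
            ring
          by_cases hink : i = n - k
          · rw [hink, ← hp, if_neg (by omega), if_pos rfl, if_neg (by omega),
              if_neg (by omega)]
            ring
          have hz : f.coeff i = 0 := by
            by_cases hib : 2 * i = n
            · exact hM i hib.symm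
            · exact hj i (by omega) (by omega) hik hink hib
          rw [hz, if_neg (by omega), if_neg (by omega), if_neg (by omega), if_neg (by omega)]
          ring
      have hsp : s * p = 1 ∨ s * p = -1 := by
        rcases hs with h | h <;> rcases hp1 with h' | h' <;> rw [h, h'] <;> norm_num
      rw [hf, MM_mul, MM_X_pow_add_sign _ (by omega) _ hsp, MM_X_pow_add_sign _ (by omega) _ hp1,
        one_mul]
  · -- one pair and a middle coefficient
    push Not at hA
    by_cases hM : ∃ b, n = 2 * b ∧ f.coeff b ≠ 0
    · obtain ⟨b, hb, hcb⟩ := hM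
      have hs1 : s = 1 := by
        rcases hs with h | h
        · exact h
        · exact absurd (hmid h b hb) hcb
      set m := f.coeff b with hm
      have hm3 : |m| ≤ 3 := by
        have h := (sum_le_len f {0, b, n}).trans hlen
        rw [Finset.sum_insert (by simp; omega), Finset.sum_insert (by simp; omega),
          Finset.sum_singleton] at h
        rw [habs0, habsn, ← hm] at h
        omega
      have hf : f = (X ^ 2 + C m * X + 1 : ℤ[X]).comp (X ^ b) := by
        simp only [add_comp, mul_comp, pow_comp, X_comp, C_comp, one_comp, ← pow_mul]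
        rw [mul_comm b 2, ← hb]
        ext i
        simp only [coeff_add, coeff_C_mul, coeff_X_pow, coeff_one]
        rcases lt_or_ge n i with hi | hi
        · rw [hhigh i hi]
          rw [if_neg (by omega), if_neg (by omega), if_neg (by omega)]
          ring
        · by_cases hi0 : i = 0
          · subst hi0
            rw [hc0, hs1, if_neg (by omega), if_neg (by omega), if_pos rfl]
            ring
          by_cases hin : i = n
          · subst hin
            rw [hlc, if_pos rfl, if_neg (by omega), if_neg (by omega)]
            ring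
          by_cases hib : i = b
          · subst hib
            rw [← hm, if_neg (by omega), if_pos rfl, if_neg (by omega)]
            ring
          · rw [hA i (by omega) (by omega) (by omega),
              if_neg (by omega), if_neg (by omega), if_neg (by omega)]
            ring
      rw [hf]
      unfold Good
      rw [MM_comp_pow _ b (by omega)]
      rcases good_quad m hm3 with h | h
      · exact Or.inl h
      · exact Or.inr (Or.inr h)
    · push Not at hM
      left
      have hf : f = X ^ n + C s := by
        ext i
        simp only [coeff_add, coeff_X_pow, coeff_C]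
        rcases lt_or_ge n i with hi | hi
        · rw [hhigh i hi]
          rw [if_neg (by omega), if_neg (by omega)]
          ring
        · by_cases hi0 : i = 0
          · subst hi0
            rw [hc0, if_neg (by omega), if_pos rfl]
            ring
          by_cases hin : i = n
          · subst hin
            rw [hlc, if_pos rfl, if_neg (by omega)]
            ring
          have hz : f.coeff i = 0 := by
            by_cases hib : 2 * i = n
            · exact hM i hib.symm
            · exact hA i (by omega) (by omega) hib
          rw [hz, if_neg (by omega), if_neg (by omega)]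
          ring
      rw [hf]
      exact MM_X_pow_add_sign n hn1 s hs

lemma MM_ge_two_of_lc (f : ℤ[X]) (h : 2 ≤ |f.leadingCoeff|) : 2 ≤ MM f := by
  have h4 := (f.map (Int.castRingHom ℂ)).leadingCoeff_le_mahlerMeasure
  rw [leadingCoeff_map_of_injective (RingHom.injective_int _), eq_intCast,
    Complex.norm_intCast] at h4
  have h5 : (2:ℝ) ≤ |(f.leadingCoeff : ℝ)| := by exact_mod_cast h
  exact h5.trans h4

lemma good_neg {f : ℤ[X]} (h : Good (-f)) : Good f := by
  unfold Good at h ⊢
  rwa [MM_neg] at h

/-- reciprocal and antireciprocal polynomials -/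
lemma good_rec (f : ℤ[X]) (h0 : f.coeff 0 ≠ 0) (hrev : f.reverse = f ∨ f.reverse = -f)
    (hlen : ∑ i ∈ f.support, |f.coeff i| ≤ 5) : Good f := by
  have hf0 : f ≠ 0 := by rintro rfl; simp at h0
  by_cases hl : 2 ≤ |f.leadingCoeff|
  · right; right
    linarith [MM_ge_two_of_lc f hl]
  have hlc1 : |f.leadingCoeff| = 1 := by
    have := Int.one_le_abs (leadingCoeff_ne_zero.mpr hf0)
    omega
  obtain ⟨s, hs, hrec⟩ : ∃ s : ℤ, (s = 1 ∨ s = -1) ∧
      ∀ i ≤ f.natDegree, f.coeff (f.natDegree - i) = s * f.coeff i := by
    rcases hrev with h | h
    · refine ⟨1, Or.inl rfl, ?_⟩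
      intro i hi
      have h1 := congrArg (fun g : ℤ[X] => g.coeff i) h
      simp only [coeff_reverse] at h1
      rw [revAt_le hi] at h1
      rw [h1, one_mul]
    · refine ⟨-1, Or.inr rfl, ?_⟩
      intro i hi
      have h1 := congrArg (fun g : ℤ[X] => g.coeff i) h
      simp only [coeff_reverse, coeff_neg] at h1
      rw [revAt_le hi] at h1
      rw [h1]; ring
  rcases Nat.eq_zero_or_pos f.natDegree with hd | hd
  · left
    have h1 : f = C (f.coeff 0) := eq_C_of_natDegree_eq_zero hd
    have h2 : |f.coeff 0| = 1 := by
      rw [leadingCoeff, hd] at hlc1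
      exact hlc1
    rw [h1]
    unfold MM
    rw [Polynomial.map_C, mahlerMeasure_const, eq_intCast, Complex.norm_intCast]
    exact_mod_cast h2
  · rcases (abs_eq (by norm_num : (0:ℤ) ≤ 1)).mp hlc1 with h | h
    · exact good_rec_monic f f.natDegree rfl hd s hs h hrec hlen
    · apply good_neg
      apply good_rec_monic (-f) f.natDegree (natDegree_neg f) hd s hs
      · rw [coeff_neg]
        change -f.leadingCoeff = 1
        rw [h]; norm_num
      · intro i hi
        rw [coeff_neg, coeff_neg, hrec i hi]; ring
      · rw [support_neg]
        simpa only [coeff_neg, abs_neg] using hlen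

/-- integer polynomials of length at most five -/
theorem good_len_five (f : ℤ[X]) (hf : f ≠ 0)
    (hlen : ∑ i ∈ f.support, |f.coeff i| ≤ 5) : Good f := by
  classical
  -- strip the powers of X
  obtain ⟨g, hg⟩ : X ^ f.natTrailingDegree ∣ f :=
    X_pow_dvd_iff.mpr (fun d hd => coeff_eq_zero_of_lt_natTrailingDegree hd)
  set k := f.natTrailingDegree with hk
  have hgc : ∀ i, g.coeff i = f.coeff (i + k) := by
    intro i
    rw [hg, coeff_X_pow_mul]
  have hg0 : g.coeff 0 ≠ 0 := by
    rw [hgc 0, zero_add]
    exact trailingCoeff_nonzero_iff_nonzero.mpr hf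
  have hMg : MM f = MM g := by
    rw [hg, MM_mul]
    have hX : MM X = 1 := by
      unfold MM
      have h := mahlerMeasure_X_sub_C (0 : ℂ)
      simpa using h
    have : ∀ j : ℕ, MM (X ^ j) = 1 := by
      intro j
      induction j with
      | zero => unfold MM; simp
      | succ j ih => rw [pow_succ, MM_mul, ih, hX, one_mul]
    rw [this, one_mul]
  have hlg : ∑ i ∈ g.support, |g.coeff i| ≤ 5 := by
    refine le_trans ?_ hlen
    have h1 : ∑ i ∈ g.support, |g.coeff i| =
        ∑ j ∈ g.support.map (addRightEmbedding k), |f.coeff j| := by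
      rw [Finset.sum_map]
      apply Finset.sum_congr rfl
      intro i _
      rw [hgc i]; rfl
    rw [h1]
    exact sum_le_len f _
  have key : Good g := by
    by_cases h1 : g.reverse = g
    · exact good_rec g hg0 (Or.inl h1) hlg
    by_cases h2 : g.reverse = -g
    · exact good_rec g hg0 (Or.inr h2) hlg
    · right; right
      have h3 := Pool.Agent.N772.SC.smyth g hg0 h1 h2
      unfold MM
      linarith
  unfold Good at key ⊢
  rwa [hMg]

end Pool.Agent.H589.Pent
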