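import Pool.Agent.H589.Pent.Class

/-!
# The Mahler measure of Lehmer's polynomial
-/

set_option autoImplicit false

open Polynomial

namespace Pool.Agent.H589.Pent

/-- the sum of the absolute values -/
def absSum : List ℤ → ℕ
  | [] => 0
  | a :: l => a.natAbs + absSum l

lemma sum_getD (l : List ℤ) :
    ∑ i ∈ Finset.range l.length, |((l.getD i 0 : ℤ) : ℝ)| = (absSum l : ℝ) := by
  induction l with
  | nil => simp [absSum]
  | cons a l ih =>
    rw [List.length_cons, Finset.sum_range_succ']
    simp only [List.getD_cons_succ, List.getD_cons_zero, absSum]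
    rw [ih]
    push_cast
    rw [Nat.cast_natAbs, Int.cast_abs]
    ring

lemma MM_toP_le (l : List ℤ) : MM (toP l) ≤ absSum l := by
  unfold MM
  refine (mahlerMeasure_le_sum_norm_coeff _).trans ?_
  rw [← sum_getD, Polynomial.sum_def]
  calc ∑ n ∈ ((toP l).map (Int.castRingHom ℂ)).support,
        ‖((toP l).map (Int.castRingHom ℂ)).coeff n‖
      ≤ ∑ n ∈ Finset.range l.length, ‖((toP l).map (Int.castRingHom ℂ)).coeff n‖ := by
        apply Finset.sum_le_sum_of_subset_of_nonneg
        · intro i hi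
          rw [Finset.mem_range]
          by_contra hcon
          push Not at hcon
          have h := mem_support_iff.mp hi
          apply h
          rw [coeff_map, coeff_toP, List.getD_eq_default _ _ hcon]
          simp
        · intro i _ _
          exact norm_nonneg _
    _ = ∑ i ∈ Finset.range l.length, |((l.getD i 0 : ℤ) : ℝ)| := by
        apply Finset.sum_congr rfl
        intro i _
        rw [coeff_map, coeff_toP, eq_intCast, Complex.norm_intCast]

/-- the coefficients of Lehmer's polynomial -/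
def lehL : List ℤ := [1, 1, 0, -1, -1, -1, -1, -1, 0, 1, 1]

lemma toP_lehL : toP lehL = lehmer := by
  unfold lehL lehmer
  simp only [toP, map_one, map_zero, map_neg]
  ring

theorem absSum_leh : absSum (grN 8 lehL) * 5 ^ 256 < 6 ^ 256 := by decide +kernel

lemma lehmer_lt : MM lehmer < 6 / 5 := by
  have h1 : MM lehmer ^ (2 ^ 8) ≤ absSum (grN 8 lehL) := by
    rw [← toP_lehL, ← MM_grN]
    exact MM_toP_le _
  have h2 : ((absSum (grN 8 lehL) : ℕ) : ℝ) * 5 ^ 256 < 6 ^ 256 := by
    exact_mod_cast absSum_leh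
  have h3 : (MM lehmer * 5) ^ 256 < 6 ^ 256 := by
    calc (MM lehmer * 5) ^ 256 = MM lehmer ^ (2 ^ 8) * 5 ^ 256 := by rw [mul_pow]; norm_num
      _ ≤ (absSum (grN 8 lehL) : ℝ) * 5 ^ 256 :=
        mul_le_mul_of_nonneg_right h1 (by positivity)
      _ < 6 ^ 256 := h2
  have h4 := lt_of_pow_lt_pow_left₀ 256 (by norm_num) h3
  linarith

lemma lehmer_ne : lehmer ≠ 0 := by
  intro h
  have h1 := congrArg (fun f : ℤ[X] => f.eval 0) h
  unfold lehmer at h1
  simp at h1

lemma lehmer_gt : 1 < MM lehmer := by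
  set g : ℝ → ℝ := fun x =>
    x ^ 10 + x ^ 9 - x ^ 7 - x ^ 6 - x ^ 5 - x ^ 4 - x ^ 3 + x + 1 with hg
  have hc : ContinuousOn g (Set.Icc (117 / 100) 2) := by fun_prop
  have h1 : g (117 / 100) ≤ 0 := by rw [hg]; norm_num
  have h2 : 0 ≤ g 2 := by rw [hg]; norm_num
  obtain ⟨r, hr, hr0⟩ := intermediate_value_Icc (by norm_num) hc ⟨h1, h2⟩
  have h3 : r ≤ MM lehmer := by
    apply root_le_MM _ lehmer_ne r (by linarith [hr.1])
    unfold lehmer
    simp only [Polynomial.map_add, Polynomial.map_sub, Polynomial.map_pow, map_X,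
      Polynomial.map_one, eval_add, eval_sub, eval_pow, eval_X, eval_one]
    have h4 : ((g r : ℝ) : ℂ) = 0 := by rw [hr0]; simp
    rw [hg] at h4
    push_cast at h4
    exact h4
  linarith [hr.1]

/-- a cyclotomic multiple of length five of Lehmer's polynomial -/
lemma lehmer_mul : lehmer * (X ^ 2 - X + 1) = X ^ 12 - X ^ 7 - X ^ 6 - X ^ 5 + 1 := by
  unfold lehmer
  ring

lemma MM_cyc6 : MM (X ^ 2 - X + 1) = 1 := by
  apply MM_eq_one_of_mul _ (X + 1)
  have : (X ^ 2 - X + 1 : ℤ[X]) * (X + 1) = X ^ 3 + 1 := by ring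
  rw [this, MM_X_pow_add_one 3 (by norm_num)]

lemma length_lehmer_mul :
    ∑ i ∈ (lehmer * (X ^ 2 - X + 1)).support, |(lehmer * (X ^ 2 - X + 1)).coeff i| = 5 := by
  have hd : (lehmer * (X ^ 2 - X + 1)).support ⊆ Finset.range 13 := by
    intro i hi
    rw [Finset.mem_range]
    by_contra hcon
    push Not at hcon
    apply mem_support_iff.mp hi
    rw [lehmer_mul]
    simp only [coeff_add, coeff_sub, coeff_X_pow, coeff_one]
    rw [if_neg (by omega), if_neg (by omega), if_neg (by omega), if_neg (by omega),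
      if_neg (by omega)]
    ring
  rw [Finset.sum_subset hd (fun i _ hi => by rw [notMem_support_iff.mp hi, abs_zero])]
  rw [lehmer_mul]
  simp only [coeff_add, coeff_sub, coeff_X_pow, coeff_one]
  decide

end Pool.Agent.H589.Pent
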