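import Pool.Agent.H589.Pent.Spec

/-!
# Averaging over rotations
-/

set_option autoImplicit false

open MeasureTheory Set

namespace Pool.Agent.H589.Pent

/-- averaging a periodic function. -/
lemma avg_periodic (f : ℝ → ℝ) (hf : Function.Periodic f (2 * Real.pi))
    (hi : ∀ u v : ℝ, IntervalIntegrable f volume u v) (b : ℕ) (hb : 1 ≤ b) :
    (b : ℝ) * ∫ θ in (0 : ℝ)..(2 * Real.pi), f θ =
      ∫ s in (-Real.pi)..Real.pi, ∑ j ∈ Finset.range b, f ((s + 2 * Real.pi * j) / b) := by
  have hb0 : (b : ℝ) ≠ 0 := by positivity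
  have hi2 : ∀ j : ℕ, IntervalIntegrable (fun s => f ((s + 2 * Real.pi * j) / b)) volume
      (-Real.pi) Real.pi := by
    intro j
    have h1 := (hi ((-Real.pi + 2 * Real.pi * j) / b) ((Real.pi + 2 * Real.pi * j) / b)).comp_mul_left
      (c := (b : ℝ)⁻¹)
    have h2 := h1.comp_add_right (2 * Real.pi * j)
    have e1 : (-Real.pi + 2 * Real.pi * j) / b / (b : ℝ)⁻¹ - 2 * Real.pi * j = -Real.pi := by
      field_simp; ring
    have e2 : (Real.pi + 2 * Real.pi * j) / b / (b : ℝ)⁻¹ - 2 * Real.pi * j = Real.pi := by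
      field_simp; ring
    rw [e1, e2] at h2
    refine h2.congr ?_
    intro x _
    simp only
    rw [div_eq_inv_mul]
  rw [intervalIntegral.integral_finsetSum fun j _ => hi2 j]
  have h3 : ∀ j : ℕ, ∫ s in (-Real.pi)..Real.pi, f ((s + 2 * Real.pi * j) / b) =
      b * ∫ θ in ((-Real.pi + 2 * Real.pi * j) / b)..((-Real.pi + 2 * Real.pi * (j + 1 : ℕ)) / b),
        f θ := by
    intro j
    have h4 := intervalIntegral.integral_comp_add_right (fun s => f (s / b)) (2 * Real.pi * j)
      (a := -Real.pi) (b := Real.pi)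
    rw [h4, intervalIntegral.integral_comp_div f hb0]
    rw [smul_eq_mul]
    congr 3
    push_cast; ring
  simp_rw [h3]
  rw [← Finset.mul_sum]
  congr 1
  rw [intervalIntegral.sum_integral_adjacent_intervals fun k _ => hi _ _]
  have e3 : (-Real.pi + 2 * Real.pi * (0 : ℕ)) / b = -Real.pi / b := by simp
  have e4 : (-Real.pi + 2 * Real.pi * (b : ℕ)) / b = -Real.pi / b + 2 * Real.pi := by
    field_simp
  rw [e3, e4, hf.intervalIntegral_add_eq (-Real.pi / b) 0, zero_add]

lemma sum_coprime (a b : ℕ) (hab : a.Coprime b) (hb : 1 ≤ b) (G : ℝ → ℝ) (x : ℝ) :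
    ∑ j ∈ Finset.range b, G (Real.cos (x + 2 * Real.pi * (a * j : ℕ) / b)) =
      ∑ j ∈ Finset.range b, G (Real.cos (x + 2 * Real.pi * j / b)) := by
  have hb0 : (b : ℝ) ≠ 0 := by positivity
  have h1 : ∀ j : ℕ, Real.cos (x + 2 * Real.pi * (a * j : ℕ) / b) =
      Real.cos (x + 2 * Real.pi * ((a * j) % b : ℕ) / b) := by
    intro j
    have h2 : ((a * j : ℕ) : ℝ) = ((a * j) % b : ℕ) + b * ((a * j) / b : ℕ) := by
      have := Nat.mod_add_div (a * j) b
      exact_mod_cast this.symm
    have h3 : x + 2 * Real.pi * (a * j : ℕ) / b =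
        x + 2 * Real.pi * ((a * j) % b : ℕ) / b + ((a * j) / b : ℕ) * (2 * Real.pi) := by
      rw [h2]; field_simp; ring
    rw [h3, Real.cos_add_nat_mul_two_pi]
  simp_rw [h1]
  have hinj : Set.InjOn (fun j => (a * j) % b) (Finset.range b) := by
    intro i hi j hj hij
    simp only [Finset.coe_range, Set.mem_Iio] at hi hj
    simp only at hij
    have h2 : a * i ≡ a * j [MOD b] := hij
    have h3 : i ≡ j [MOD b] := Nat.ModEq.cancel_left_of_coprime (hab.symm) h2
    exact Nat.ModEq.eq_of_lt_of_lt h3 hi hj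
  have himg : (Finset.range b).image (fun j => (a * j) % b) = Finset.range b := by
    apply Finset.eq_of_subset_of_card_le
    · intro y hy
      obtain ⟨j, _, rfl⟩ := Finset.mem_image.mp hy
      exact Finset.mem_range.mpr (Nat.mod_lt _ hb)
    · rw [Finset.card_image_of_injOn hinj]
  conv_rhs => rw [← himg]
  rw [Finset.sum_image fun i hi j hj h => hinj hi hj h]

end Pool.Agent.H589.Pent
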