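import Mathlib

/-!
# Interfaces (helper589, MP_dc0c68_nt: sharp Lehmer inequality for all integer polynomials of length <= 5)

Each `S_X : Prop` is a self-contained lemma of real analysis.
-/

set_option autoImplicit false

open MeasureTheory Set

namespace Pool.Agent.H589.Pent

/-- `log |2 sin (v / 2)| = log |1 - e^{iv}|` (value `0` at the zeros, by Lean's convention). -/
noncomputable def L (v : ℝ) : ℝ := Real.log |2 * Real.sin (v / 2)|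

/-- **S_Clausen.** The integral of `L` over any interval is at least `-2π/3`. -/
def S_Clausen : Prop :=
  (∀ u v : ℝ, IntervalIntegrable L volume u v) ∧
  ∀ u v : ℝ, u ≤ v → -(2 * Real.pi / 3) ≤ ∫ x in u..v, L x

/-- **S_Bonnet.** (second mean value theorem, one-sided) -/
def S_Bonnet : Prop :=
  ∀ (g w : ℝ → ℝ) (u v B : ℝ), u ≤ v → IntervalIntegrable g volume u v →
    AntitoneOn w (Ioo u v) → (∀ x ∈ Ioo u v, 0 ≤ w x) → (∀ W : ℝ, 0 ≤ W → (∀ x ∈ Ioo u v, w x ≤ W) →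
    (∀ t ∈ Icc u v, -B ≤ ∫ x in u..t, g x) → -(B * W) ≤ ∫ x in u..v, g x * w x)

/-- **S_Mono.** The part where the phase is decreasing with speed at least `ρ`. -/
def S_Mono : Prop :=
  ∀ (χ χ' : ℝ → ℝ) (u v ρ : ℝ), u ≤ v → 0 < ρ → ContinuousOn χ (Icc u v) →
    (∀ s ∈ Ioo u v, HasDerivAt χ (χ' s) s) → AntitoneOn χ' (Ioo u v) →
    (∀ s ∈ Ioo u v, χ' s ≤ -ρ) →
    -(2 * Real.pi / 3) / ρ ≤ ∫ s in u..v, L (χ s)

/-- **S_Mid.** The part around the maximum of the phase. -/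
def S_Mid : Prop :=
  ∀ (χ χ' : ℝ → ℝ) (u v Λ : ℝ), u ≤ v → 0 < Λ → ContinuousOn χ (Icc u v) →
    (∀ s ∈ Ioo u v, HasDerivAt χ (χ' s) s) → AntitoneOn (fun s => χ' s + Λ * s) (Ioo u v) →
    (∀ s ∈ Ioo u v, |χ' s| ≤ 3 / 2 * √Λ) →
    -(77 / 10) / √Λ ≤ ∫ s in u..v, L (χ s)

/-- **S_Osc.** The general oscillation lemma. -/
def S_Osc : Prop :=
  ∀ (χ χ' : ℝ → ℝ) (u v Λ : ℝ), u ≤ v → 0 < Λ → ContinuousOn χ (Icc u v) →
    (∀ s ∈ Ioo u v, HasDerivAt χ (χ' s) s) → AntitoneOn (fun s => χ' s + Λ * s) (Ioo u v) →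
    -(21 / 2) / √Λ ≤ ∫ s in u..v, L (χ s)

/-- the phase `ω(s) = arccos (cos s + 1/2)` on `[π/3, 5π/3]` -/
noncomputable def om (s : ℝ) : ℝ := Real.arccos (Real.cos s + 1 / 2)

/-- its derivative -/
noncomputable def om' (s : ℝ) : ℝ := Real.sin s / √(1 - (Real.cos s + 1 / 2) ^ 2)

/-- **S_Omega.** -/
def S_Omega : Prop :=
  ContinuousOn om (Icc (Real.pi / 3) (5 * Real.pi / 3)) ∧
  (∀ s ∈ Ioo (Real.pi / 3) (5 * Real.pi / 3), HasDerivAt om (om' s) s) ∧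
  AntitoneOn (fun s => om' s + 15 / 32 * s) (Ioo (Real.pi / 3) (5 * Real.pi / 3))

/-- `γ(s) = √(9/10 (1 - (3s/π)²))` -/
noncomputable def ga (s : ℝ) : ℝ := √(9 / 10 * (1 - (3 * s / Real.pi) ^ 2))

/-- **S_Cosh.** -/
def S_Cosh : Prop :=
  ∀ s : ℝ, |s| ≤ Real.pi / 3 → 2 * Real.cosh (ga s) ≤ 2 * Real.cos s + 1

/-- **S_Int.** -/
def S_Int : Prop :=
  ∀ b : ℝ, 1 ≤ b →
    IntervalIntegrable (fun s => b * ga s + 2 * Real.log (1 - Real.exp (-(b * ga s)))) volume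
      (-(Real.pi / 3)) (Real.pi / 3) ∧
    2 * (b * √(9 / 10) * Real.pi ^ 2 / 12 - Real.pi ^ 2 / (3 * √(9 / 10) * b)) ≤
      ∫ s in (-(Real.pi / 3))..(Real.pi / 3),
        (b * ga s + 2 * Real.log (1 - Real.exp (-(b * ga s))))

/-- **S_ProdA.** -/
def S_ProdA : Prop :=
  ∀ (b : ℕ) (φ ω : ℝ), 1 ≤ b →
    ∏ j ∈ Finset.range b, |2 * Real.cos ω - 2 * Real.cos (φ + 2 * Real.pi * j / b)| =
      |2 * Real.sin ((b * ω - b * φ) / 2)| * |2 * Real.sin ((b * ω + b * φ) / 2)|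

/-- **S_ProdB.** -/
def S_ProdB : Prop :=
  ∀ (b : ℕ) (φ g : ℝ), 1 ≤ b → 0 ≤ g →
    ∏ j ∈ Finset.range b, (2 * Real.cosh g - 2 * Real.cos (φ + 2 * Real.pi * j / b)) =
      2 * Real.cosh (b * g) - 2 * Real.cos (b * φ)

end Pool.Agent.H589.Pent
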