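import Mathlib
import Pool.Agent.H589.Pent.Spec

set_option autoImplicit false

open MeasureTheory Set

namespace Pool.Agent.H589.Pent.bonnetAux

/-- the integral over an initial piece -/
theorem init_bound {g w : ℝ → ℝ} {u v B : ℝ} (huv : u ≤ v) (hw : Antitone w)
    (hB : ∀ t ∈ Icc u v, -B ≤ ∫ x in u..t, g x) (τ : ℝ) :
    -B ≤ ∫ x in Ioc u v ∩ {x | τ < w x}, g x := by
  set A : Set ℝ := Ioc u v ∩ {x | τ < w x} with hA
  rcases A.eq_empty_or_nonempty with h0 | hne
  · rw [h0]
    have := hB u ⟨le_rfl, huv⟩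
    simpa using this
  · have hbd : BddAbove A := ⟨v, fun x hx => hx.1.2⟩
    have hcv : sSup A ≤ v := csSup_le hne fun x hx => hx.1.2
    have huc : u < sSup A := by
      obtain ⟨x, hx⟩ := hne
      exact hx.1.1.trans_le (le_csSup hbd hx)
    have h1 : A ⊆ Ioc u (sSup A) := fun x hx => ⟨hx.1.1, le_csSup hbd hx⟩
    have h2 : Ioo u (sSup A) ⊆ A := by
      intro x hx
      obtain ⟨y, hy, hxy⟩ := exists_lt_of_lt_csSup hne hx.2
      exact ⟨⟨hx.1, hx.2.le.trans hcv⟩, lt_of_lt_of_le hy.2 (hw hxy.le)⟩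
    have h3 : A =ᵐ[volume] Ioc u (sSup A) := by
      refine Filter.EventuallyEq.symm (ae_eq_set.2 ⟨?_, ?_⟩)
      · have h4 : Ioc u (sSup A) \ A ⊆ {sSup A} := by
          rintro x ⟨hx, hx'⟩
          by_contra h5
          exact hx' (h2 ⟨hx.1, lt_of_le_of_ne hx.2 h5⟩)
        exact measure_mono_null h4 (by simp)
      · rw [sdiff_eq_empty.2 h1]
        simp
    rw [setIntegral_congr_set h3, ← intervalIntegral.integral_of_le huc.le]
    exact hB _ ⟨huc.le, hcv⟩

/-- the case of a globally antitone weight -/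
theorem bonnet_glob {g w : ℝ → ℝ} {u v B W : ℝ} (huv : u ≤ v)
    (hg : IntervalIntegrable g volume u v) (hw : Antitone w) (hw0 : ∀ x, 0 ≤ w x)
    (hW : 0 ≤ W) (hwW : ∀ x, w x ≤ W) (hB : ∀ t ∈ Icc u v, -B ≤ ∫ x in u..t, g x) :
    -(B * W) ≤ ∫ x in u..v, g x * w x := by
  have hms : MeasurableSet {p : ℝ × ℝ | p.2 < w p.1} :=
    measurableSet_lt measurable_snd (hw.measurable.comp measurable_fst)
  have hg' : Integrable g (volume.restrict (Ioc u v)) :=
    (intervalIntegrable_iff_integrableOn_Ioc_of_le huv).1 hg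
  let f : ℝ → ℝ → ℝ := fun x τ => {p : ℝ × ℝ | p.2 < w p.1}.indicator (fun p => g p.1) (x, τ)
  have hf : Integrable (Function.uncurry f)
      ((volume.restrict (Ioc u v)).prod (volume.restrict (Ioc 0 W))) := by
    have h1 : Integrable (fun p : ℝ × ℝ => g p.1 * (1:ℝ))
        ((volume.restrict (Ioc u v)).prod (volume.restrict (Ioc 0 W))) :=
      hg'.mul_prod (integrable_const 1)
    simp only [mul_one] at h1
    exact h1.indicator hms
  have h1 : ∀ x, ∫ τ in Ioc 0 W, f x τ = g x * w x := by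
    intro x
    have h2 : f x = (Iio (w x)).indicator (fun _ => g x) := by
      funext τ
      simp only [f, indicator, mem_ofPred_eq, mem_Iio]
    rw [h2, setIntegral_indicator measurableSet_Iio]
    have h3 : Ioc 0 W ∩ Iio (w x) = Ioo 0 (w x) := by
      ext τ
      constructor
      · rintro ⟨h4, h5⟩
        exact ⟨h4.1, h5⟩
      · rintro ⟨h4, h5⟩
        exact ⟨⟨h4, h5.le.trans (hwW x)⟩, h5⟩
    rw [h3]
    simp [Real.volume_real_Ioo_of_le (hw0 x), mul_comm]
  have h2 : ∀ τ, -B ≤ ∫ x in Ioc u v, f x τ := by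
    intro τ
    have h3 : (fun x => f x τ) = {x | τ < w x}.indicator g := by
      funext x
      simp only [f, indicator, mem_ofPred_eq]
    have h4 : MeasurableSet {x | τ < w x} := measurableSet_lt measurable_const hw.measurable
    rw [h3, setIntegral_indicator h4]
    exact init_bound huv hw hB τ
  rw [intervalIntegral.integral_of_le huv]
  have h3 : ∫ x in Ioc u v, g x * w x = ∫ τ in Ioc 0 W, ∫ x in Ioc u v, f x τ := by
    rw [← integral_integral_swap hf]
    exact integral_congr_ae (Filter.Eventually.of_forall fun x => (h1 x).symm)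
  rw [h3]
  have h4 : ∫ τ in Ioc 0 W, -B = -(B * W) := by
    simp [Real.volume_real_Ioc_of_le hW, mul_comm]
  rw [← h4]
  exact integral_mono (integrable_const _) hf.integral_prod_right h2

end Pool.Agent.H589.Pent.bonnetAux

namespace Pool.Agent.H589.Pent

theorem bonnet : S_Bonnet := by
  intro g w u v B huv hg hw hw0 W hW hwW hB
  classical
  let w1 : ℝ → ℝ := fun x => if x ≤ u then W else if x < v then w x else 0
  have h1 : Antitone w1 := by
    intro x y hxy
    simp only [w1]
    by_cases hx : x ≤ u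
    · rw [if_pos hx]
      by_cases hy : y ≤ u
      · rw [if_pos hy]
      · rw [if_neg hy]
        by_cases hy' : y < v
        · rw [if_pos hy']
          exact hwW y ⟨not_le.1 hy, hy'⟩
        · rw [if_neg hy']
          exact hW
    · have hy : ¬ y ≤ u := fun h => hx (hxy.trans h)
      rw [if_neg hx, if_neg hy]
      by_cases hy' : y < v
      · have hx' : x < v := hxy.trans_lt hy'
        rw [if_pos hx', if_pos hy']
        exact hw ⟨not_le.1 hx, hx'⟩ ⟨not_le.1 hy, hy'⟩ hxy
      · rw [if_neg hy']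
        by_cases hx' : x < v
        · rw [if_pos hx']
          exact hw0 x ⟨not_le.1 hx, hx'⟩
        · rw [if_neg hx']
  have h2 : ∀ x, 0 ≤ w1 x := by
    intro x
    simp only [w1]
    split_ifs with h1 h2
    · exact hW
    · exact hw0 x ⟨not_le.1 h1, h2⟩
    · exact le_rfl
  have h3 : ∀ x, w1 x ≤ W := by
    intro x
    simp only [w1]
    split_ifs with h1 h2
    · exact le_rfl
    · exact hwW x ⟨not_le.1 h1, h2⟩
    · exact hW
  have h4 := bonnetAux.bonnet_glob huv hg h1 h2 hW h3 hB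
  refine h4.trans (le_of_eq ?_)
  rw [intervalIntegral.integral_of_le huv, intervalIntegral.integral_of_le huv,
    integral_Ioc_eq_integral_Ioo, integral_Ioc_eq_integral_Ioo]
  refine setIntegral_congr_fun measurableSet_Ioo fun x hx => ?_
  simp only [w1]
  rw [if_neg (not_le.2 hx.1), if_pos hx.2]

theorem mono (hC : S_Clausen) : S_Mono := by
  intro χ χ' u v ρ huv hρ hcont hder hanti hle
  rcases huv.eq_or_lt with rfl | huv'
  · rw [intervalIntegral.integral_same]
    have := Real.pi_pos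
    have h : 0 ≤ 2 * Real.pi / 3 / ρ := by positivity
    rw [neg_div]
    linarith
  have hneg : ∀ s ∈ Ioo u v, χ' s < 0 := fun s hs => (hle s hs).trans_lt (by linarith)
  have hsa : StrictAntiOn χ (Icc u v) := by
    refine strictAntiOn_of_deriv_neg (convex_Icc u v) hcont fun x hx => ?_
    rw [interior_Icc] at hx
    rw [(hder x hx).deriv]
    exact hneg x hx
  have himg : ∀ t ∈ Icc u v, χ '' Ioo u t = Ioo (χ t) (χ u) := by
    intro t ht
    apply Subset.antisymm
    · rintro _ ⟨x, hx, rfl⟩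
      exact ⟨hsa ⟨hx.1.le, hx.2.le.trans ht.2⟩ ht hx.2,
        hsa ⟨le_rfl, huv⟩ ⟨hx.1.le, hx.2.le.trans ht.2⟩ hx.1⟩
    · exact intermediate_value_Ioo' ht.1 (hcont.mono (Icc_subset_Icc_right ht.2))
  have hle' : ∀ t ∈ Icc u v, χ t ≤ χ u := fun t ht => by
    rcases ht.1.eq_or_lt with h | h
    · rw [h]
    · exact (hsa ⟨le_rfl, huv⟩ ht h).le
  have hinj : ∀ t ∈ Icc u v, InjOn χ (Ioo u t) := fun t ht =>
    hsa.injOn.mono fun x (hx : x ∈ Ioo u t) =>
      (⟨hx.1.le, hx.2.le.trans ht.2⟩ : x ∈ Icc u v)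
  have hdw : ∀ t ∈ Icc u v, ∀ x ∈ Ioo u t, HasDerivWithinAt χ (χ' x) (Ioo u t) x :=
    fun t ht x hx => (hder x ⟨hx.1, hx.2.trans_le ht.2⟩).hasDerivWithinAt
  have hvv : v ∈ Icc u v := ⟨huv, le_rfl⟩
  have hg : IntervalIntegrable (fun s => |χ' s| • L (χ s)) volume u v := by
    rw [intervalIntegrable_iff_integrableOn_Ioo_of_le huv,
      ← integrableOn_image_iff_integrableOn_abs_deriv_smul measurableSet_Ioo (hdw v hvv)
        (hinj v hvv), himg v hvv,
      ← intervalIntegrable_iff_integrableOn_Ioo_of_le (hle' v hvv)]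
    exact hC.1 _ _
  have hB : ∀ t ∈ Icc u v, -(2 * Real.pi / 3) ≤ ∫ x in u..t, |χ' x| • L (χ x) := by
    intro t ht
    rw [intervalIntegral.integral_of_le ht.1, integral_Ioc_eq_integral_Ioo,
      ← integral_image_eq_integral_abs_deriv_smul measurableSet_Ioo (hdw t ht) (hinj t ht),
      himg t ht, ← integral_Ioc_eq_integral_Ioo, ← intervalIntegral.integral_of_le (hle' t ht)]
    exact hC.2 _ _ (hle' t ht)
  have habs : ∀ s ∈ Ioo u v, |χ' s| = -χ' s := fun s hs => abs_of_neg (hneg s hs)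
  have h1 := bonnet (fun s => |χ' s| • L (χ s)) (fun s => |χ' s|⁻¹) u v (2 * Real.pi / 3) huv hg
    (fun s hs t ht hst => by
      show |χ' t|⁻¹ ≤ |χ' s|⁻¹
      rw [habs s hs, habs t ht]
      have h2 := hanti hs ht hst
      have h3 := hneg s hs
      exact inv_anti₀ (by linarith) (by linarith))
    (fun s hs => inv_nonneg.2 (abs_nonneg _)) ρ⁻¹ (inv_nonneg.2 hρ.le)
    (fun s hs => by
      show |χ' s|⁻¹ ≤ ρ⁻¹
      rw [habs s hs]
      exact inv_anti₀ hρ (by linarith [hle s hs])) hB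
  have h2 : ∫ x in u..v, (|χ' x| • L (χ x)) * |χ' x|⁻¹ = ∫ x in u..v, L (χ x) := by
    rw [intervalIntegral.integral_of_le huv, intervalIntegral.integral_of_le huv,
      integral_Ioc_eq_integral_Ioo, integral_Ioc_eq_integral_Ioo]
    refine setIntegral_congr_fun measurableSet_Ioo fun x hx => ?_
    have h3 : |χ' x| ≠ 0 := abs_ne_zero.2 (hneg x hx).ne
    simp only [smul_eq_mul]
    field_simp
  rw [h2] at h1
  rw [neg_div, div_eq_mul_inv]
  exact h1

end Pool.Agent.H589.Pent
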