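import Mathlib
import Pool.Agent.H589.Pent.Spec

set_option autoImplicit false

open MeasureTheory Set

namespace Pool.Agent.H589.Pent.clausenAux

theorem L_int (u v : ℝ) : IntervalIntegrable L volume u v := by
  have h1 : MeromorphicOn (fun x : ℝ => 2 * Real.sin (x / 2)) (uIcc u v) := by
    have h2 : AnalyticOnNhd ℝ (fun x : ℝ => 2 * Real.sin (x / 2)) univ := by
      intro x _
      fun_prop
    exact (h2.mono (subset_univ _)).meromorphicOn
  have h3 : L = Real.log ∘ (fun x : ℝ => 2 * Real.sin (x / 2)) := by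
    funext x
    exact Real.log_abs _
  rw [h3]
  exact h1.intervalIntegrable_log

theorem L_neg (x : ℝ) : L (-x) = L x := by
  simp [L, neg_div, Real.sin_neg]

theorem L_per (x : ℝ) : L (x + 2 * Real.pi) = L x := by
  have h1 : (x + 2 * Real.pi) / 2 = x / 2 + Real.pi := by ring
  simp [L, h1, Real.sin_add_pi]

/-- the primitive -/
noncomputable def F (v : ℝ) : ℝ := ∫ x in (0:ℝ)..v, L x

theorem F_sub (u v : ℝ) : ∫ x in u..v, L x = F v - F u := by
  unfold F
  rw [intervalIntegral.integral_interval_sub_left (L_int _ _) (L_int _ _)]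

theorem F_neg (v : ℝ) : F (-v) = -F v := by
  unfold F
  have h := intervalIntegral.integral_comp_neg (a := 0) (b := v) L
  simp only [L_neg, neg_zero] at h
  rw [h, intervalIntegral.integral_symm]

theorem F_two_pi : F (2 * Real.pi) = 0 := by
  have h1 := intervalIntegral.integral_comp_mul_left (a := 0) (b := Real.pi) L
    (c := 2) two_ne_zero
  rw [mul_zero] at h1
  have h2 : ∫ x in (0:ℝ)..Real.pi, L (2 * x) = 0 := by
    have h3 : ∫ x in (0:ℝ)..Real.pi, L (2 * x) =
        ∫ x in (0:ℝ)..Real.pi, (Real.log 2 + Real.log (Real.sin x)) := by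
      refine intervalIntegral.integral_congr_ae ?_
      have h4 : ∀ᵐ x : ℝ, x ≠ Real.pi := by
        simp [ae_iff]
      filter_upwards [h4] with x hx hx'
      rw [uIoc_of_le Real.pi_pos.le] at hx'
      have h5 : 0 < Real.sin x :=
        Real.sin_pos_of_pos_of_lt_pi hx'.1 (lt_of_le_of_ne hx'.2 hx)
      unfold L
      rw [Real.log_abs, mul_div_cancel_left₀ x two_ne_zero,
        Real.log_mul two_ne_zero h5.ne']
    have h5 : IntervalIntegrable (fun x => Real.log (Real.sin x)) volume 0 Real.pi :=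
      intervalIntegrable_log_sin
    rw [h3, intervalIntegral.integral_add (by simp) h5, integral_log_sin_zero_pi]
    simp
    ring
  rw [h2] at h1
  unfold F
  have h6 : (0:ℝ) = 2⁻¹ * ∫ x in (0:ℝ)..(2 * Real.pi), L x := h1
  linarith

theorem F_per : Function.Periodic F (2 * Real.pi) := by
  intro v
  have h1 : F (v + 2 * Real.pi) - F (2 * Real.pi) = F v := by
    rw [← F_sub]
    have h2 := intervalIntegral.integral_comp_add_right (a := 0) (b := v) L (2 * Real.pi)
    rw [zero_add] at h2
    rw [← h2]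
    simp only [L_per]
    rfl
  rw [F_two_pi] at h1
  linarith

theorem F_pi : F Real.pi = 0 := by
  have h1 := F_per (-Real.pi)
  rw [F_neg] at h1
  have h2 : -Real.pi + 2 * Real.pi = Real.pi := by ring
  rw [h2] at h1
  linarith

theorem L_nonneg {x : ℝ} (h1 : Real.pi / 3 ≤ x) (h2 : x ≤ Real.pi) : 0 ≤ L x := by
  have hpi := Real.pi_pos
  have h3 : 1 / 2 ≤ Real.sin (x / 2) := by
    rw [← Real.sin_pi_div_six]
    exact Real.sin_le_sin_of_le_of_le_pi_div_two (by linarith) (by linarith) (by linarith)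
  unfold L
  refine Real.log_nonneg ?_
  rw [abs_of_nonneg (by linarith)]
  linarith

theorem L_nonpos {x : ℝ} (h1 : 0 ≤ x) (h2 : x ≤ Real.pi / 3) : L x ≤ 0 := by
  have hpi := Real.pi_pos
  have h3 : Real.sin (x / 2) ≤ 1 / 2 := by
    rw [← Real.sin_pi_div_six]
    exact Real.sin_le_sin_of_le_of_le_pi_div_two (by linarith) (by linarith) (by linarith)
  have h4 : 0 ≤ Real.sin (x / 2) :=
    Real.sin_nonneg_of_nonneg_of_le_pi (by linarith) (by linarith)
  unfold L
  refine Real.log_nonpos (abs_nonneg _) ?_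
  rw [abs_of_nonneg (by linarith)]
  linarith

theorem sin_ge {x : ℝ} (h1 : 0 ≤ x) (h2 : x ≤ Real.pi / 3) :
    3 / Real.pi * x ≤ 2 * Real.sin (x / 2) := by
  have hpi := Real.pi_pos
  have h4 : 3 / Real.pi * (Real.pi / 3) = 1 := by field_simp
  have h6 : 3 / Real.pi * x ≤ 3 / Real.pi * (Real.pi / 3) :=
    mul_le_mul_of_nonneg_left h2 (by positivity)
  have h7 : (0:ℝ) ≤ 1 - 3 / Real.pi * x := by linarith
  have h8 : (0:ℝ) ≤ 3 / Real.pi * x := by positivity
  have hx0 : (0:ℝ) ∈ Icc 0 Real.pi := ⟨le_rfl, hpi.le⟩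
  have hx1 : Real.pi / 6 ∈ Icc 0 Real.pi := ⟨by linarith, by linarith⟩
  have h3 := strictConcaveOn_sin_Icc.concaveOn.2 hx0 hx1 h7 h8 (by ring)
  simp only [smul_eq_mul, mul_zero, zero_add, Real.sin_zero, Real.sin_pi_div_six] at h3
  have h5 : 3 / Real.pi * x * (Real.pi / 6) = x / 2 := by field_simp; ring
  rw [h5] at h3
  linarith

theorem F_pi_third : -(Real.pi / 3) ≤ F (Real.pi / 3) := by
  have hpi := Real.pi_pos
  have h1 := intervalIntegral.integral_comp_mul_left (a := 0) (b := Real.pi / 3) Real.log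
    (c := 3 / Real.pi) (by positivity)
  have h4 : 3 / Real.pi * (Real.pi / 3) = 1 := by field_simp
  rw [mul_zero, h4, integral_log] at h1
  have h5 : ∫ x in (0:ℝ)..(Real.pi / 3), Real.log (3 / Real.pi * x) = -(Real.pi / 3) := by
    rw [h1]
    simp
  rw [← h5]
  unfold F
  refine intervalIntegral.integral_mono_on_of_le_Ioo (by positivity) ?_ (L_int _ _) ?_
  · have h6 := (intervalIntegral.intervalIntegrable_log' (a := 0) (b := 1)).comp_mul_left
      (c := 3 / Real.pi)
    rw [zero_div, one_div_div] at h6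
    exact h6
  · intro x hx
    unfold L
    rw [Real.log_abs]
    exact Real.log_le_log (mul_pos (by positivity) hx.1) (sin_ge hx.1.le hx.2.le)

theorem F_bound0 {v : ℝ} (h1 : 0 ≤ v) (h2 : v ≤ Real.pi) : |F v| ≤ Real.pi / 3 := by
  have hpi := Real.pi_pos
  rw [abs_le]
  rcases le_total v (Real.pi / 3) with h | h
  · constructor
    · have h3 : ∫ x in v..(Real.pi / 3), L x ≤ 0 := by
        have := intervalIntegral.integral_mono_on h (L_int _ _) (g := fun _ => (0:ℝ)) (by simp)
          (fun x hx => L_nonpos (h1.trans hx.1) hx.2)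
        simpa using this
      rw [F_sub] at h3
      have := F_pi_third
      linarith
    · have h3 : ∫ x in (0:ℝ)..v, L x ≤ 0 := by
        have := intervalIntegral.integral_mono_on h1 (L_int _ _) (g := fun _ => (0:ℝ)) (by simp)
          (fun x hx => L_nonpos hx.1 (hx.2.trans h))
        simpa using this
      have : F v ≤ 0 := h3
      linarith
  · constructor
    · have h3 : 0 ≤ ∫ x in (Real.pi / 3)..v, L x :=
        intervalIntegral.integral_nonneg h fun x hx => L_nonneg hx.1 (hx.2.trans h2)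
      rw [F_sub] at h3
      have := F_pi_third
      linarith
    · have h3 : 0 ≤ ∫ x in v..Real.pi, L x :=
        intervalIntegral.integral_nonneg h2 fun x hx => L_nonneg (h.trans hx.1) hx.2
      rw [F_sub, F_pi] at h3
      linarith

theorem F_bound (v : ℝ) : |F v| ≤ Real.pi / 3 := by
  obtain ⟨y, hy, h⟩ := F_per.exists_mem_Ico (by positivity) v (-Real.pi)
  rw [h]
  rcases le_total 0 y with h1 | h1
  · exact F_bound0 h1 (by linarith [hy.2])
  · rw [← abs_neg, ← F_neg]
    exact F_bound0 (by linarith) (by linarith [hy.1])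

end Pool.Agent.H589.Pent.clausenAux

namespace Pool.Agent.H589.Pent

theorem clausen : S_Clausen := by
  refine ⟨clausenAux.L_int, fun u v _ => ?_⟩
  rw [clausenAux.F_sub]
  have h1 := abs_le.1 (clausenAux.F_bound u)
  have h2 := abs_le.1 (clausenAux.F_bound v)
  linarith [h1.2, h2.1]

end Pool.Agent.H589.Pent
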