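import Mathlib
import Pool.Agent.H589.Pent.Spec

set_option autoImplicit false

open MeasureTheory Set

namespace Pool.Agent.H589.Pent.CoshLe

/-- a function vanishing at `0` with nonnegative derivative on `[0,∞)` is nonnegative there -/
lemma nonneg_of_deriv (f f' : ℝ → ℝ) (h0 : f 0 = 0) (hd : ∀ x, HasDerivAt f (f' x) x)
    (hp : ∀ x, 0 ≤ x → 0 ≤ f' x) : ∀ x, 0 ≤ x → 0 ≤ f x := by
  intro x hx
  have hm : MonotoneOn f (Ici (0:ℝ)) := by
    apply monotoneOn_of_deriv_nonneg (convex_Ici 0)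
    · exact fun y _ => (hd y).continuousAt.continuousWithinAt
    · exact fun y _ => (hd y).differentiableAt.differentiableWithinAt
    · intro y hy
      rw [interior_Ici] at hy
      rw [(hd y).deriv]
      exact hp y (le_of_lt hy)
  have := hm (mem_Ici.mpr (le_refl (0:ℝ))) (mem_Ici.mpr hx) hx
  rw [h0] at this
  exact this

lemma cos_le1 : ∀ x : ℝ, 0 ≤ x → 0 ≤ 1 - Real.cos x := fun x _ => by
  linarith [Real.cos_le_one x]

lemma sin_le1 : ∀ x : ℝ, 0 ≤ x → 0 ≤ x - Real.sin x := by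
  apply nonneg_of_deriv (fun x => x - Real.sin x) (fun x => 1 - Real.cos x) (by simp)
  · intro x
    exact (hasDerivAt_id x).sub (Real.hasDerivAt_sin x)
  · exact cos_le1

lemma cos_ge2 : ∀ x : ℝ, 0 ≤ x → 0 ≤ Real.cos x - (1 - x ^ 2 / 2) := by
  apply nonneg_of_deriv (fun x => Real.cos x - (1 - x ^ 2 / 2)) (fun x => x - Real.sin x) (by simp)
  · intro x
    have h1 := (Real.hasDerivAt_cos x).sub
      ((hasDerivAt_const x (1:ℝ)).sub ((hasDerivAt_pow 2 x).div_const 2))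
    exact h1.congr_deriv (by norm_num; ring)
  · exact sin_le1

lemma sin_ge3 : ∀ x : ℝ, 0 ≤ x → 0 ≤ Real.sin x - (x - x ^ 3 / 6) := by
  apply nonneg_of_deriv (fun x => Real.sin x - (x - x ^ 3 / 6))
    (fun x => Real.cos x - (1 - x ^ 2 / 2)) (by simp)
  · intro x
    have h1 := (Real.hasDerivAt_sin x).sub
      ((hasDerivAt_id x).sub ((hasDerivAt_pow 3 x).div_const 6))
    exact h1.congr_deriv (by norm_num; ring)
  · exact cos_ge2

lemma cos_le4 : ∀ x : ℝ, 0 ≤ x → 0 ≤ (1 - x ^ 2 / 2 + x ^ 4 / 24) - Real.cos x := by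
  apply nonneg_of_deriv (fun x => (1 - x ^ 2 / 2 + x ^ 4 / 24) - Real.cos x)
    (fun x => Real.sin x - (x - x ^ 3 / 6)) (by simp)
  · intro x
    have h1 := (((hasDerivAt_const x (1:ℝ)).sub ((hasDerivAt_pow 2 x).div_const 2)).add
      ((hasDerivAt_pow 4 x).div_const 24)).sub (Real.hasDerivAt_cos x)
    exact h1.congr_deriv (by norm_num; ring)
  · exact sin_ge3

lemma sin_le5 : ∀ x : ℝ, 0 ≤ x → 0 ≤ (x - x ^ 3 / 6 + x ^ 5 / 120) - Real.sin x := by
  apply nonneg_of_deriv (fun x => (x - x ^ 3 / 6 + x ^ 5 / 120) - Real.sin x)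
    (fun x => (1 - x ^ 2 / 2 + x ^ 4 / 24) - Real.cos x) (by simp)
  · intro x
    have h1 := (((hasDerivAt_id x).sub ((hasDerivAt_pow 3 x).div_const 6)).add
      ((hasDerivAt_pow 5 x).div_const 120)).sub (Real.hasDerivAt_sin x)
    exact h1.congr_deriv (by norm_num; ring)
  · exact cos_le4

lemma cos_ge6 : ∀ x : ℝ, 0 ≤ x → 0 ≤ Real.cos x - (1 - x ^ 2 / 2 + x ^ 4 / 24 - x ^ 6 / 720) := by
  apply nonneg_of_deriv (fun x => Real.cos x - (1 - x ^ 2 / 2 + x ^ 4 / 24 - x ^ 6 / 720))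
    (fun x => (x - x ^ 3 / 6 + x ^ 5 / 120) - Real.sin x) (by simp)
  · intro x
    have h1 := (Real.hasDerivAt_cos x).sub
      ((((hasDerivAt_const x (1:ℝ)).sub ((hasDerivAt_pow 2 x).div_const 2)).add
      ((hasDerivAt_pow 4 x).div_const 24)).sub ((hasDerivAt_pow 6 x).div_const 720))
    exact h1.congr_deriv (by norm_num; ring)
  · exact sin_le5

lemma sin_ge7 : ∀ x : ℝ, 0 ≤ x →
    0 ≤ Real.sin x - (x - x ^ 3 / 6 + x ^ 5 / 120 - x ^ 7 / 5040) := by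
  apply nonneg_of_deriv (fun x => Real.sin x - (x - x ^ 3 / 6 + x ^ 5 / 120 - x ^ 7 / 5040))
    (fun x => Real.cos x - (1 - x ^ 2 / 2 + x ^ 4 / 24 - x ^ 6 / 720)) (by simp)
  · intro x
    have h1 := (Real.hasDerivAt_sin x).sub
      ((((hasDerivAt_id x).sub ((hasDerivAt_pow 3 x).div_const 6)).add
      ((hasDerivAt_pow 5 x).div_const 120)).sub ((hasDerivAt_pow 7 x).div_const 5040))
    exact h1.congr_deriv (by norm_num; ring)
  · exact cos_ge6

/-- `cosh y ≤ 1 + y²/2 + 0.043 y⁴` for `0 ≤ y`, `y² ≤ 0.9` -/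
lemma cosh_upper (y : ℝ) (hy0 : 0 ≤ y) (hy : y ^ 2 ≤ 9 / 10) :
    Real.cosh y ≤ 1 + y ^ 2 / 2 + 43 / 1000 * y ^ 4 := by
  have hy1 : |y| ≤ 1 := by
    rw [abs_of_nonneg hy0]
    nlinarith
  have hy2 : |(-y)| ≤ 1 := by rwa [abs_neg]
  have h1 := Real.exp_bound hy1 (n := 8) (by norm_num)
  have h2 := Real.exp_bound hy2 (n := 8) (by norm_num)
  rw [abs_neg] at h2
  have h1' := (abs_le.mp h1).2
  have h2' := (abs_le.mp h2).2
  rw [abs_of_nonneg hy0] at h1' h2'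
  simp only [Finset.sum_range_succ, Finset.sum_range_zero, Nat.factorial] at h1' h2'
  norm_num at h1' h2'
  rw [Real.cosh_eq]
  have e1 : (-y) ^ 3 = - y ^ 3 := by ring
  have e2 : (-y) ^ 5 = - y ^ 5 := by ring
  have e3 : (-y) ^ 7 = - y ^ 7 := by ring
  have e4 : (-y) ^ 4 = y ^ 4 := by ring
  have e5 : (-y) ^ 6 = y ^ 6 := by ring
  have e6 : (-y) ^ 2 = y ^ 2 := by ring
  simp only [e1, e2, e3] at h2'
  have h4 : 0 ≤ y ^ 4 := by positivity
  have h6 : y ^ 6 ≤ 9 / 10 * y ^ 4 := by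
    have : y ^ 6 = y ^ 2 * y ^ 4 := by ring
    rw [this]; exact mul_le_mul_of_nonneg_right hy h4
  have h8 : y ^ 8 ≤ 81 / 100 * y ^ 4 := by
    have e : y ^ 8 = y ^ 2 * y ^ 6 := by ring
    have h6' : 0 ≤ y ^ 6 := by positivity
    have : y ^ 2 * y ^ 6 ≤ 9 / 10 * y ^ 6 := mul_le_mul_of_nonneg_right hy h6'
    rw [e]; linarith
  nlinarith

lemma poly_ineq (q w : ℝ) (hq1 : 98696 / 10000 ≤ q) (hq2 : q ≤ 98697 / 10000) (hw0 : 0 ≤ w)
    (hw1 : w ≤ 1) :
    45 / 100 + 7 / 100 * (1 - w) ≤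
      (q / 18) * (1 - q * w / 54 + q ^ 2 * w ^ 2 / 9720 - q ^ 3 * w ^ 3 / 3674160) := by
  have h2 : q ^ 2 ≤ 97412 / 1000 := by nlinarith
  have h3 : 96137 / 100 ≤ q ^ 3 := by
    have : (98696 / 10000 : ℝ) ^ 3 ≤ q ^ 3 := by gcongr
    refine le_trans ?_ this
    norm_num
  have h4 : q ^ 4 ≤ 9490 := by
    have : q ^ 4 ≤ (98697 / 10000 : ℝ) ^ 4 := by gcongr
    refine le_trans this ?_
    norm_num
  have e : (q / 18) * (1 - q * w / 54 + q ^ 2 * w ^ 2 / 9720 - q ^ 3 * w ^ 3 / 3674160)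
      = q / 18 - q ^ 2 * w / 972 + q ^ 3 * w ^ 2 / 174960 - q ^ 4 * w ^ 3 / 66134880 := by ring
  rw [e]
  have a1 : q ^ 2 * w ≤ 97412 / 1000 * w := mul_le_mul_of_nonneg_right h2 hw0
  have a2 : 96137 / 100 * w ^ 2 ≤ q ^ 3 * w ^ 2 := mul_le_mul_of_nonneg_right h3 (by positivity)
  have a3 : q ^ 4 * w ^ 3 ≤ 9490 * w ^ 3 := mul_le_mul_of_nonneg_right h4 (by positivity)
  have a4 : w ^ 3 ≤ w ^ 2 := by
    have : w ^ 3 = w ^ 2 * w := by ring
    rw [this]; nlinarith [sq_nonneg w]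
  nlinarith [mul_nonneg hw0 (sub_nonneg.mpr hw1), sq_nonneg (1 - w)]

lemma pi_sq_bounds : 98696 / 10000 ≤ Real.pi ^ 2 ∧ Real.pi ^ 2 ≤ 98697 / 10000 := by
  have h1 := Real.pi_gt_d6
  have h2 := Real.pi_lt_d6
  constructor <;> nlinarith

lemma sin_lower (s : ℝ) (h0 : 0 ≤ s) (h1 : s ≤ Real.pi / 3) :
    18 * s / Real.pi ^ 2 * (45 / 100 + 7 / 100 * (1 - 9 * s ^ 2 / Real.pi ^ 2)) ≤ Real.sin s := by
  have hpi := Real.pi_pos
  obtain ⟨q1, q2⟩ := pi_sq_bounds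
  set q := Real.pi ^ 2 with hq
  have hqpos : 0 < q := by positivity
  set w := 9 * s ^ 2 / q with hw
  have hw0 : 0 ≤ w := by positivity
  have hw1 : w ≤ 1 := by
    rw [hw, div_le_one hqpos, hq]
    nlinarith
  have hs2 : s ^ 2 = q * w / 9 := by
    rw [hw]; field_simp
  have hp := poly_ineq q w q1 q2 hw0 hw1
  have h7 := sin_ge7 s h0
  have e : s - s ^ 3 / 6 + s ^ 5 / 120 - s ^ 7 / 5040 =
      18 * s / q * ((q / 18) * (1 - q * w / 54 + q ^ 2 * w ^ 2 / 9720 - q ^ 3 * w ^ 3 / 3674160)) := by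
    have e3 : s ^ 3 = s * (q * w / 9) := by rw [← hs2]; ring
    have e5 : s ^ 5 = s * (q * w / 9) ^ 2 := by rw [← hs2]; ring
    have e7 : s ^ 7 = s * (q * w / 9) ^ 3 := by rw [← hs2]; ring
    rw [e3, e5, e7]
    field_simp
    ring
  have hfac : 0 ≤ 18 * s / q := by positivity
  have := mul_le_mul_of_nonneg_left hp hfac
  rw [← e] at this
  linarith

lemma cos_lower (s : ℝ) (h0 : 0 ≤ s) (h1 : s ≤ Real.pi / 3) :
    1 / 2 + 45 / 100 * (1 - 9 * s ^ 2 / Real.pi ^ 2) + 35 / 1000 * (1 - 9 * s ^ 2 / Real.pi ^ 2) ^ 2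
      ≤ Real.cos s := by
  have hpi := Real.pi_pos
  set F : ℝ → ℝ := fun s => Real.cos s - (1 / 2 + 45 / 100 * (1 - 9 * s ^ 2 / Real.pi ^ 2) +
    35 / 1000 * (1 - 9 * s ^ 2 / Real.pi ^ 2) ^ 2) with hF
  have hder : ∀ x, HasDerivAt F (18 * x / Real.pi ^ 2 * (45 / 100 + 7 / 100 *
      (1 - 9 * x ^ 2 / Real.pi ^ 2)) - Real.sin x) x := by
    intro x
    have ht : HasDerivAt (fun s : ℝ => 1 - 9 * s ^ 2 / Real.pi ^ 2) (- (18 * x / Real.pi ^ 2)) x := by
      have := (hasDerivAt_const x (1:ℝ)).sub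
        (((hasDerivAt_pow 2 x).const_mul 9).div_const (Real.pi ^ 2))
      exact this.congr_deriv (by norm_num; ring)
    have h2 := (Real.hasDerivAt_cos x).sub
      (((hasDerivAt_const x (1/2:ℝ)).add (ht.const_mul (45 / 100))).add
        ((ht.pow 2).const_mul (35 / 1000)))
    exact h2.congr_deriv (by norm_num; ring)
  have hanti : AntitoneOn F (Icc 0 (Real.pi / 3)) := by
    apply antitoneOn_of_deriv_nonpos (convex_Icc _ _)
    · exact fun y _ => (hder y).continuousAt.continuousWithinAt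
    · exact fun y _ => (hder y).differentiableAt.differentiableWithinAt
    · intro y hy
      rw [interior_Icc] at hy
      rw [(hder y).deriv]
      linarith [sin_lower y hy.1.le hy.2.le]
  have hend : F (Real.pi / 3) = 0 := by
    simp only [hF]
    rw [Real.cos_pi_div_three]
    field_simp
    ring
  have := hanti (show s ∈ Icc (0:ℝ) (Real.pi / 3) from ⟨h0, h1⟩)
    (show Real.pi / 3 ∈ Icc (0:ℝ) (Real.pi / 3) from ⟨by positivity, le_refl _⟩) h1
  rw [hend] at this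
  simp only [hF] at this
  linarith

lemma main_nonneg (s : ℝ) (h0 : 0 ≤ s) (h1 : s ≤ Real.pi / 3) :
    2 * Real.cosh (ga s) ≤ 2 * Real.cos s + 1 := by
  have hpi := Real.pi_pos
  have ht0 : 0 ≤ 1 - (3 * s / Real.pi) ^ 2 := by
    have : 3 * s / Real.pi ≤ 1 := by
      rw [div_le_one hpi]; linarith
    have h' : 0 ≤ 3 * s / Real.pi := by positivity
    nlinarith
  have ht1 : 1 - (3 * s / Real.pi) ^ 2 ≤ 1 := by
    have := sq_nonneg (3 * s / Real.pi)
    linarith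
  have hsq : ga s ^ 2 = 9 / 10 * (1 - (3 * s / Real.pi) ^ 2) := by
    unfold ga
    exact Real.sq_sqrt (by positivity)
  have hga0 : 0 ≤ ga s := Real.sqrt_nonneg _
  have hc := cosh_upper (ga s) hga0 (by rw [hsq]; linarith)
  have e4 : ga s ^ 4 = (9 / 10 * (1 - (3 * s / Real.pi) ^ 2)) ^ 2 := by
    rw [← hsq]; ring
  rw [e4, hsq] at hc
  have hcl := cos_lower s h0 h1
  have et : 1 - (3 * s / Real.pi) ^ 2 = 1 - 9 * s ^ 2 / Real.pi ^ 2 := by
    rw [div_pow, mul_pow]; norm_num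
  rw [et] at hc ht0
  set t := 1 - 9 * s ^ 2 / Real.pi ^ 2
  nlinarith [sq_nonneg t]

end Pool.Agent.H589.Pent.CoshLe

namespace Pool.Agent.H589.Pent

theorem cosh_le : S_Cosh := by
  intro s hs
  rcases le_total 0 s with h | h
  · rw [abs_of_nonneg h] at hs
    exact CoshLe.main_nonneg s h hs
  · rw [abs_of_nonpos h] at hs
    have := CoshLe.main_nonneg (-s) (by linarith) hs
    have e1 : ga (-s) = ga s := by
      unfold ga
      congr 2
      ring
    rwa [e1, Real.cos_neg] at this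

end Pool.Agent.H589.Pent
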