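import Mathlib
import Pool.Agent.H589.Pent.Spec

/-! `S_Int`: an explicit integral with the arcsine substitution. -/

set_option autoImplicit false

open MeasureTheory Set

namespace Pool.Agent.H589.Pent

namespace int_ga

/-- the half width -/
noncomputable def hh : ℝ := Real.pi / 3

lemma hh_pos : 0 < hh := by unfold hh; positivity

/-- the square root -/
noncomputable def rt (s : ℝ) : ℝ := √(1 - (s / hh) ^ 2)

lemma rt_cont : Continuous rt := by unfold rt; fun_prop

lemma ga_eq (s : ℝ) : ga s = √(9 / 10) * rt s := by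
  unfold ga rt hh
  rw [← Real.sqrt_mul (by norm_num)]
  congr 2
  field_simp

lemma rt_pos {s : ℝ} (hs : s ∈ Ioo (-hh) hh) : 0 < rt s := by
  unfold rt
  apply Real.sqrt_pos.2
  have h1 : |s / hh| < 1 := by
    rw [abs_div, abs_of_pos hh_pos, div_lt_one hh_pos, abs_lt]
    exact hs
  have h2 : (s / hh) ^ 2 < 1 := by
    rw [← sq_abs]
    nlinarith [abs_nonneg (s / hh)]
  linarith

lemma rt_nonneg (s : ℝ) : 0 ≤ rt s := Real.sqrt_nonneg _

lemma int_rt : ∫ s in (-hh)..hh, rt s = hh * (Real.pi / 2) := by
  unfold rt
  rw [intervalIntegral.integral_comp_div (fun x => √(1 - x ^ 2)) hh_pos.ne', neg_div,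
    div_self hh_pos.ne', integral_sqrt_one_sub_sq, smul_eq_mul]

lemma arc_deriv {s : ℝ} (hs : s ∈ Ioo (-hh) hh) :
    HasDerivAt (fun s => hh * Real.arcsin (s / hh)) (1 / rt s) s := by
  have hp := hh_pos
  have h1 : s / hh ≠ -1 := by
    intro h
    rw [div_eq_iff hp.ne'] at h
    linarith [hs.1]
  have h2 : s / hh ≠ 1 := by
    intro h
    rw [div_eq_iff hp.ne'] at h
    linarith [hs.2]
  have h3 := ((Real.hasDerivAt_arcsin h1 h2).comp s ((hasDerivAt_id s).div_const hh)).const_mul hh
  refine h3.congr_deriv ?_
  unfold rt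
  field_simp

lemma arc_cont : Continuous (fun s => hh * Real.arcsin (s / hh)) := by
  have := Real.continuous_arcsin
  fun_prop

lemma inv_int : IntervalIntegrable (fun s => 1 / rt s) volume (-hh) hh := by
  have hp := hh_pos
  have hle : -hh ≤ hh := by linarith
  apply intervalIntegral.intervalIntegrable_deriv_of_nonneg
    (g := fun s => hh * Real.arcsin (s / hh)) arc_cont.continuousOn
  · intro x hx
    rw [min_eq_left hle, max_eq_right hle] at hx
    exact arc_deriv hx
  · intro x _
    exact div_nonneg zero_le_one (rt_nonneg x)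

lemma int_inv : ∫ s in (-hh)..hh, 1 / rt s = hh * Real.pi := by
  have hp := hh_pos
  have hle : -hh ≤ hh := by linarith
  rw [intervalIntegral.integral_eq_sub_of_hasDerivAt_of_le hle arc_cont.continuousOn
    (fun x hx => arc_deriv hx) inv_int]
  rw [div_self hp.ne', neg_div, div_self hp.ne', Real.arcsin_one, Real.arcsin_neg_one]
  ring

lemma log_lower {y : ℝ} (hy : 0 < y) : -(1 / y) ≤ Real.log (1 - Real.exp (-y)) := by
  have h1 : 1 + y ≤ Real.exp y := by linarith [Real.add_one_le_exp y]
  have h2 : Real.exp (-y) ≤ (1 + y)⁻¹ := by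
    rw [Real.exp_neg]
    exact inv_anti₀ (by linarith) h1
  have h3 : y / (1 + y) ≤ 1 - Real.exp (-y) := by
    have : y / (1 + y) = 1 - (1 + y)⁻¹ := by
      field_simp
      ring
    rw [this]
    linarith
  have h4 : 0 < y / (1 + y) := by positivity
  have h5 : Real.log (y / (1 + y)) ≤ Real.log (1 - Real.exp (-y)) := Real.log_le_log h4 h3
  refine le_trans ?_ h5
  have h6 := Real.one_sub_inv_le_log_of_pos h4
  refine le_trans (le_of_eq ?_) h6
  field_simp
  ring

lemma log_upper {y : ℝ} (hy : 0 < y) : Real.log (1 - Real.exp (-y)) ≤ 0 := by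
  apply Real.log_nonpos
  · have : Real.exp (-y) ≤ 1 := Real.exp_le_one_iff.2 (by linarith)
    linarith
  · linarith [Real.exp_pos (-y)]

end int_ga

open int_ga in
theorem int_ga : S_Int := by
  intro b hb
  have hp := hh_pos
  set c := √(9 / 10 : ℝ) with hc
  have hc0 : 0 < c := Real.sqrt_pos.2 (by norm_num)
  have hb0 : 0 < b := by linarith
  have hbc : 0 < b * c := by positivity
  have hle : -hh ≤ hh := by linarith
  set f : ℝ → ℝ := fun s => b * ga s + 2 * Real.log (1 - Real.exp (-(b * ga s))) with hf
  set lo : ℝ → ℝ := fun s => (b * c) * rt s - (2 / (b * c)) * (1 / rt s) with hlo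
  set up : ℝ → ℝ := fun s => (b * c) * rt s + (2 / (b * c)) * (1 / rt s) with hup
  have hrt : IntervalIntegrable rt volume (-hh) hh := rt_cont.intervalIntegrable _ _
  have hloi : IntervalIntegrable lo volume (-hh) hh :=
    (hrt.const_mul _).sub (inv_int.const_mul _)
  have hupi : IntervalIntegrable up volume (-hh) hh :=
    (hrt.const_mul _).add (inv_int.const_mul _)
  have hfe : ∀ s, f s = (b * c) * rt s + 2 * Real.log (1 - Real.exp (-((b * c) * rt s))) := by
    intro s
    rw [hf]
    simp only [ga_eq]
    rw [← hc]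
    ring_nf
  have hlof : ∀ s, lo s ≤ f s := by
    intro s
    rw [hfe]
    show (b * c) * rt s - (2 / (b * c)) * (1 / rt s) ≤ _
    rcases (rt_nonneg s).eq_or_lt with h0 | h0
    · rw [← h0]
      simp
    · have h1 := log_lower (y := (b * c) * rt s) (by positivity)
      have h2 : (2 / (b * c)) * (1 / rt s) = 2 * (1 / ((b * c) * rt s)) := by
        field_simp
      rw [h2]
      linarith
  have hfup : ∀ s, f s ≤ up s := by
    intro s
    rw [hfe]
    show _ ≤ (b * c) * rt s + (2 / (b * c)) * (1 / rt s)
    rcases (rt_nonneg s).eq_or_lt with h0 | h0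
    · rw [← h0]
      simp
    · have h1 := log_upper (y := (b * c) * rt s) (by positivity)
      have h2 : 0 ≤ (2 / (b * c)) * (1 / rt s) := by positivity
      linarith
  have hnorm : ∀ s, ‖f s‖ ≤ up s := by
    intro s
    rw [Real.norm_eq_abs, abs_le]
    refine ⟨?_, hfup s⟩
    have h1 := hlof s
    have h2 : -up s ≤ lo s := by
      show -((b * c) * rt s + (2 / (b * c)) * (1 / rt s)) ≤
        (b * c) * rt s - (2 / (b * c)) * (1 / rt s)
      have := rt_nonneg s
      have : 0 ≤ (b * c) * rt s := by positivity
      linarith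
    linarith
  have hfm : Measurable f := by
    have h1 : Measurable ga := by
      unfold ga
      apply Continuous.measurable
      fun_prop
    rw [hf]
    apply Measurable.add (h1.const_mul b)
    apply Measurable.const_mul
    apply Real.measurable_log.comp
    apply Measurable.sub measurable_const
    apply Real.measurable_exp.comp
    exact (h1.const_mul b).neg
  have hfi : IntervalIntegrable f volume (-hh) hh :=
    hupi.mono_fun' hfm.aestronglyMeasurable (Filter.Eventually.of_forall hnorm)
  refine ⟨hfi, ?_⟩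
  have hI : ∫ s in (-hh)..hh, lo s =
      2 * (b * c * Real.pi ^ 2 / 12 - Real.pi ^ 2 / (3 * c * b)) := by
    rw [hlo, intervalIntegral.integral_sub (hrt.const_mul _) (inv_int.const_mul _),
      intervalIntegral.integral_const_mul, intervalIntegral.integral_const_mul, int_rt, int_inv]
    unfold hh
    field_simp
    ring
  rw [← hI]
  exact intervalIntegral.integral_mono_on hle hloi hfi fun s _ => hlof s

end Pool.Agent.H589.Pent
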