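import Mathlib
import Pool.Agent.H589.Pent.Spec

/-!
# S_Mid (helper599 for helper589's Pent project)
-/

set_option autoImplicit false

open MeasureTheory Set

namespace Pool.Agent.H589.Pent

namespace mid

/-- `|2 sin (x/2)| ≥ 0.51 |x|` for `|x| ≤ 3.705` -/
theorem sin_low (x : ℝ) (hx : |x| ≤ 3705 / 1000) : 51 / 100 * |x| ≤ |2 * Real.sin (x / 2)| := by
  have key : ∀ y : ℝ, 0 ≤ y → y ≤ 3705 / 2000 → 51 / 100 * y ≤ Real.sin y := by
    intro y hy0 hy1
    have hpi1 := Real.pi_gt_d4
    have hpi2 := Real.pi_lt_d4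
    rcases le_total y (Real.pi / 2) with h | h
    · have h1 := Real.mul_le_sin hy0 h
      have h2 : (51 / 100 : ℝ) ≤ 2 / Real.pi := by
        rw [le_div_iff₀ Real.pi_pos]; linarith
      nlinarith
    · have h1 : Real.sin y = Real.cos (y - Real.pi / 2) := by
        rw [Real.cos_sub_pi_div_two]
      rw [h1]
      have h2 := Real.one_sub_sq_div_two_le_cos (x := y - Real.pi / 2)
      have h3 : 0 ≤ y - Real.pi / 2 := by linarith
      have h4 : y - Real.pi / 2 ≤ 282 / 1000 := by linarith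
      nlinarith
  have h1 := key (|x| / 2) (by positivity) (by linarith)
  have h2 : |2 * Real.sin (x / 2)| = 2 * |Real.sin (x / 2)| := by
    rw [abs_mul]; norm_num
  have h3 : Real.sin (|x| / 2) ≤ |Real.sin (x / 2)| := by
    rcases abs_cases x with ⟨h, -⟩ | ⟨h, -⟩
    · rw [h]; exact le_abs_self _
    · rw [h, show -x / 2 = -(x / 2) by ring, Real.sin_neg]; exact neg_le_abs _
  rw [h2]; linarith

/-- the length of the interval -/
theorem len (χ' : ℝ → ℝ) (u v Λ : ℝ) (hΛ : 0 < Λ)
    (hm : AntitoneOn (fun s => χ' s + Λ * s) (Ioo u v))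
    (hb : ∀ s ∈ Ioo u v, |χ' s| ≤ 3 / 2 * √Λ) : (v - u) * √Λ ≤ 3 := by
  have hs : 0 < √Λ := Real.sqrt_pos.2 hΛ
  have hsq : √Λ * √Λ = Λ := Real.mul_self_sqrt hΛ.le
  by_contra hcon
  push Not at hcon
  set e := ((v - u) - 3 / √Λ) / 4 with he
  have h0 : 3 / √Λ < v - u := by rw [div_lt_iff₀ hs]; exact hcon
  have he0 : 0 < e := by rw [he]; linarith
  have h3 : 0 < 3 / √Λ := by positivity
  have hu : u + e ∈ Ioo u v := ⟨by linarith, by rw [he]; linarith⟩
  have hv : v - e ∈ Ioo u v := ⟨by rw [he]; linarith, by linarith⟩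
  have h1 := hm hu hv (by rw [he]; linarith)
  simp only at h1
  have h2 := abs_le.1 (hb _ hu)
  have h4 := abs_le.1 (hb _ hv)
  have h5 : Λ * ((v - e) - (u + e)) ≤ 3 * √Λ := by nlinarith [h2.2, h4.1]
  have h6 : 3 / √Λ < (v - e) - (u + e) := by rw [he]; linarith
  have h7 : Λ * (3 / √Λ) = 3 * √Λ := by
    have e : Λ * (3 / √Λ) = (√Λ * √Λ) * (3 / √Λ) := by rw [hsq]
    rw [e]; field_simp
  nlinarith [mul_lt_mul_of_pos_left h6 hΛ]

/-- one side of the range estimate -/
theorem range_right (χ χ' : ℝ → ℝ) (u v Λ ρ : ℝ) (hc : ContinuousOn χ (Icc u v))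
    (hd : ∀ s ∈ Ioo u v, HasDerivAt χ (χ' s) s)
    (hm : AntitoneOn (fun s => χ' s + Λ * s) (Ioo u v)) (hΛ : 0 < Λ)
    (hb : ∀ s ∈ Ioo u v, -ρ ≤ χ' s) (s t : ℝ) (hs : s ∈ Icc u v) (ht : t ∈ Icc u v) (hst : s ≤ t) :
    χ s - χ t ≤ ρ * (t - s) - Λ * (t - s) ^ 2 / 2 := by
  have hsub : Icc s t ⊆ Icc u v := Icc_subset_Icc hs.1 ht.2
  have hmon : MonotoneOn (fun x => χ x + ρ * x + Λ * (t - x) ^ 2 / 2) (Icc s t) := by
    apply monotoneOn_of_deriv_nonneg (convex_Icc s t)
    · exact ((hc.mono hsub).add (by fun_prop)).add (by fun_prop)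
    · rw [interior_Icc]
      intro x hx
      have hx' : x ∈ Ioo u v := ⟨lt_of_le_of_lt hs.1 hx.1, lt_of_lt_of_le hx.2 ht.2⟩
      exact (((hd x hx').differentiableAt.add (by fun_prop)).add (by fun_prop)).differentiableWithinAt
    · rw [interior_Icc]
      intro x hx
      have hx' : x ∈ Ioo u v := ⟨lt_of_le_of_lt hs.1 hx.1, lt_of_lt_of_le hx.2 ht.2⟩
      have hD : HasDerivAt (fun x => χ x + ρ * x + Λ * (t - x) ^ 2 / 2) (χ' x + ρ - Λ * (t - x)) x := by
        have h1 := hd x hx'
        have h2 : HasDerivAt (fun x : ℝ => ρ * x) ρ x := by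
          simpa using (hasDerivAt_id x).const_mul ρ
        have h3 : HasDerivAt (fun x : ℝ => Λ * (t - x) ^ 2 / 2) (-(Λ * (t - x))) x := by
          have h4 : HasDerivAt (fun x : ℝ => t - x) (-1) x := by
            simpa using (hasDerivAt_id x).const_sub t
          have h5 : HasDerivAt (fun x : ℝ => Λ * (t - x) ^ 2 / 2)
              (Λ * (((2 : ℕ) : ℝ) * (t - x) ^ (2 - 1) * (-1)) / 2) x :=
            ((h4.pow 2).const_mul Λ).div_const 2
          exact h5.congr_deriv (by norm_num; ring)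
        have h6 : HasDerivAt (fun x => χ x + ρ * x + Λ * (t - x) ^ 2 / 2)
          (χ' x + ρ + (-(Λ * (t - x)))) x := (h1.add h2).add h3
        exact h6.congr_deriv (by ring)
      rw [hD.deriv]
      -- χ' x ≥ -ρ + Λ (y - x) for all y in (x,t)
      have h1 : ∀ y ∈ Ioo x t, -ρ + Λ * (y - x) ≤ χ' x := by
        intro y hy
        have hy' : y ∈ Ioo u v := ⟨lt_trans hx'.1 hy.1, lt_of_lt_of_le hy.2 ht.2⟩
        have h2 := hm hx' hy' hy.1.le
        simp only at h2
        have h3 := hb y hy'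
        nlinarith
      by_contra hcon
      push Not at hcon
      -- choose y close to t
      have hxt : x < t := hx.2
      set g := -(χ' x + ρ - Λ * (t - x)) with hg
      have hg0 : 0 < g := by rw [hg]; linarith
      have h1' := h1 (max ((x + t) / 2) (t - g / (2 * Λ))) ⟨lt_of_lt_of_le (by linarith) (le_max_left _ _),
        max_lt (by linarith) (by have : 0 < g / (2 * Λ) := by positivity
                                 linarith)⟩
      have h2 : t - g / (2 * Λ) ≤ max ((x + t) / 2) (t - g / (2 * Λ)) := le_max_right _ _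
      have h3 : Λ * (t - g / (2 * Λ)) ≤ Λ * max ((x + t) / 2) (t - g / (2 * Λ)) :=
        mul_le_mul_of_nonneg_left h2 hΛ.le
      have h4 : Λ * (t - g / (2 * Λ)) = Λ * t - g / 2 := by field_simp
      rw [hg] at h3 h4 h1'
      nlinarith
  have h := hmon (left_mem_Icc.2 hst) (right_mem_Icc.2 hst) hst
  simp only at h
  nlinarith

theorem range (χ χ' : ℝ → ℝ) (u v Λ : ℝ) (hc : ContinuousOn χ (Icc u v))
    (hd : ∀ s ∈ Ioo u v, HasDerivAt χ (χ' s) s)
    (hm : AntitoneOn (fun s => χ' s + Λ * s) (Ioo u v)) (hΛ : 0 < Λ)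
    (hb : ∀ s ∈ Ioo u v, |χ' s| ≤ 3 / 2 * √Λ) (s t : ℝ) (hs : s ∈ Icc u v) (ht : t ∈ Icc u v) :
    χ s - χ t ≤ 9 / 8 := by
  have hsq : √Λ * √Λ = Λ := Real.mul_self_sqrt hΛ.le
  have gen : ∀ x : ℝ, 3 / 2 * √Λ * x - Λ * x ^ 2 / 2 ≤ 9 / 8 := by
    intro x
    have : 3 / 2 * √Λ * x - Λ * x ^ 2 / 2 = 9 / 8 - (√Λ * x - 3 / 2) ^ 2 / 2 := by
      linear_combination (x ^ 2 / 2) * hsq
    rw [this]; nlinarith [sq_nonneg (√Λ * x - 3 / 2)]
  rcases le_total s t with hst | hst
  · exact (range_right χ χ' u v Λ _ hc hd hm hΛ (fun s hs => (abs_le.1 (hb s hs)).1) s t hs ht hst).trans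
      (gen _)
  · -- reflect
    have h := range_right (fun x => χ (-x)) (fun x => -χ' (-x)) (-v) (-u) Λ (3 / 2 * √Λ)
      (hc.comp (by fun_prop) (fun x hx => ⟨by linarith [hx.2], by linarith [hx.1]⟩))
      (fun x hx => by
        have h1 := hd (-x) ⟨by linarith [hx.2], by linarith [hx.1]⟩
        have h2 : HasDerivAt (fun x : ℝ => -x) (-1) x := hasDerivAt_neg x
        have h3 := HasDerivAt.comp x h1 h2
        have h4 : HasDerivAt (fun x => χ (-x)) (χ' (-x) * (-1)) x := h3
        exact h4.congr_deriv (by ring))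
      (fun x hx y hy hxy => by
        have h1 := hm (a := -y) (b := -x) ⟨by linarith [hy.2], by linarith [hy.1]⟩
          ⟨by linarith [hx.2], by linarith [hx.1]⟩ (by linarith)
        simp only at h1 ⊢
        linarith) hΛ
      (fun x hx => by
        have := (abs_le.1 (hb (-x) ⟨by linarith [hx.2], by linarith [hx.1]⟩)).2
        linarith)
      (-s) (-t) ⟨by linarith [hs.2], by linarith [hs.1]⟩ ⟨by linarith [ht.2], by linarith [ht.1]⟩
      (by linarith)
    simp only [neg_neg] at h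
    exact h.trans (gen _)

/-- the three point inequality -/
theorem three (f : ℝ → ℝ) (u v Λ : ℝ) (hf : ConcaveOn ℝ (Icc u v) (fun s => f s + Λ * s ^ 2 / 2))
    (a c b : ℝ) (ha : a ∈ Icc u v) (hb : b ∈ Icc u v) (hac : a ≤ c) (hcb : c ≤ b) (hab : a < b) :
    (b - c) * f a + (c - a) * f b + Λ / 2 * ((c - a) * (b - c) * (b - a)) ≤ (b - a) * f c := by
  have hba : 0 < b - a := sub_pos.2 hab
  have w1 : 0 ≤ (b - c) / (b - a) := div_nonneg (by linarith) hba.le
  have w2 : 0 ≤ (c - a) / (b - a) := div_nonneg (by linarith) hba.le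
  have w3 : (b - c) / (b - a) + (c - a) / (b - a) = 1 := by field_simp; ring
  have h := hf.2 ha hb w1 w2 w3
  simp only [smul_eq_mul] at h
  have e1 : (b - c) / (b - a) * a + (c - a) / (b - a) * b = c := by
    field_simp; ring
  rw [e1] at h
  have h2 := mul_le_mul_of_nonneg_left h hba.le
  have e2 : (b - a) * ((b - c) / (b - a) * (f a + Λ * a ^ 2 / 2) + (c - a) / (b - a) * (f b + Λ * b ^ 2 / 2))
      = (b - c) * (f a + Λ * a ^ 2 / 2) + (c - a) * (f b + Λ * b ^ 2 / 2) := by
    field_simp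
  rw [e2] at h2
  nlinarith

/-- the two points -/
theorem points (f : ℝ → ℝ) (u v Λ : ℝ) (huv : u < v) (hΛ : 0 < Λ) (hc : ContinuousOn f (Icc u v))
    (hf : ConcaveOn ℝ (Icc u v) (fun s => f s + Λ * s ^ 2 / 2)) :
    ∃ p ∈ Icc u v, ∃ q ∈ Icc u v, ∀ s ∈ Icc u v, Λ / 2 * (|s - p| * |s - q|) ≤ |f s| := by
  by_cases hneg : ∀ s ∈ Icc u v, f s ≤ 0
  · obtain ⟨p, hp, hpm⟩ := isCompact_Icc.exists_isMaxOn (nonempty_Icc.2 huv.le) hc
    refine ⟨p, hp, p, hp, ?_⟩
    intro s hs
    have hmax : ∀ x ∈ Icc u v, f x ≤ f p := fun x hx => hpm hx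
    -- for every ε in (0,1)
    have key : ∀ ε : ℝ, 0 < ε → ε < 1 → f s ≤ f p - Λ / 2 * ((1 - ε) * (s - p) ^ 2) := by
      intro ε h0 h1
      have w1 : 0 ≤ 1 - ε := by linarith
      have w3 : (1 - ε) + ε = 1 := by ring
      have h := hf.2 hp hs w1 h0.le w3
      simp only [smul_eq_mul] at h
      have hmem : (1 - ε) * p + ε * s ∈ Icc u v := by
        constructor
        · nlinarith [hp.1, hs.1]
        · nlinarith [hp.2, hs.2]
      have h2 := hmax _ hmem
      have h3 : ε * f s ≤ ε * (f p - Λ / 2 * ((1 - ε) * (s - p) ^ 2)) := by nlinarith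
      exact le_of_mul_le_mul_left h3 h0
    have h4 : f s ≤ f p - Λ / 2 * (s - p) ^ 2 := by
      by_contra hcon
      push Not at hcon
      set g := f s - (f p - Λ / 2 * (s - p) ^ 2) with hg
      have hg0 : 0 < g := by rw [hg]; linarith
      set A := Λ / 2 * (s - p) ^ 2 with hA
      have hA0 : 0 ≤ A := by positivity
      have h5 := key (min (1 / 2) (g / (2 * (A + 1)))) (lt_min (by norm_num) (by positivity))
        (lt_of_le_of_lt (min_le_left _ _) (by norm_num))
      have h6 : min (1 / 2) (g / (2 * (A + 1))) ≤ g / (2 * (A + 1)) := min_le_right _ _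
      have h7 : A * min (1 / 2) (g / (2 * (A + 1))) ≤ A * (g / (2 * (A + 1))) :=
        mul_le_mul_of_nonneg_left h6 hA0
      have h8 : A * (g / (2 * (A + 1))) ≤ g / 2 := by
        rw [mul_div_assoc', div_le_div_iff₀ (by positivity) (by norm_num)]
        nlinarith
      have h9 : Λ / 2 * ((1 - min (1 / 2) (g / (2 * (A + 1)))) * (s - p) ^ 2) =
          A - A * min (1 / 2) (g / (2 * (A + 1))) := by rw [hA]; ring
      rw [h9] at h5
      linarith
    have h5 : f s ≤ 0 := hneg s hs
    rw [abs_of_nonpos h5, ← abs_mul, ← sq, abs_of_nonneg (sq_nonneg _)]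
    have := hneg p hp
    linarith
  · push Not at hneg
    obtain ⟨x0, hx0, hfx0⟩ := hneg
    have hK : IsCompact {s | s ∈ Icc u v ∧ 0 ≤ f s} := by
      have : {s | s ∈ Icc u v ∧ 0 ≤ f s} = Icc u v ∩ f ⁻¹' (Ici 0) := by ext; simp
      rw [this]
      exact isCompact_Icc.of_isClosed_subset (hc.preimage_isClosed_of_isClosed isClosed_Icc isClosed_Ici)
        inter_subset_left
    have hKne : {s | s ∈ Icc u v ∧ 0 ≤ f s}.Nonempty := ⟨x0, hx0, hfx0.le⟩
    obtain ⟨p, hp, hpmin⟩ := hK.exists_isLeast hKne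
    obtain ⟨q, hq, hqmax⟩ := hK.exists_isGreatest hKne
    have hpx : p ≤ x0 := hpmin ⟨hx0, hfx0.le⟩
    have hxq : x0 ≤ q := hqmax ⟨hx0, hfx0.le⟩
    -- if q < v then f q = 0
    have hq0 : q < v → f q ≤ 0 := by
      intro hqv
      by_contra hcon
      push Not at hcon
      have h1 : ContinuousWithinAt f (Icc u v) q := hc q hq.1
      have h2 : ∀ᶠ x in nhdsWithin q (Icc u v), 0 < f x := h1.eventually (lt_mem_nhds hcon)
      have h3 : ∀ᶠ x in nhdsWithin q (Ioc q v), 0 < f x :=
        h2.filter_mono (nhdsWithin_mono _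
          (show Ioc q v ⊆ Icc u v from fun x hx => ⟨hq.1.1.trans hx.1.le, hx.2⟩))
      have h4 : (nhdsWithin q (Ioc q v)).NeBot := by
        rw [nhdsWithin_Ioc_eq_nhdsGT hqv]; infer_instance
      obtain ⟨x, hx, hx'⟩ := (h3.and self_mem_nhdsWithin).exists
      have : x ≤ q := hqmax ⟨⟨hq.1.1.trans hx'.1.le, hx'.2⟩, hx.le⟩
      linarith [hx'.1]
    have hp0 : u < p → f p ≤ 0 := by
      intro hup
      by_contra hcon
      push Not at hcon
      have h1 : ContinuousWithinAt f (Icc u v) p := hc p hp.1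
      have h2 : ∀ᶠ x in nhdsWithin p (Icc u v), 0 < f x := h1.eventually (lt_mem_nhds hcon)
      have h3 : ∀ᶠ x in nhdsWithin p (Ico u p), 0 < f x :=
        h2.filter_mono (nhdsWithin_mono _
          (show Ico u p ⊆ Icc u v from fun x hx => ⟨hx.1, hx.2.le.trans hp.1.2⟩))
      have h4 : (nhdsWithin p (Ico u p)).NeBot := by
        rw [nhdsWithin_Ico_eq_nhdsLT hup]; infer_instance
      obtain ⟨x, hx, hx'⟩ := (h3.and self_mem_nhdsWithin).exists
      have : p ≤ x := hpmin ⟨⟨hx'.1, hx'.2.le.trans hp.1.2⟩, hx.le⟩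
      linarith [hx'.2]
    have hpq : p < q := by
      rcases lt_or_eq_of_le (hpx.trans hxq) with h | h
      · exact h
      · exfalso
        have e1 : p = x0 := le_antisymm hpx (h ▸ hxq)
        have e2 : q = x0 := by rw [← h]; exact e1
        rcases lt_or_eq_of_le hq.1.2 with h' | h'
        · have := hq0 h'; rw [e2] at this; linarith
        · rcases lt_or_eq_of_le hp.1.1 with h'' | h''
          · have := hp0 h''; rw [e1] at this; linarith
          · linarith
    refine ⟨p, hp.1, q, hq.1, ?_⟩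
    intro s hs
    rcases le_or_gt s q with hsq | hsq
    · rcases le_or_gt p s with hps | hps
      · -- between
        have h := three f u v Λ hf p s q hp.1 hq.1 hps hsq hpq
        have h1 : 0 ≤ (q - s) * f p := mul_nonneg (by linarith) hp.2
        have h2 : 0 ≤ (s - p) * f q := mul_nonneg (by linarith) hq.2
        have h3 : (q - p) * (Λ / 2 * ((s - p) * (q - s))) ≤ (q - p) * f s := by nlinarith
        have h4 := le_of_mul_le_mul_left h3 (sub_pos.2 hpq)
        rw [abs_of_nonneg (sub_nonneg.2 hps), abs_of_nonpos (sub_nonpos.2 hsq)]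
        refine le_trans ?_ (le_abs_self _)
        nlinarith
      · -- left of p
        have hup : u < p := lt_of_le_of_lt hs.1 hps
        have hfp : f p = 0 := le_antisymm (hp0 hup) hp.2
        have h := three f u v Λ hf s p q hs hq.1 hps.le hpq.le (hps.trans hpq)
        rw [hfp] at h
        have h2 : 0 ≤ (p - s) * f q := mul_nonneg (by linarith) hq.2
        have h3 : (q - p) * (f s) ≤ (q - p) * (-(Λ / 2 * ((p - s) * (q - s)))) := by nlinarith
        have h4 := le_of_mul_le_mul_left h3 (sub_pos.2 hpq)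
        rw [abs_of_nonpos (sub_nonpos.2 hps.le), abs_of_nonpos (sub_nonpos.2 hsq)]
        refine le_trans ?_ (neg_le_abs _)
        nlinarith
    · -- right of q
      have hqv : q < v := lt_of_lt_of_le hsq hs.2
      have hfq : f q = 0 := le_antisymm (hq0 hqv) hq.2
      have h := three f u v Λ hf p q s hp.1 hs hpq.le hsq.le (hpq.trans hsq)
      rw [hfq] at h
      have h2 : 0 ≤ (s - q) * f p := mul_nonneg (by linarith) hp.2
      have h3 : (q - p) * (f s) ≤ (q - p) * (-(Λ / 2 * ((s - p) * (s - q)))) := by nlinarith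
      have h4 := le_of_mul_le_mul_left h3 (sub_pos.2 hpq)
      rw [abs_of_nonneg (sub_nonneg.2 (hpq.le.trans hsq.le)), abs_of_nonneg (sub_nonneg.2 hsq.le)]
      refine le_trans ?_ (neg_le_abs _)
      nlinarith

/-- the integral of `log |s - p|` -/
theorem int_log (u v p : ℝ) (huv : u < v) (hp : p ∈ Icc u v) :
    IntervalIntegrable (fun s => Real.log |s - p|) volume u v ∧
    (v - u) * (Real.log ((v - u) / 2) - 1) ≤ ∫ s in u..v, Real.log |s - p| := by
  have e : (fun s => Real.log |s - p|) = fun s => Real.log (s - p) := by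
    funext s; exact Real.log_abs _
  rw [e]
  refine ⟨?_, ?_⟩
  · have h : IntervalIntegrable Real.log volume (u - p) (v - p) :=
      intervalIntegral.intervalIntegrable_log'
    simpa using h.comp_sub_right p
  · rw [intervalIntegral.integral_comp_sub_right (fun x => Real.log x) p, integral_log]
    have m1 : v - p ∈ Ici (0 : ℝ) := by simpa using hp.2
    have m2 : p - u ∈ Ici (0 : ℝ) := by simpa using hp.1
    have w1 : (0 : ℝ) ≤ 1 / 2 := by norm_num
    have w3 : (1 / 2 : ℝ) + 1 / 2 = 1 := by norm_num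
    have h1 := Real.convexOn_mul_log.2 m1 m2 w1 w1 w3
    simp only [smul_eq_mul] at h1
    have e1 : 1 / 2 * (v - p) + 1 / 2 * (p - u) = (v - u) / 2 := by ring
    rw [e1] at h1
    have e2 : Real.log (u - p) = Real.log (p - u) := by rw [← Real.log_neg_eq_log, neg_sub]
    rw [e2]
    nlinarith

theorem log_const : -(17 / 30 : ℝ) ≤ Real.log (57375 / 100000) := by
  rw [Real.le_log_iff_exp_le (by norm_num), Real.exp_neg]
  have h := Real.sum_le_exp_of_nonneg (x := 17 / 30) (by norm_num) 4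
  simp [Finset.sum_range_succ, Nat.factorial] at h
  rw [inv_le_comm₀ (Real.exp_pos _) (by norm_num)]
  refine le_trans ?_ h
  norm_num

end mid

theorem mid : S_Mid := by
  intro χ χ' u v Λ huv hΛ hc hd hm hb
  have hs : 0 < √Λ := Real.sqrt_pos.2 hΛ
  have hsq : √Λ * √Λ = Λ := Real.mul_self_sqrt hΛ.le
  have hneg : -(77 / 10) / √Λ ≤ 0 := div_nonpos_of_nonpos_of_nonneg (by norm_num) hs.le
  rcases huv.eq_or_lt with rfl | huv'
  · simpa using hneg
  by_cases hint : IntervalIntegrable (fun s => L (χ s)) volume u v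
  swap
  · rw [intervalIntegral.integral_undef hint]; exact hneg
  -- centre
  obtain ⟨a, ha, hamax⟩ := isCompact_Icc.exists_isMaxOn (nonempty_Icc.2 huv) hc
  obtain ⟨b, hb', hbmin⟩ := isCompact_Icc.exists_isMinOn (nonempty_Icc.2 huv) hc
  have hrange := mid.range χ χ' u v Λ hc hd hm hΛ hb a b ha hb'
  set m := (χ a + χ b) / 2 with hmdef
  set k : ℤ := round (m / (2 * Real.pi)) with hk
  have hpi := Real.pi_pos
  have hk1 : |m - k * (2 * Real.pi)| ≤ Real.pi := by
    have h1 := abs_sub_round (m / (2 * Real.pi))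
    rw [← hk] at h1
    have h2 : m - k * (2 * Real.pi) = (m / (2 * Real.pi) - k) * (2 * Real.pi) := by field_simp
    rw [h2, abs_mul, abs_of_pos (by positivity : 0 < 2 * Real.pi)]
    nlinarith
  set f : ℝ → ℝ := fun s => χ s - k * (2 * Real.pi) with hf
  have hfb : ∀ s ∈ Icc u v, |f s| ≤ 3705 / 1000 := by
    intro s hs'
    have h1 : χ s ≤ χ a := hamax hs'
    have h2 : χ b ≤ χ s := hbmin hs'
    have h3 := abs_le.1 hk1
    have hpi2 := Real.pi_lt_d4
    rw [abs_le]
    constructor <;> simp only [hf] <;> linarith [h3.1, h3.2]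
  have hfc : ContinuousOn f (Icc u v) := hc.sub continuousOn_const
  have hconc : ConcaveOn ℝ (Icc u v) (fun s => f s + Λ * s ^ 2 / 2) := by
    have hD : ∀ x ∈ Ioo u v, HasDerivAt (fun s => f s + Λ * s ^ 2 / 2) (χ' x + Λ * x) x := by
      intro x hx
      have h1 := (hd x hx).sub_const (k * (2 * Real.pi))
      have h2 : HasDerivAt (fun x : ℝ => Λ * x ^ 2 / 2) (Λ * x) x := by
        have h5 : HasDerivAt (fun x : ℝ => Λ * x ^ 2 / 2)
            (Λ * (((2 : ℕ) : ℝ) * x ^ (2 - 1) * 1) / 2) x :=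
          (((hasDerivAt_id x).pow 2).const_mul Λ).div_const 2
        exact h5.congr_deriv (by norm_num; ring)
      exact h1.add h2
    apply AntitoneOn.concaveOn_of_deriv (convex_Icc u v)
    · exact hfc.add (by fun_prop)
    · rw [interior_Icc]
      exact fun x hx => (hD x hx).differentiableAt.differentiableWithinAt
    · rw [interior_Icc]
      intro x hx y hy hxy
      rw [(hD x hx).deriv, (hD y hy).deriv]
      exact hm hx hy hxy
  obtain ⟨p, hp, q, hq, hpq⟩ := mid.points f u v Λ huv' hΛ hfc hconc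
  obtain ⟨ip, lp⟩ := mid.int_log u v p huv' hp
  obtain ⟨iq, lq⟩ := mid.int_log u v q huv' hq
  set c := Real.log (51 / 100 * (Λ / 2)) with hcdef
  have hlow : ∫ s in u..v, (c + (Real.log |s - p| + Real.log |s - q|)) ≤ ∫ s in u..v, L (χ s) := by
    apply intervalIntegral.integral_mono_ae_restrict huv
      ((intervalIntegrable_const).add (ip.add iq)) hint
    rw [Filter.EventuallyLE, ae_restrict_iff' measurableSet_Icc]
    have hnull : ∀ᵐ s : ℝ, s ≠ p ∧ s ≠ q := by
      have h1 : ∀ᵐ s : ℝ, s ≠ p := by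
        simp [ae_iff]
      have h2 : ∀ᵐ s : ℝ, s ≠ q := by
        simp [ae_iff]
      filter_upwards [h1, h2] with s h1 h2 using ⟨h1, h2⟩
    filter_upwards [hnull] with s ⟨hsp, hsq'⟩ hsI
    have h1 : 0 < |s - p| := abs_pos.2 (sub_ne_zero.2 hsp)
    have h2 : 0 < |s - q| := abs_pos.2 (sub_ne_zero.2 hsq')
    have h3 : c + (Real.log |s - p| + Real.log |s - q|) =
        Real.log (51 / 100 * (Λ / 2) * (|s - p| * |s - q|)) := by
      rw [Real.log_mul (by positivity) (by positivity), Real.log_mul h1.ne' h2.ne']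
    rw [h3]
    unfold L
    apply Real.log_le_log (by positivity)
    have h4 : |2 * Real.sin (χ s / 2)| = |2 * Real.sin (f s / 2)| := by
      have e1 : f s / 2 = χ s / 2 - k * Real.pi := by simp only [hf]; ring
      rw [e1, Real.sin_sub_int_mul_pi, abs_mul, abs_mul, abs_mul]
      have : |(-1 : ℝ) ^ k| = 1 := by
        rw [abs_zpow]; simp
      rw [this, one_mul]
    rw [h4]
    have h5 := mid.sin_low (f s) (hfb s hsI)
    have h6 := hpq s hsI
    nlinarith
  refine le_trans ?_ hlow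
  rw [intervalIntegral.integral_add intervalIntegrable_const (ip.add iq),
    intervalIntegral.integral_add ip iq, intervalIntegral.integral_const, smul_eq_mul]
  -- final estimate
  set l := v - u with hl
  have hl0 : 0 < l := sub_pos.2 huv'
  have hlen : l * √Λ ≤ 3 := mid.len χ' u v Λ hΛ hm hb
  set x := l * √Λ with hx
  have hx0 : 0 < x := by positivity
  have hlx : l = x / √Λ := by rw [hx]; field_simp
  have hlog : c + 2 * Real.log (l / 2) = Real.log (57375 / 100000) + 2 * Real.log (x / 3) := by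
    have e1 : c + 2 * Real.log (l / 2) = Real.log (51 / 100 * (Λ / 2) * (l / 2) ^ 2) := by
      rw [Real.log_mul (by positivity) (by positivity), Real.log_pow, hcdef]; norm_num
    have e2 : Real.log (57375 / 100000) + 2 * Real.log (x / 3) = Real.log (57375 / 100000 * (x / 3) ^ 2) := by
      rw [Real.log_mul (by positivity) (by positivity), Real.log_pow]; norm_num
    have e3 : x ^ 2 = l ^ 2 * Λ := by rw [hx, mul_pow, sq √Λ, hsq]
    rw [e1, e2]
    congr 1
    linear_combination (-(51 / 800)) * e3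
  have hlogx : 1 - 3 / x ≤ Real.log (x / 3) := by
    have := Real.one_sub_inv_le_log_of_pos (show 0 < x / 3 by positivity)
    rwa [inv_div] at this
  have hmain : -(77 / 10) ≤ x * (Real.log (57375 / 100000) + 2 * Real.log (x / 3) - 2) := by
    have h1 := mid.log_const
    have h2 : Real.log (57375 / 100000) ≤ 0 := Real.log_nonpos (by norm_num) (by norm_num)
    have h3 : x * (1 - 3 / x) ≤ x * Real.log (x / 3) := mul_le_mul_of_nonneg_left hlogx hx0.le
    have h4 : x * (1 - 3 / x) = x - 3 := by field_simp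
    nlinarith
  have hfin : -(77 / 10) / √Λ ≤ l * (c + 2 * Real.log (l / 2) - 2) := by
    rw [hlog, hlx, div_mul_eq_mul_div]
    exact div_le_div_of_nonneg_right hmain hs.le
  nlinarith

end Pool.Agent.H589.Pent
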