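import Mathlib
import Pool.Agent.H589.Pent.Spec

/-!
# Calculus facts on `arccos (cos s + 1/2)` (task OMEGA of helper589, by helper610)
-/

set_option autoImplicit false

open Set

namespace Pool.Agent.H589.Pent

namespace Omega

theorem cos_lt {s : ℝ} (hs : s ∈ Ioo (Real.pi / 3) (5 * Real.pi / 3)) : Real.cos s < 1 / 2 := by
  have hpi := Real.pi_pos
  rcases le_total s Real.pi with h | h
  · rw [← Real.cos_pi_div_three]
    exact Real.cos_lt_cos_of_nonneg_of_le_pi (by positivity) h hs.1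
  · have h1 : Real.cos s = Real.cos (2 * Real.pi - s) := by
      rw [Real.cos_two_pi_sub]
    rw [h1, ← Real.cos_pi_div_three]
    apply Real.cos_lt_cos_of_nonneg_of_le_pi (by positivity)
    · linarith
    · linarith [hs.2]

theorem q_pos {s : ℝ} (hs : s ∈ Ioo (Real.pi / 3) (5 * Real.pi / 3)) :
    0 < 1 - (Real.cos s + 1 / 2) ^ 2 := by
  have h1 := cos_lt hs
  have h2 := Real.neg_one_le_cos s
  nlinarith

theorem hasDerivAt_om {s : ℝ} (hs : s ∈ Ioo (Real.pi / 3) (5 * Real.pi / 3)) :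
    HasDerivAt om (om' s) s := by
  have h1 := cos_lt hs
  have h2 := Real.neg_one_le_cos s
  have h3 : HasDerivAt (fun s : ℝ => Real.cos s + 1 / 2) (-Real.sin s) s :=
    (Real.hasDerivAt_cos s).add_const _
  have h4 := (Real.hasDerivAt_arccos (x := Real.cos s + 1 / 2) (by linarith) (by linarith)).comp s h3
  have h5 : om' s = -(1 / √(1 - (Real.cos s + 1 / 2) ^ 2)) * -Real.sin s := by
    rw [om']
    ring
  rw [h5]
  exact h4

theorem hasDerivAt_om' {s : ℝ} (hs : s ∈ Ioo (Real.pi / 3) (5 * Real.pi / 3)) :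
    HasDerivAt om' (-(2 * Real.cos s ^ 2 + Real.cos s + 2) /
      (4 * ((1 - (Real.cos s + 1 / 2) ^ 2) * √(1 - (Real.cos s + 1 / 2) ^ 2)))) s := by
  have hq := q_pos hs
  have h1 : HasDerivAt (fun s : ℝ => 1 - (Real.cos s + 1 / 2) ^ 2)
      (2 * (Real.cos s + 1 / 2) * Real.sin s) s := by
    have h := (((Real.hasDerivAt_cos s).add_const (1 / 2 : ℝ)).pow 2).const_sub 1
    exact h.congr_deriv (by norm_num)
  have h2 := h1.sqrt hq.ne'
  have h3 := (Real.hasDerivAt_sin s).div h2 (Real.sqrt_pos.2 hq).ne'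
  have h4 : om' = fun s => Real.sin s / √(1 - (Real.cos s + 1 / 2) ^ 2) := rfl
  rw [h4]
  refine HasDerivAt.congr_deriv (f := fun s => Real.sin s / √(1 - (Real.cos s + 1 / 2) ^ 2)) h3 ?_
  set r := √(1 - (Real.cos s + 1 / 2) ^ 2) with hr
  have hr0 : 0 < r := Real.sqrt_pos.2 hq
  have hr2 : 1 - (Real.cos s + 1 / 2) ^ 2 = r ^ 2 := (Real.sq_sqrt hq.le).symm
  rw [hr2]
  have h5 := Real.sin_sq_add_cos_sq s
  have h6 : Real.sin s ^ 2 = 1 - Real.cos s ^ 2 := by linarith
  have h7 : r ^ 2 = 1 - (Real.cos s + 1 / 2) ^ 2 := hr2.symm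
  field_simp
  rw [h6, h7]
  ring

end Omega

open Omega in
theorem omega : S_Omega := by
  refine ⟨?_, fun s hs => hasDerivAt_om hs, ?_⟩
  · exact (Real.continuous_arccos.comp (Real.continuous_cos.add continuous_const)).continuousOn
  · have hd : ∀ s ∈ Ioo (Real.pi / 3) (5 * Real.pi / 3),
        HasDerivAt (fun s => om' s + 15 / 32 * s)
          (-(2 * Real.cos s ^ 2 + Real.cos s + 2) /
          (4 * ((1 - (Real.cos s + 1 / 2) ^ 2) * √(1 - (Real.cos s + 1 / 2) ^ 2))) + 15 / 32 * 1) s :=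
      fun s hs => (hasDerivAt_om' hs).add ((hasDerivAt_id s).const_mul (15 / 32 : ℝ))
    apply antitoneOn_of_deriv_nonpos (convex_Ioo _ _)
    · exact fun s hs => (hd s hs).continuousAt.continuousWithinAt
    · rw [interior_Ioo]
      exact fun s hs => (hd s hs).differentiableAt.differentiableWithinAt
    · rw [interior_Ioo]
      intro s hs
      rw [(hd s hs).deriv]
      have hq := q_pos hs
      set q := 1 - (Real.cos s + 1 / 2) ^ 2 with hqdef
      have hq1 : q ≤ 1 := by rw [hqdef]; nlinarith [sq_nonneg (Real.cos s + 1 / 2)]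
      have hr1 : √q ≤ 1 := Real.sqrt_le_one.2 hq1 
      have hr0 : 0 < √q := Real.sqrt_pos.2 hq
      have h1 : 15 / 8 ≤ 2 * Real.cos s ^ 2 + Real.cos s + 2 := by
        nlinarith [sq_nonneg (Real.cos s + 1 / 4)]
      have h2 : 0 < 4 * (q * √q) := by positivity
      have h3 : 4 * (q * √q) ≤ 4 := by nlinarith [mul_le_mul hq1 hr1 hr0.le zero_le_one]
      have h4 : 15 / 32 ≤ (2 * Real.cos s ^ 2 + Real.cos s + 2) / (4 * (q * √q)) := by
        rw [le_div_iff₀ h2]
        nlinarith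
      rw [neg_div]
      linarith

end Pool.Agent.H589.Pent
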