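import Mathlib
import Pool.Agent.H589.Pent.Spec

set_option autoImplicit false

open MeasureTheory Set

namespace Pool.Agent.H589.Pent

theorem osc : S_Mono → S_Mid → S_Osc := by
  intro hMono hMid χ χ' u v Λ huv hΛ hcont hder hanti
  have hsq : 0 < √Λ := Real.sqrt_pos.2 hΛ
  set ρ : ℝ := 3 / 2 * √Λ with hρ
  have hρ0 : 0 < ρ := by positivity
  by_cases hint : IntervalIntegrable (fun s => L (χ s)) volume u v
  swap
  · rw [intervalIntegral.integral_undef hint]
    rw [neg_div]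
    have : 0 < (21 / 2) / √Λ := by positivity
    linarith
  -- `χ'` is antitone
  have hanti' : AntitoneOn χ' (Ioo u v) := by
    intro s hs t ht hst
    have h := hanti hs ht hst
    simp only at h
    nlinarith
  set A : Set ℝ := {s | s ∈ Ioo u v ∧ ρ ≤ χ' s} with hA
  set B : Set ℝ := {s | s ∈ Ioo u v ∧ χ' s ≤ -ρ} with hB
  set s1 : ℝ := sSup (insert u A) with hs1
  set s2 : ℝ := sInf (insert v B) with hs2
  have hAne : (insert u A).Nonempty := ⟨u, mem_insert _ _⟩
  have hBne : (insert v B).Nonempty := ⟨v, mem_insert _ _⟩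
  have hAle : ∀ a ∈ insert u A, a ≤ v := by
    intro a ha
    rcases mem_insert_iff.1 ha with rfl | ha
    · exact huv
    · exact ha.1.2.le
  have hBge : ∀ a ∈ insert v B, u ≤ a := by
    intro a ha
    rcases mem_insert_iff.1 ha with rfl | ha
    · exact huv
    · exact ha.1.1.le
  have hAb : BddAbove (insert u A) := ⟨v, fun a ha => hAle a ha⟩
  have hBb : BddBelow (insert v B) := ⟨u, fun a ha => hBge a ha⟩
  have hus1 : u ≤ s1 := le_csSup hAb (mem_insert _ _)
  have hs1v : s1 ≤ v := csSup_le hAne hAle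
  have hs2v : s2 ≤ v := csInf_le hBb (mem_insert _ _)
  have hus2 : u ≤ s2 := le_csInf hBne hBge
  have hleft : ∀ t ∈ Ioo u s1, ρ ≤ χ' t := by
    intro t ht
    obtain ⟨a, ha, hta⟩ := exists_lt_of_lt_csSup hAne ht.2
    rcases mem_insert_iff.1 ha with rfl | ha
    · exact absurd hta (not_lt.2 ht.1.le)
    · exact ha.2.trans (hanti' ⟨ht.1, hta.trans ha.1.2⟩ ha.1 hta.le)
  have hright : ∀ t ∈ Ioo s2 v, χ' t ≤ -ρ := by
    intro t ht
    obtain ⟨a, ha, hta⟩ := exists_lt_of_csInf_lt hBne ht.1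
    rcases mem_insert_iff.1 ha with rfl | ha
    · exact absurd hta (not_lt.2 ht.2.le)
    · exact (hanti' ha.1 ⟨ha.1.1.trans hta, ht.2⟩ hta.le).trans ha.2
  have hmid1 : ∀ t ∈ Ioo u v, s1 < t → χ' t ≤ ρ := by
    intro t ht hst
    by_contra hcon
    push Not at hcon
    have : t ≤ s1 := le_csSup hAb (mem_insert_of_mem _ ⟨ht, hcon.le⟩)
    linarith
  have hmid2 : ∀ t ∈ Ioo u v, t < s2 → -ρ ≤ χ' t := by
    intro t ht hst
    by_contra hcon
    push Not at hcon
    have : s2 ≤ t := csInf_le hBb (mem_insert_of_mem _ ⟨ht, hcon.le⟩)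
    linarith
  have h12 : s1 ≤ s2 := by
    by_contra hcon
    push Not at hcon
    obtain ⟨t, ht1, ht2⟩ := exists_between hcon
    have h1 := hleft t ⟨lt_of_le_of_lt hus2 ht1, ht2⟩
    have h2 := hright t ⟨ht1, lt_of_lt_of_le ht2 hs1v⟩
    linarith
  -- the three parts
  have hI : ∀ a b : ℝ, u ≤ a → a ≤ b → b ≤ v →
      IntervalIntegrable (fun s => L (χ s)) volume a b := by
    intro a b ha hab hb
    refine hint.mono_set ?_
    rw [uIcc_of_le hab, uIcc_of_le huv]
    exact Icc_subset_Icc ha hb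
  have e1 : ∫ s in u..v, L (χ s) =
      (∫ s in u..s1, L (χ s)) + (∫ s in s1..s2, L (χ s)) + ∫ s in s2..v, L (χ s) := by
    rw [intervalIntegral.integral_add_adjacent_intervals (hI u s1 le_rfl hus1 hs1v)
      (hI s1 s2 hus1 h12 hs2v),
      intervalIntegral.integral_add_adjacent_intervals (hI u s2 le_rfl hus2 hs2v)
      (hI s2 v hus2 hs2v le_rfl)]
  have hR : -(2 * Real.pi / 3) / ρ ≤ ∫ s in s2..v, L (χ s) := by
    refine hMono χ χ' s2 v ρ hs2v hρ0 (hcont.mono (Icc_subset_Icc hus2 le_rfl)) ?_ ?_ hright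
    · intro s hs
      exact hder s ⟨lt_of_le_of_lt hus2 hs.1, hs.2⟩
    · exact hanti'.mono (Ioo_subset_Ioo hus2 le_rfl)
  have hM : -(77 / 10) / √Λ ≤ ∫ s in s1..s2, L (χ s) := by
    refine hMid χ χ' s1 s2 Λ h12 hΛ (hcont.mono (Icc_subset_Icc hus1 hs2v)) ?_ ?_ ?_
    · intro s hs
      exact hder s ⟨lt_of_le_of_lt hus1 hs.1, lt_of_lt_of_le hs.2 hs2v⟩
    · exact hanti.mono (Ioo_subset_Ioo hus1 hs2v)
    · intro s hs
      have hs' : s ∈ Ioo u v := ⟨lt_of_le_of_lt hus1 hs.1, lt_of_lt_of_le hs.2 hs2v⟩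
      rw [abs_le]
      exact ⟨hmid2 s hs' hs.2, hmid1 s hs' hs.1⟩
  have hLft : -(2 * Real.pi / 3) / ρ ≤ ∫ s in u..s1, L (χ s) := by
    have h := hMono (fun s => χ (-s)) (fun s => -χ' (-s)) (-s1) (-u) ρ (by linarith) hρ0 ?_ ?_ ?_ ?_
    · have e := intervalIntegral.integral_comp_neg (a := -s1) (b := -u) (fun s => L (χ s))
      rw [neg_neg, neg_neg] at e
      rw [← e]
      exact h
    · refine hcont.comp continuous_neg.continuousOn ?_
      intro s hs
      exact ⟨by linarith [hs.2], by linarith [hs.1]⟩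
    · intro s hs
      have hs' : -s ∈ Ioo u v := ⟨by linarith [hs.2], by linarith [hs.1]⟩
      have h1 : HasDerivAt (fun s => χ (-s)) (χ' (-s) * -1) s :=
        (hder (-s) hs').comp s (hasDerivAt_neg s)
      rw [mul_neg_one] at h1
      exact h1
    · intro s hs t ht hst
      have hs' : -s ∈ Ioo u v := ⟨by linarith [hs.2], by linarith [hs.1]⟩
      have ht' : -t ∈ Ioo u v := ⟨by linarith [ht.2], by linarith [ht.1]⟩
      have := hanti' ht' hs' (neg_le_neg hst)
      simp only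
      linarith
    · intro s hs
      have h1 := hleft (-s) ⟨by linarith [hs.2], by linarith [hs.1]⟩
      show -χ' (-s) ≤ -ρ
      linarith
  have hπ := Real.pi_lt_d2
  have hfin : -(21 / 2) / √Λ ≤ -(2 * Real.pi / 3) / ρ + -(77 / 10) / √Λ + -(2 * Real.pi / 3) / ρ := by
    have e2 : -(2 * Real.pi / 3) / ρ = -(4 * Real.pi / 9) / √Λ := by
      rw [hρ]
      field_simp
      ring
    rw [e2, ← add_div, ← add_div]
    exact div_le_div_of_nonneg_right (by linarith) hsq.le
  rw [e1]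
  linarith

end Pool.Agent.H589.Pent
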