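import Mathlib
import Pool.Agent.H589.Pent.Spec

/-!
# Two product formulas for cosines (task PROD of helper589, by helper610)
-/

set_option autoImplicit false

open Finset

namespace Pool.Agent.H589.Pent

namespace Prod

/-- The points `w_j = e^{i (φ + 2 π j / b)}`. -/
noncomputable def pt (b : ℕ) (φ : ℝ) (j : ℕ) : ℂ :=
  Complex.exp (Complex.I * ((φ + 2 * Real.pi * j / b : ℝ) : ℂ))

theorem pt_eq (b : ℕ) (φ : ℝ) (j : ℕ) :
    pt b φ j = Complex.exp (2 * Real.pi * Complex.I / b) ^ j *
      Complex.exp (Complex.I * (φ : ℂ)) := by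
  rw [pt, ← Complex.exp_nat_mul, ← Complex.exp_add]
  congr 1
  push_cast
  ring

theorem prod_sub_pt (b : ℕ) (hb : 1 ≤ b) (φ : ℝ) (x : ℂ) :
    ∏ j ∈ range b, (x - pt b φ j) = x ^ b - Complex.exp (Complex.I * ((b * φ : ℝ) : ℂ)) := by
  have hprim : IsPrimitiveRoot (Complex.exp (2 * Real.pi * Complex.I / b)) b :=
    Complex.isPrimitiveRoot_exp b (by omega)
  set ζ := Complex.exp (2 * Real.pi * Complex.I / b) with hζ
  set w := Complex.exp (Complex.I * (φ : ℂ)) with hw
  have hwb : Complex.exp (Complex.I * ((b * φ : ℝ) : ℂ)) = w ^ b := by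
    rw [hw, ← Complex.exp_nat_mul]
    congr 1
    push_cast
    ring
  rw [hwb, hprim.pow_sub_pow_eq_prod_sub_mul x w (by omega)]
  refine prod_bij (fun j _ => ζ ^ j) ?_ ?_ ?_ ?_
  · intro j _
    rw [Polynomial.mem_nthRootsFinset (by omega)]
    rw [← pow_mul, mul_comm, pow_mul, hprim.pow_eq_one, one_pow]
  · intro i hi j hj h
    exact hprim.pow_inj (mem_range.1 hi) (mem_range.1 hj) h
  · intro y hy
    rw [Polynomial.mem_nthRootsFinset (by omega)] at hy
    haveI : NeZero b := ⟨by omega⟩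
    obtain ⟨i, hi, h⟩ := hprim.eq_pow_of_pow_eq_one hy
    exact ⟨i, mem_range.2 hi, h⟩
  · intro j _
    rw [pt_eq]

theorem norm_exp_sub_exp (x y : ℝ) :
    ‖Complex.exp (Complex.I * (x : ℂ)) - Complex.exp (Complex.I * (y : ℂ))‖ =
      |2 * Real.sin ((x - y) / 2)| := by
  have h : Complex.exp (Complex.I * (x : ℂ)) - Complex.exp (Complex.I * (y : ℂ)) =
      Complex.exp (Complex.I * (y : ℂ)) *
        (Complex.exp (Complex.I * ((x - y : ℝ) : ℂ)) - 1) := by
    rw [mul_sub, mul_one, ← Complex.exp_add]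
    congr 2
    push_cast
    ring
  rw [h, norm_mul, Complex.norm_exp_I_mul_ofReal_sub_one, mul_comm Complex.I (y : ℂ),
    Complex.norm_exp_ofReal_mul_I, one_mul, Real.norm_eq_abs]

theorem two_cos_sub (x y : ℝ) :
    |2 * Real.cos x - 2 * Real.cos y| =
      ‖Complex.exp (Complex.I * (x : ℂ)) - Complex.exp (Complex.I * (y : ℂ))‖ *
      ‖Complex.exp (Complex.I * ((-x : ℝ) : ℂ)) - Complex.exp (Complex.I * (y : ℂ))‖ := by
  rw [norm_exp_sub_exp, norm_exp_sub_exp, ← abs_mul]
  have h : 2 * Real.cos x - 2 * Real.cos y =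
      2 * Real.sin ((x - y) / 2) * (2 * Real.sin ((-x - y) / 2)) := by
    have h1 := Real.cos_sub_cos x y
    have h2 : Real.sin ((-x - y) / 2) = -Real.sin ((x + y) / 2) := by
      rw [← Real.sin_neg]
      congr 1
      ring
    rw [h2]
    linarith
  rw [h]

end Prod

open Prod in
theorem prodA : S_ProdA := by
  intro b φ ω hb
  have hx : ∀ x : ℝ, ∏ j ∈ range b, ‖Complex.exp (Complex.I * (x : ℂ)) - pt b φ j‖ =
      |2 * Real.sin ((b * x - b * φ) / 2)| := by
    intro x
    rw [← norm_prod, prod_sub_pt b hb]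
    have h : Complex.exp (Complex.I * (x : ℂ)) ^ b =
        Complex.exp (Complex.I * ((b * x : ℝ) : ℂ)) := by
      rw [← Complex.exp_nat_mul]
      congr 1
      push_cast
      ring
    rw [h, norm_exp_sub_exp]
  calc ∏ j ∈ range b, |2 * Real.cos ω - 2 * Real.cos (φ + 2 * Real.pi * j / b)|
      = ∏ j ∈ range b, (‖Complex.exp (Complex.I * (ω : ℂ)) - pt b φ j‖ *
          ‖Complex.exp (Complex.I * ((-ω : ℝ) : ℂ)) - pt b φ j‖) :=
        prod_congr rfl fun j _ => two_cos_sub _ _
    _ = |2 * Real.sin ((b * ω - b * φ) / 2)| * |2 * Real.sin ((b * (-ω) - b * φ) / 2)| := by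
        rw [prod_mul_distrib, hx, hx]
    _ = _ := by
        congr 1
        have h : (b * (-ω) - b * φ) / 2 = -((b * ω + b * φ) / 2) := by ring
        rw [h, Real.sin_neg, mul_neg, abs_neg]

open Prod in
theorem prodB : S_ProdB := by
  intro b φ g hb _
  have hz : ∀ (h : ℝ) (y : ℝ), 2 * Real.cosh h - 2 * Real.cos y =
      Real.exp (-h) * Complex.normSq ((Real.exp h : ℂ) - Complex.exp (Complex.I * (y : ℂ))) := by
    intro h y
    have h1 : Complex.exp (Complex.I * (y : ℂ)) = (Real.cos y : ℂ) + (Real.sin y : ℂ) * Complex.I := by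
      rw [mul_comm, Complex.exp_mul_I]
      push_cast
      ring
    rw [h1, Complex.normSq_apply]
    simp only [Complex.sub_re, Complex.add_re, Complex.ofReal_re, Complex.mul_re, Complex.I_re,
      mul_zero, Complex.ofReal_im, Complex.I_im, Complex.sub_im, Complex.add_im, Complex.mul_im]
    rw [Real.cosh_eq, Real.exp_neg]
    have h2 := Real.exp_pos h
    have h3 := Real.sin_sq_add_cos_sq y
    field_simp
    nlinarith
  calc ∏ j ∈ range b, (2 * Real.cosh g - 2 * Real.cos (φ + 2 * Real.pi * j / b))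
      = ∏ j ∈ range b, (Real.exp (-g) * Complex.normSq ((Real.exp g : ℂ) - pt b φ j)) :=
        prod_congr rfl fun j _ => hz _ _
    _ = Real.exp (-(b * g)) * Complex.normSq ((Real.exp (b * g) : ℂ) -
          Complex.exp (Complex.I * ((b * φ : ℝ) : ℂ))) := by
        rw [prod_mul_distrib, prod_const, card_range, ← map_prod, prod_sub_pt b hb,
          ← Real.exp_nat_mul]
        congr 2
        · ring_nf
        · congr 2
          rw [← Complex.ofReal_pow, ← Real.exp_nat_mul]
    _ = _ := by rw [← hz]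

end Pool.Agent.H589.Pent
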