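import Pool.Agent.H589.Pent.Lower
import Pool.Agent.H589.Pent.Osc
import Pool.Agent.H589.Pent.IntGa
import Pool.Agent.H589.Pent.Omega
import Pool.Agent.H589.Pent.CoshLe
import Pool.Agent.H589.Pent.Prod
import Pool.Agent.H589.Pent.Clausen
import Pool.Agent.H589.Pent.Mid
import Pool.Agent.H589.Pent.Bonnet

/-!
# Reciprocal pentanomials of large degree have measure at least `6/5`
-/

set_option autoImplicit false

open MeasureTheory Set Polynomial
open scoped Interval

namespace Pool.Agent.H589.Pent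

theorem lower_all (b a : ℕ) (ha : 1 ≤ a) (hab : a < b) (hco : a.Coprime b) (τ : ℝ) (k : ℤ)
    (hτ : b * τ = k * Real.pi) :
    2 * (b * √(9 / 10) * Real.pi ^ 2 / 12 - Real.pi ^ 2 / (3 * √(9 / 10) * b)) -
      21 / √(15 / 32 * b) ≤ b * ∫ θ in (0 : ℝ)..(2 * Real.pi), ff b a τ θ :=
  pent_lower (osc (mono clausen) mid) omega cosh_le int_ga prodA prodB b a ha hab hco τ k hτ

/-- The reciprocal pentanomial. -/
noncomputable def pent (b a : ℕ) (p q : ℤ) : ℤ[X] :=
  X ^ (2 * b) + C p * X ^ (b + a) + C q * X ^ b + C p * X ^ (b - a) + 1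

lemma norm_eval_pent (b a : ℕ) (hab : a ≤ b) (p q : ℤ) (θ : ℝ) :
    ‖((pent b a p q).map (Int.castRingHom ℂ)).eval (circleMap 0 1 θ)‖ =
      |2 * Real.cos (b * θ) + q + 2 * p * Real.cos (a * θ)| := by
  set z : ℂ := circleMap 0 1 θ with hz
  have hz1 : z = Complex.exp (θ * Complex.I) := by simp [hz, circleMap]
  have hz0 : z ≠ 0 := by rw [hz1]; exact Complex.exp_ne_zero _
  have hn : ‖z‖ = 1 := by rw [hz1]; exact Complex.norm_exp_ofReal_mul_I θ
  have hpow : ∀ n : ℕ, z ^ n + (z ^ n)⁻¹ = ((2 * Real.cos (n * θ) : ℝ) : ℂ) := by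
    intro n
    rw [hz1, ← Complex.exp_nat_mul, ← Complex.exp_neg]
    push_cast
    rw [Complex.cos]
    ring_nf
  have hfac : ((pent b a p q).map (Int.castRingHom ℂ)).eval z =
      z ^ b * ((z ^ b + (z ^ b)⁻¹) + q + p * (z ^ a + (z ^ a)⁻¹)) := by
    unfold pent
    simp only [Polynomial.map_add, Polynomial.map_mul, Polynomial.map_pow, map_X, map_C,
      Polynomial.map_one, eval_add, eval_mul, eval_pow, eval_X, eval_C, eval_one]
    have h1 : z ^ b * (z ^ b)⁻¹ = 1 := mul_inv_cancel₀ (pow_ne_zero _ hz0)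
    have h2 : z ^ b * (z ^ a)⁻¹ = z ^ (b - a) := by
      rw [pow_sub₀ z hz0 hab]
    have h3 : z ^ (2 * b) = z ^ b * z ^ b := by rw [two_mul, pow_add]
    have h4 : z ^ (b + a) = z ^ b * z ^ a := pow_add _ _ _
    rw [h3, h4, ← h2]
    simp only [eq_intCast]
    linear_combination (-1 : ℂ) * h1
  rw [hfac, norm_mul, norm_pow, hn, one_pow, one_mul, hpow, hpow]
  have : (((2 * Real.cos (b * θ) : ℝ) : ℂ) + q + p * ((2 * Real.cos (a * θ) : ℝ) : ℂ)) =
      ((2 * Real.cos (b * θ) + q + 2 * p * Real.cos (a * θ) : ℝ) : ℂ) := by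
    push_cast; ring
  rw [this, Complex.norm_real, Real.norm_eq_abs]

lemma logM_pent (b a : ℕ) (hb : 1 ≤ b) (hab : a ≤ b) (p q : ℤ) (hp : p = 1 ∨ p = -1)
    (hq : q = 1 ∨ q = -1) : ∃ (τ : ℝ) (k : ℤ), b * τ = k * Real.pi ∧
      2 * Real.pi * ((pent b a p q).map (Int.castRingHom ℂ)).logMahlerMeasure =
        ∫ θ in (0 : ℝ)..(2 * Real.pi), ff b a τ θ := by
  have hpi := Real.pi_pos
  have hb0 : (b : ℝ) ≠ 0 := by positivity
  have h0 : 2 * Real.pi * ((pent b a p q).map (Int.castRingHom ℂ)).logMahlerMeasure =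
      ∫ θ in (0 : ℝ)..(2 * Real.pi),
        Real.log |2 * Real.cos (b * θ) + q + 2 * p * Real.cos (a * θ)| := by
    rw [logMahlerMeasure_def, Real.circleAverage_def, smul_eq_mul, ← mul_assoc,
      mul_inv_cancel₀ (by positivity), one_mul]
    apply intervalIntegral.integral_congr
    intro θ _
    simp only
    rw [norm_eval_pent b a hab]
  have hshift : ∀ τ : ℝ, ∫ θ in (0 : ℝ)..(2 * Real.pi), ff b a τ (θ - Real.pi / b) =
      ∫ θ in (0 : ℝ)..(2 * Real.pi), ff b a τ θ := by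
    intro τ
    rw [intervalIntegral.integral_comp_sub_right (fun θ => ff b a τ θ)]
    have := (ff_periodic b a τ).intervalIntegral_add_eq (0 - Real.pi / b) 0
    rw [zero_add] at this
    rw [← this]
    congr 1
    ring
  have hcosb : ∀ θ : ℝ, Real.cos (b * (θ - Real.pi / b)) = -Real.cos (b * θ) := by
    intro θ
    rw [show (b : ℝ) * (θ - Real.pi / b) = b * θ - Real.pi by field_simp, Real.cos_sub_pi]
  rcases hp with rfl | rfl <;> rcases hq with rfl | rfl
  · refine ⟨Real.pi, b, by push_cast; ring, ?_⟩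
    rw [h0]
    apply intervalIntegral.integral_congr
    intro θ _
    simp only [ff]
    rw [Real.cos_add_pi]; push_cast; congr 2; ring
  · refine ⟨a * Real.pi / b, a, by push_cast; field_simp, ?_⟩
    rw [h0, ← hshift]
    apply intervalIntegral.integral_congr
    intro θ _
    simp only [ff]
    rw [hcosb, show (a : ℝ) * (θ - Real.pi / b) + a * Real.pi / b = a * θ by field_simp; ring,
      ← abs_neg]
    push_cast; congr 2; ring
  · refine ⟨0, 0, by simp, ?_⟩
    rw [h0]
    apply intervalIntegral.integral_congr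
    intro θ _
    simp only [ff]
    rw [add_zero]; push_cast; congr 2; ring
  · refine ⟨a * Real.pi / b + Real.pi, a + b, by push_cast; field_simp, ?_⟩
    rw [h0, ← hshift]
    apply intervalIntegral.integral_congr
    intro θ _
    simp only [ff]
    rw [hcosb, show (a : ℝ) * (θ - Real.pi / b) + (a * Real.pi / b + Real.pi) =
      a * θ + Real.pi by field_simp; ring, Real.cos_add_pi, ← abs_neg]
    push_cast; congr 2; ring

lemma log_six_fifths : Real.log (6 / 5) ≤ 1825 / 10000 := by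
  have h1 : Real.log ((6 / 5) ^ 4) ≤ Real.log 2 + Real.log (10368 / 10000) := by
    rw [← Real.log_mul (by norm_num) (by norm_num)]
    apply Real.log_le_log (by norm_num)
    norm_num
  rw [Real.log_pow] at h1
  have h2 := Real.log_two_lt_d9
  have h3 : Real.log (10368 / 10000) ≤ 368 / 10000 := by
    have := Real.log_le_sub_one_of_pos (show (0 : ℝ) < 10368 / 10000 by norm_num)
    linarith
  push_cast at h1
  linarith

theorem pent_big (b a : ℕ) (ha : 1 ≤ a) (hab : a < b) (hco : a.Coprime b) (hb : 19 ≤ b)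
    (p q : ℤ) (hp : p = 1 ∨ p = -1) (hq : q = 1 ∨ q = -1) :
    6 / 5 ≤ ((pent b a p q).map (Int.castRingHom ℂ)).mahlerMeasure := by
  obtain ⟨τ, k, hτ, hm⟩ := logM_pent b a (by omega) hab.le p q hp hq
  have h1 := lower_all b a ha hab hco τ k hτ
  rw [← hm] at h1
  set m := ((pent b a p q).map (Int.castRingHom ℂ)).logMahlerMeasure with hmdef
  have hb' : (19 : ℝ) ≤ b := by exact_mod_cast hb
  have hb0 : (0 : ℝ) < b := by linarith
  have hpi1 := Real.pi_gt_d4
  have hpi2 := Real.pi_lt_d4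
  have hpi := Real.pi_pos
  have hs1 : (9486 / 10000 : ℝ) ≤ √(9 / 10) := by
    apply Real.le_sqrt_of_sq_le; norm_num
  have hs0 : 0 < √(9 / 10 : ℝ) := by positivity
  have hs2 : (2984 / 1000 : ℝ) ≤ √(15 / 32 * b) := by
    apply Real.le_sqrt_of_sq_le
    nlinarith
  have e1 : m = (2 * Real.pi * m * b) / (2 * Real.pi * b) := by field_simp
  have hkey : 1825 / 10000 ≤ m := by
    have h2 : Real.pi ^ 2 / (3 * √(9 / 10) * b) ≤ Real.pi ^ 2 / (3 * (9486 / 10000) * 19) := by
      gcongr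
    have h3 : 21 / √(15 / 32 * b) ≤ 21 / (2984 / 1000) := by gcongr
    have h4 : b * (9486 / 10000) * Real.pi ^ 2 / 12 ≤ b * √(9 / 10) * Real.pi ^ 2 / 12 := by
      gcongr
    -- b * (2π m) ≥ 2 (b c π²/12 - ...) - ...
    have h5 : 2 * (b * (9486 / 10000) * Real.pi ^ 2 / 12 - Real.pi ^ 2 / (3 * (9486 / 10000) * 19)) -
        21 / (2984 / 1000) ≤ b * (2 * Real.pi * m) := by linarith
    by_contra hcon
    push Not at hcon
    have h6 : b * (2 * Real.pi * m) ≤ b * (2 * Real.pi * (1825 / 10000)) := by gcongr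
    have h7 : 2 * (b * (9486 / 10000) * Real.pi ^ 2 / 12 - Real.pi ^ 2 / (3 * (9486 / 10000) * 19)) -
        21 / (2984 / 1000) ≤ b * (2 * Real.pi * (1825 / 10000)) := h5.trans h6
    have h8 : 0 ≤ 2 * (9486 / 10000) * Real.pi ^ 2 / 12 - 2 * Real.pi * (1825 / 10000) := by
      nlinarith
    have h9 : 19 * (2 * (9486 / 10000) * Real.pi ^ 2 / 12 - 2 * Real.pi * (1825 / 10000)) ≤
        b * (2 * (9486 / 10000) * Real.pi ^ 2 / 12 - 2 * Real.pi * (1825 / 10000)) := by
      gcongr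
    have h10 : Real.pi ^ 2 ≤ 3.1416 ^ 2 := by gcongr
    have h11 : 3.1415 ^ 2 ≤ Real.pi ^ 2 := by gcongr
    norm_num at h7 h9 h10 h11
    nlinarith
  have hne : (pent b a p q).map (Int.castRingHom ℂ) ≠ 0 := by
    intro h
    rw [hmdef, h, logMahlerMeasure_zero] at hkey
    norm_num at hkey
  rw [mahlerMeasure_def_of_ne_zero hne]
  have h12 : Real.log (6 / 5) ≤ m := log_six_fifths.trans hkey
  calc (6 / 5 : ℝ) = Real.exp (Real.log (6 / 5)) := (Real.exp_log (by norm_num)).symm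
    _ ≤ _ := Real.exp_le_exp.mpr h12

end Pool.Agent.H589.Pent
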