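import Pool.Agent.H589.Pent.Graeffe

/-!
# Certificates for the reciprocal pentanomials of degree at most 36
-/

set_option autoImplicit false

namespace Pool.Agent.H589.Pent

/-- the coefficients of `X^(2b) + p X^(b+a) + q X^b + p X^(b-a) + 1` -/
def pentL (b a : ℕ) (p q : ℤ) : List ℤ :=
  (1 :: List.replicate (b - a - 1) 0) ++ (p :: List.replicate (a - 1) 0) ++
  (q :: List.replicate (a - 1) 0) ++ (p :: List.replicate (b - a - 1) 0) ++ [1]

/-- check of a table entry -/
def chk (t : ℕ × ℕ × ℤ × ℤ × ℕ × ℕ) : Bool :=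
  cert t.2.2.2.2.1 t.2.2.2.2.2 (pentL t.1 t.2.1 t.2.2.1 t.2.2.2.1)

end Pool.Agent.H589.Pent
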