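import Pool.Agent.H589.Pent.Scale

/-!
# Graeffe iteration with lists of integers
-/

set_option autoImplicit false

open Polynomial

namespace Pool.Agent.H589.Pent

/-- the polynomial with the given list of coefficients (low degree first) -/
noncomputable def toP : List ℤ → ℤ[X]
  | [] => 0
  | a :: l => C a + X * toP l

/-- sum -/
def addL : List ℤ → List ℤ → List ℤ
  | [], m => m
  | l, [] => l
  | a :: l, b :: m => (a + b) :: addL l m

/-- product by a constant -/
def smulL (c : ℤ) : List ℤ → List ℤ
  | [] => []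
  | a :: l => (c * a) :: smulL c l

/-- product -/
def mulL : List ℤ → List ℤ → List ℤ
  | [], _ => []
  | a :: l, m => addL (smulL a m) (0 :: mulL l m)

/-- square -/
def sqL : List ℤ → List ℤ
  | [] => []
  | [a] => [a * a]
  | a :: b :: l => (a * a) :: addL (smulL (2 * a) (b :: l)) (0 :: sqL (b :: l))

/-- even part and odd part -/
def split : List ℤ → List ℤ × List ℤ
  | [] => ([], [])
  | a :: l => let s := split l; (a :: s.2, s.1)

/-- a Graeffe step -/
def gr (l : List ℤ) : List ℤ :=
  let s := split l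
  addL (sqL s.1) (0 :: smulL (-1) (sqL s.2))

/-- iterated Graeffe steps -/
def grN : ℕ → List ℤ → List ℤ
  | 0, l => l
  | n + 1, l => grN n (gr l)

lemma toP_add (l m : List ℤ) : toP (addL l m) = toP l + toP m := by
  induction l generalizing m with
  | nil => simp [addL, toP]
  | cons a l ih =>
    cases m with
    | nil => simp [addL, toP]
    | cons b m =>
      simp only [addL, toP, ih, C_add]
      ring

lemma toP_smul (c : ℤ) (l : List ℤ) : toP (smulL c l) = C c * toP l := by
  induction l with
  | nil => simp [smulL, toP]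
  | cons a l ih =>
    simp only [smulL, toP, ih, C_mul]
    ring

lemma toP_mul (l m : List ℤ) : toP (mulL l m) = toP l * toP m := by
  induction l with
  | nil => simp [mulL, toP]
  | cons a l ih =>
    simp only [mulL, toP, toP_add, toP_smul, ih, C_0]
    ring

lemma toP_sq (l : List ℤ) : toP (sqL l) = toP l * toP l := by
  induction l with
  | nil => simp [sqL, toP]
  | cons a l ih =>
    cases l with
    | nil => simp [sqL, toP]
    | cons b l =>
      have e : ∀ (c : ℤ) (m : List ℤ), toP (c :: m) = C c + X * toP m := fun _ _ => rfl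
      rw [sqL, e (a * a), toP_add, toP_smul, e 0, ih, e a, C_mul, C_mul, C_0]
      rw [show (C (2 : ℤ) : ℤ[X]) = 2 by rfl]
      ring

lemma toP_split (l : List ℤ) :
    toP l = (toP (split l).1).comp (X ^ 2) + X * (toP (split l).2).comp (X ^ 2) := by
  induction l with
  | nil => simp [split, toP]
  | cons a l ih =>
    simp only [split, toP, add_comp, mul_comp, C_comp, X_comp]
    rw [ih]
    ring

lemma toP_gr (l : List ℤ) : (toP (gr l)).comp (X ^ 2) = toP l * (toP l).comp (-X) := by
  set e := (toP (split l).1).comp (X ^ 2) with he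
  set o := (toP (split l).2).comp (X ^ 2) with ho
  have h1 : toP l = e + X * o := toP_split l
  have h2 : (toP l).comp (-X) = e - X * o := by
    rw [h1, add_comp, mul_comp, X_comp, he, ho, comp_assoc, comp_assoc]
    have : (X ^ 2 : ℤ[X]).comp (-X) = X ^ 2 := by simp
    rw [this]; ring
  rw [h2, h1]
  unfold gr
  simp only [toP_add, toP, toP_smul, toP_sq, add_comp, mul_comp, X_comp, C_comp, C_0]
  rw [← he, ← ho]
  simp
  ring

/-- the Mahler measure of an integer polynomial -/
noncomputable def MM (f : ℤ[X]) : ℝ := (f.map (Int.castRingHom ℂ)).mahlerMeasure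

lemma MM_mul (f g : ℤ[X]) : MM (f * g) = MM f * MM g := by
  unfold MM; rw [Polynomial.map_mul, mahlerMeasure_mul]

lemma MM_comp_pow (f : ℤ[X]) (g : ℕ) (hg : 1 ≤ g) : MM (f.comp (X ^ g)) = MM f := by
  unfold MM
  rw [Polynomial.map_comp, Polynomial.map_pow, map_X, mm_comp_pow _ g hg]

lemma MM_comp_neg (f : ℤ[X]) : MM (f.comp (-X)) = MM f := by
  unfold MM
  rw [Polynomial.map_comp, Polynomial.map_neg, map_X, mm_comp_neg]

lemma MM_nonneg (f : ℤ[X]) : 0 ≤ MM f := mahlerMeasure_nonneg _

lemma MM_gr (l : List ℤ) : MM (toP (gr l)) = MM (toP l) ^ 2 := by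
  rw [← MM_comp_pow _ 2 (by norm_num), toP_gr, MM_mul, MM_comp_neg, sq]

lemma MM_grN (n : ℕ) (l : List ℤ) : MM (toP (grN n l)) = MM (toP l) ^ (2 ^ n) := by
  induction n generalizing l with
  | zero => simp [grN]
  | succ n ih =>
    simp only [grN]
    rw [ih, MM_gr, ← pow_mul, pow_succ']

lemma natDegree_toP (l : List ℤ) : (toP l).natDegree ≤ l.length - 1 := by
  induction l with
  | nil => simp [toP]
  | cons a l ih =>
    simp only [toP, List.length_cons, Nat.add_sub_cancel]
    refine (natDegree_add_le _ _).trans ?_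
    rw [natDegree_C]
    apply max_le (Nat.zero_le _)
    by_cases h : l = []
    · subst h; simp [toP]
    · refine natDegree_mul_le.trans ?_
      rw [natDegree_X]
      have : 0 < l.length := List.length_pos_of_ne_nil h
      omega

lemma coeff_toP (l : List ℤ) (k : ℕ) : (toP l).coeff k = l.getD k 0 := by
  induction l generalizing k with
  | nil => simp [toP]
  | cons a l ih =>
    cases k with
    | zero => simp [toP]
    | succ k =>
      rw [toP, coeff_add, coeff_C_succ, coeff_X_mul, zero_add, ih]
      rfl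

/-- The certificate: after `n` steps the `k`-th coefficient is large. -/
def cert (n k : ℕ) (l : List ℤ) : Bool :=
  let m := grN n l
  decide (k < m.length ∧
    ((m.length - 1).choose k) * 6 ^ (2 ^ n) ≤ (m.getD k 0).natAbs * 5 ^ (2 ^ n))

lemma cert_sound (n k : ℕ) (l : List ℤ) (h : cert n k l = true) : 6 / 5 ≤ MM (toP l) := by
  unfold cert at h
  simp only [decide_eq_true_eq] at h
  set m := grN n l with hm
  set P := (toP m).map (Int.castRingHom ℂ) with hP
  obtain ⟨hk0, h⟩ := h
  have hk : k ≤ m.length - 1 := by omega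
  · have h1 : ‖P.coeff k‖ ≤ (m.length - 1).choose k * P.mahlerMeasure := by
      have h2 := norm_coeff_le_choose_mul_mahlerMeasure k P
      refine h2.trans ?_
      apply mul_le_mul_of_nonneg_right _ (mahlerMeasure_nonneg _)
      have h3 : P.natDegree ≤ m.length - 1 := (natDegree_map_le).trans (natDegree_toP m)
      exact_mod_cast Nat.choose_le_choose k h3
    have h4 : P.mahlerMeasure = MM (toP l) ^ (2 ^ n) := MM_grN n l
    rw [h4, hP, coeff_map, coeff_toP, eq_intCast, Complex.norm_intCast] at h1
    have h5 : |((m.getD k 0 : ℤ) : ℝ)| = ((m.getD k 0).natAbs : ℝ) := by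
      rw [Nat.cast_natAbs, Int.cast_abs]
    rw [h5] at h1
    have h6 : (((m.length - 1).choose k : ℕ) : ℝ) * 6 ^ (2 ^ n) ≤
        ((m.getD k 0).natAbs : ℝ) * 5 ^ (2 ^ n) := by exact_mod_cast h
    have hch : (0 : ℝ) < ((m.length - 1).choose k : ℕ) := by
      exact_mod_cast Nat.choose_pos hk
    have h7 : (((m.length - 1).choose k : ℕ) : ℝ) * 6 ^ (2 ^ n) ≤
        (((m.length - 1).choose k : ℕ) : ℝ) * (MM (toP l) ^ (2 ^ n) * 5 ^ (2 ^ n)) := by
      calc _ ≤ ((m.getD k 0).natAbs : ℝ) * 5 ^ (2 ^ n) := h6
        _ ≤ ((((m.length - 1).choose k : ℕ) : ℝ) * MM (toP l) ^ (2 ^ n)) * 5 ^ (2 ^ n) :=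
            mul_le_mul_of_nonneg_right h1 (by positivity)
        _ = _ := by ring
    have h8 : (6 : ℝ) ^ (2 ^ n) ≤ MM (toP l) ^ (2 ^ n) * 5 ^ (2 ^ n) :=
      le_of_mul_le_mul_left h7 hch
    rw [← mul_pow] at h8
    have h9 := le_of_pow_le_pow_left₀ (by positivity) (by
      have := MM_nonneg (toP l); positivity) h8
    linarith

end Pool.Agent.H589.Pent
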