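import Pool.Agent.H589.Pent.Avg

/-!
# The lower bound for the reciprocal pentanomials of large degree
-/

set_option autoImplicit false

open MeasureTheory Set
open scoped Interval

namespace Pool.Agent.H589.Pent

/-- `|F|` on the circle (up to a rotation) -/
noncomputable def ff (b a : ℕ) (τ θ : ℝ) : ℝ :=
  Real.log |2 * Real.cos (b * θ) + 1 - 2 * Real.cos (a * θ + τ)|

lemma ff_periodic (b a : ℕ) (τ : ℝ) : Function.Periodic (ff b a τ) (2 * Real.pi) := by
  intro θ
  unfold ff
  have h1 : Real.cos (b * (θ + 2 * Real.pi)) = Real.cos (b * θ) := by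
    rw [mul_add, Real.cos_add_nat_mul_two_pi]
  have h2 : Real.cos (a * (θ + 2 * Real.pi) + τ) = Real.cos (a * θ + τ) := by
    rw [show (a : ℝ) * (θ + 2 * Real.pi) + τ = (a * θ + τ) + a * (2 * Real.pi) by ring,
      Real.cos_add_nat_mul_two_pi]
  rw [h1, h2]

lemma ff_int (b a : ℕ) (τ u v : ℝ) : IntervalIntegrable (ff b a τ) volume u v := by
  have h : MeromorphicOn (fun θ : ℝ => 2 * Real.cos (b * θ) + 1 - 2 * Real.cos (a * θ + τ))
      (uIcc u v) := by
    intro x _
    have : AnalyticAt ℝ (fun θ : ℝ => 2 * Real.cos (b * θ) + 1 - 2 * Real.cos (a * θ + τ)) x := by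
      fun_prop
    exact this.meromorphicAt
  exact h.intervalIntegrable_log_norm

/-- the averaged function -/
noncomputable def Hf (b a : ℕ) (τ s : ℝ) : ℝ :=
  ∑ j ∈ Finset.range b,
    Real.log |2 * Real.cos s + 1 - 2 * Real.cos ((a * s / b + τ) + 2 * Real.pi * j / b)|

lemma Hf_eq (b a : ℕ) (hb : 1 ≤ b) (hab : a.Coprime b) (τ s : ℝ) :
    ∑ j ∈ Finset.range b, ff b a τ ((s + 2 * Real.pi * j) / b) = Hf b a τ s := by
  have hb0 : (b : ℝ) ≠ 0 := by positivity
  unfold Hf
  rw [← sum_coprime a b hab hb (fun c => Real.log |2 * Real.cos s + 1 - 2 * c|) (a * s / b + τ)]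
  apply Finset.sum_congr rfl
  intro j _
  unfold ff
  have h1 : Real.cos (b * ((s + 2 * Real.pi * j) / b)) = Real.cos s := by
    rw [show (b : ℝ) * ((s + 2 * Real.pi * j) / b) = s + j * (2 * Real.pi) by field_simp,
      Real.cos_add_nat_mul_two_pi]
  have h2 : (a : ℝ) * ((s + 2 * Real.pi * j) / b) + τ =
      (a * s / b + τ) + 2 * Real.pi * (a * j : ℕ) / b := by
    push_cast; field_simp; ring
  rw [h1, h2]

lemma Hf_int (b a : ℕ) (hb : 1 ≤ b) (hab : a.Coprime b) (τ u v : ℝ) :
    IntervalIntegrable (Hf b a τ) volume u v := by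
  have hb0 : (b : ℝ) ≠ 0 := by positivity
  have h1 : Hf b a τ = fun s => ∑ j ∈ Finset.range b, ff b a τ ((s + 2 * Real.pi * j) / b) := by
    ext s; rw [Hf_eq b a hb hab]
  rw [h1]
  have h0 : (fun s => ∑ j ∈ Finset.range b, ff b a τ ((s + 2 * Real.pi * j) / b)) =
      ∑ j ∈ Finset.range b, fun s => ff b a τ ((s + 2 * Real.pi * j) / b) := by
    ext s; simp
  rw [h0]
  apply IntervalIntegrable.sum
  intro j _
  have h1 := (ff_int b a τ ((u + 2 * Real.pi * j) / b) ((v + 2 * Real.pi * j) / b)).comp_mul_left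
    (c := (b : ℝ)⁻¹)
  have h2 := h1.comp_add_right (2 * Real.pi * j)
  have e1 : (u + 2 * Real.pi * j) / b / (b : ℝ)⁻¹ - 2 * Real.pi * j = u := by
    field_simp; ring
  have e2 : (v + 2 * Real.pi * j) / b / (b : ℝ)⁻¹ - 2 * Real.pi * j = v := by
    field_simp; ring
  rw [e1, e2] at h2
  refine h2.congr ?_
  intro x _
  simp only
  rw [div_eq_inv_mul]

/-- a factor is almost nowhere zero -/
lemma ae_factor (b a : ℕ) (hb : 1 ≤ b) (ha : 1 ≤ a) (c : ℝ) :
    ∀ᵐ s : ℝ, 2 * Real.cos s + 1 - 2 * Real.cos (a * s / b + c) ≠ 0 := by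
  have hb0 : (0 : ℝ) < b := by positivity
  have ha0 : (0 : ℝ) < a := by positivity
  set g : ℝ → ℝ := fun s => 2 * Real.cos s + 1 - 2 * Real.cos (a * s / b + c) with hg
  have hex : ∃ x, g x ≠ 0 := by
    by_contra h
    push Not at h
    have h1 : ∫ s in (0 : ℝ)..(b * (2 * Real.pi)), g s = 0 := by
      simp [h]
    have h2 : ∫ s in (0 : ℝ)..(b * (2 * Real.pi)), g s = b * (2 * Real.pi) := by
      have i1 : IntervalIntegrable (fun s => 2 * Real.cos s) volume 0 (b * (2 * Real.pi)) := by
        apply Continuous.intervalIntegrable; fun_prop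
      have i2 : IntervalIntegrable (fun s => 2 * Real.cos s + 1) volume 0 (b * (2 * Real.pi)) := by
        apply Continuous.intervalIntegrable; fun_prop
      have i3 : IntervalIntegrable (fun s => 2 * Real.cos (a * s / b + c)) volume 0
          (b * (2 * Real.pi)) := by
        apply Continuous.intervalIntegrable; fun_prop
      rw [hg, intervalIntegral.integral_sub i2 i3, intervalIntegral.integral_add i1 (by simp)]
      rw [intervalIntegral.integral_const_mul, intervalIntegral.integral_const_mul, integral_cos]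
      have e1 : ∫ s in (0 : ℝ)..(b * (2 * Real.pi)), Real.cos (a * s / b + c) = 0 := by
        have e2 : ∀ s : ℝ, Real.cos (a * s / b + c) = Real.cos ((a / b : ℝ) * s + c) := by
          intro s; congr 1; ring
        simp_rw [e2]
        rw [intervalIntegral.integral_comp_mul_add (fun x => Real.cos x)
          (div_pos ha0 hb0).ne' c, integral_cos]
        have e3 : (a / b : ℝ) * (b * (2 * Real.pi)) + c = c + a * (2 * Real.pi) := by
          field_simp; ring
        rw [e3, Real.sin_add_nat_mul_two_pi]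
        simp
      rw [e1]
      have e4 : Real.sin (b * (2 * Real.pi)) = 0 := by
        have := Real.sin_add_nat_mul_two_pi 0 b
        simpa using this
      rw [e4]
      simp
    rw [h1] at h2
    have := Real.pi_pos
    have : 0 < (b : ℝ) * (2 * Real.pi) := by positivity
    linarith
  obtain ⟨x, hx⟩ := hex
  have han : AnalyticOnNhd ℝ g univ := by
    intro y _
    rw [hg]
    fun_prop
  have hcod := han.preimage_zero_mem_codiscrete hx
  have h1 := ae_restrict_le_codiscreteWithin (μ := (volume : Measure ℝ)) MeasurableSet.univ hcod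
  rw [Measure.restrict_univ] at h1
  filter_upwards [h1] with s hs
  simpa using hs

lemma ae_ne (b a : ℕ) (hb : 1 ≤ b) (ha : 1 ≤ a) (τ : ℝ) :
    ∀ᵐ s : ℝ, ∀ j ∈ Finset.range b,
      2 * Real.cos s + 1 - 2 * Real.cos ((a * s / b + τ) + 2 * Real.pi * j / b) ≠ 0 := by
  rw [Filter.eventually_all_finset]
  intro j _
  filter_upwards [ae_factor b a hb ha (τ + 2 * Real.pi * j / b)] with s hs
  rwa [add_assoc]

/-- `L` is periodic. -/
lemma L_periodic (x : ℝ) (k : ℤ) : L (x + k * (2 * Real.pi)) = L x := by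
  unfold L
  have : (x + k * (2 * Real.pi)) / 2 = x / 2 + k * Real.pi := by ring
  rw [this]
  rcases Int.even_or_odd k with ⟨m, hm⟩ | ⟨m, hm⟩
  · have : x / 2 + k * Real.pi = x / 2 + m * (2 * Real.pi) := by
      rw [hm]; push_cast; ring
    rw [this, Real.sin_add_int_mul_two_pi]
  · have : x / 2 + k * Real.pi = (x / 2 + Real.pi) + m * (2 * Real.pi) := by
      rw [hm]; push_cast; ring
    rw [this, Real.sin_add_int_mul_two_pi, Real.sin_add_pi]
    rw [mul_neg, abs_neg]

lemma L_neg (x : ℝ) : L (-x) = L x := by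
  unfold L
  rw [neg_div, Real.sin_neg, mul_neg, abs_neg]

/-- region 2: the pointwise formula. -/
lemma Hf_region2 (hA : S_ProdA) (b a : ℕ) (hb : 1 ≤ b) (τ : ℝ) (k : ℤ) (hτ : b * τ = k * Real.pi)
    (s : ℝ) (hs : |Real.cos s + 1 / 2| ≤ 1)
    (hne : ∀ j ∈ Finset.range b,
      2 * Real.cos s + 1 - 2 * Real.cos ((a * s / b + τ) + 2 * Real.pi * j / b) ≠ 0) :
    Hf b a τ s = L (b * om s - a * s - b * τ) + L (b * om s + a * s - b * τ) := by
  have hb0 : (b : ℝ) ≠ 0 := by positivity
  have hcos : 2 * Real.cos (om s) = 2 * Real.cos s + 1 := by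
    unfold om
    rw [Real.cos_arccos (by linarith [(abs_le.mp hs).1]) (by linarith [(abs_le.mp hs).2])]
    ring
  unfold Hf
  rw [← Real.log_prod]
  · have h1 := hA b (a * s / b + τ) (om s) hb
    rw [hcos] at h1
    have h2 : ∏ j ∈ Finset.range b,
        |2 * Real.cos s + 1 - 2 * Real.cos ((a * s / b + τ) + 2 * Real.pi * j / b)| ≠ 0 := by
      rw [Finset.prod_ne_zero_iff]
      intro j hj
      exact abs_ne_zero.mpr (hne j hj)
    rw [h1] at h2 ⊢
    rw [Real.log_mul (left_ne_zero_of_mul h2) (right_ne_zero_of_mul h2)]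
    have e1 : (b : ℝ) * (a * s / b + τ) = a * s + b * τ := by field_simp
    rw [e1]
    have e2 : L (b * om s + a * s - b * τ) = L (b * om s + (a * s + b * τ)) := by
      have : (b : ℝ) * om s + (a * s + b * τ) = (b * om s + a * s - b * τ) + k * (2 * Real.pi) := by
        linarith
      rw [this, L_periodic]
    rw [e2]
    unfold L
    congr 4
    ring
  · intro j hj
    exact abs_ne_zero.mpr (hne j hj)

/-- region 1: the pointwise bound. -/
lemma Hf_region1 (hB : S_ProdB) (hC : S_Cosh) (b a : ℕ) (hb : 1 ≤ b) (τ : ℝ)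
    (s : ℝ) (hs : |s| < Real.pi / 3) :
    b * ga s + 2 * Real.log (1 - Real.exp (-(b * ga s))) ≤ Hf b a τ s := by
  have hb0 : (0 : ℝ) < b := by positivity
  have hc := hC s hs.le
  have hga0 : 0 < ga s := by
    unfold ga
    apply Real.sqrt_pos.mpr
    have hpi := Real.pi_pos
    have h1 : |3 * s / Real.pi| < 1 := by
      rw [abs_div, abs_mul, abs_of_pos hpi, div_lt_one hpi]
      norm_num
      linarith
    have h2 : (3 * s / Real.pi) ^ 2 < 1 := by
      rw [← sq_abs]
      have := abs_nonneg (3 * s / Real.pi)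
      nlinarith
    linarith
  have hx1 : 1 ≤ Real.cos s + 1 / 2 := by
    have := Real.one_le_cosh (ga s)
    linarith
  set g := Real.arcosh (Real.cos s + 1 / 2) with hg
  have hgc : Real.cosh g = Real.cos s + 1 / 2 := Real.cosh_arcosh hx1
  have hg0 : 0 ≤ g := Real.arcosh_nonneg hx1
  have hgg : ga s ≤ g := by
    have h1 : Real.cosh (ga s) ≤ Real.cosh g := by rw [hgc]; linarith
    rw [Real.cosh_le_cosh, abs_of_pos hga0, abs_of_nonneg hg0] at h1
    exact h1
  have hgpos : 0 < g := by linarith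
  have hcosh1 : 1 < Real.cosh g := by
    rw [Real.one_lt_cosh]; exact hgpos.ne'
  have hfac : ∀ j ∈ Finset.range b,
      0 < 2 * Real.cosh g - 2 * Real.cos ((a * s / b + τ) + 2 * Real.pi * j / b) := by
    intro j _
    have := Real.cos_le_one ((a * s / b + τ) + 2 * Real.pi * j / b)
    linarith
  have h2 : 2 * Real.cos s + 1 = 2 * Real.cosh g := by rw [hgc]; ring
  unfold Hf
  rw [h2]
  have h3 : ∀ j ∈ Finset.range b,
      Real.log |2 * Real.cosh g - 2 * Real.cos ((a * s / b + τ) + 2 * Real.pi * j / b)| =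
      Real.log (2 * Real.cosh g - 2 * Real.cos ((a * s / b + τ) + 2 * Real.pi * j / b)) := by
    intro j hj
    rw [abs_of_pos (hfac j hj)]
  rw [Finset.sum_congr rfl h3, ← Real.log_prod fun j hj => (hfac j hj).ne',
    hB b (a * s / b + τ) g hb hg0]
  have hy : 0 < b * ga s := by positivity
  have he1 : Real.exp (-(b * ga s)) < 1 := by rw [Real.exp_lt_one_iff]; linarith
  have he2 : 0 < 1 - Real.exp (-(b * ga s)) := by linarith
  have h4 : b * ga s + 2 * Real.log (1 - Real.exp (-(b * ga s))) =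
      Real.log (2 * Real.cosh (b * ga s) - 2) := by
    have h5 : 2 * Real.cosh (b * ga s) - 2 =
        Real.exp (b * ga s) * (1 - Real.exp (-(b * ga s))) ^ 2 := by
      rw [Real.cosh_eq]
      have h6 : Real.exp (b * ga s) * Real.exp (-(b * ga s)) = 1 := by
        rw [← Real.exp_add]; simp
      have h7 : Real.exp (b * ga s) * (1 - Real.exp (-(b * ga s))) ^ 2 =
          Real.exp (b * ga s) - 2 * (Real.exp (b * ga s) * Real.exp (-(b * ga s))) +
          (Real.exp (b * ga s) * Real.exp (-(b * ga s))) * Real.exp (-(b * ga s)) := by ring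
      rw [h7, h6]; ring
    rw [h5, Real.log_mul (Real.exp_pos _).ne' (by positivity), Real.log_exp, Real.log_pow]
    push_cast; ring
  rw [h4]
  have h8 : Real.cosh (b * ga s) ≤ Real.cosh (b * g) := by
    rw [Real.cosh_le_cosh, abs_of_pos hy, abs_of_pos (by positivity)]
    exact mul_le_mul_of_nonneg_left hgg hb0.le
  have h9 := Real.cos_le_one (b * (a * s / b + τ))
  apply Real.log_le_log
  · have : 1 < Real.cosh (b * ga s) := by rw [Real.one_lt_cosh]; exact hy.ne'
    linarith
  · linarith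

/-- The lower bound. -/
theorem pent_lower (hOsc : S_Osc) (hOm : S_Omega) (hC : S_Cosh) (hInt : S_Int) (hA : S_ProdA)
    (hB : S_ProdB) (b a : ℕ) (ha : 1 ≤ a) (hab : a < b) (hco : a.Coprime b) (τ : ℝ) (k : ℤ)
    (hτ : b * τ = k * Real.pi) :
    2 * (b * √(9 / 10) * Real.pi ^ 2 / 12 - Real.pi ^ 2 / (3 * √(9 / 10) * b)) -
      21 / √(15 / 32 * b) ≤ b * ∫ θ in (0 : ℝ)..(2 * Real.pi), ff b a τ θ := by
  have hb : 1 ≤ b := by omega
  have hb' : (1 : ℝ) ≤ b := by exact_mod_cast hb
  have hpi := Real.pi_pos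
  rw [avg_periodic (ff b a τ) (ff_periodic b a τ) (ff_int b a τ) b hb]
  simp_rw [Hf_eq b a hb hco]
  have hH := Hf_int b a hb hco τ
  have hae := ae_ne b a hb ha τ
  -- split
  have hsplit : ∫ s in (-Real.pi)..Real.pi, Hf b a τ s =
      (∫ s in (-Real.pi)..(-(Real.pi / 3)), Hf b a τ s) +
      (∫ s in (-(Real.pi / 3))..(Real.pi / 3), Hf b a τ s) +
      ∫ s in (Real.pi / 3)..Real.pi, Hf b a τ s := by
    rw [intervalIntegral.integral_add_adjacent_intervals (hH _ _) (hH _ _),
      intervalIntegral.integral_add_adjacent_intervals (hH _ _) (hH _ _)]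
  rw [hsplit]
  -- region 1
  have hR1 : 2 * (b * √(9 / 10) * Real.pi ^ 2 / 12 - Real.pi ^ 2 / (3 * √(9 / 10) * b)) ≤
      ∫ s in (-(Real.pi / 3))..(Real.pi / 3), Hf b a τ s := by
    obtain ⟨h1, h2⟩ := hInt b hb'
    refine h2.trans ?_
    apply intervalIntegral.integral_mono_on_of_le_Ioo (by linarith) h1 (hH _ _)
    intro s hs
    exact Hf_region1 hB hC b a hb τ s (abs_lt.mpr ⟨hs.1, hs.2⟩)
  -- the phase
  set χ : ℝ → ℝ := fun s => b * om s - a * s - b * τ with hχ
  set χ₂ : ℝ → ℝ := fun s => b * om s + a * s - b * τ with hχ₂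
  have homc : Continuous om := by
    unfold om
    exact Real.continuous_arccos.comp (by fun_prop)
  have hχc : Continuous χ := by fun_prop
  have hχ₂c : Continuous χ₂ := by fun_prop
  have hLm : Measurable L := by
    unfold L
    fun_prop
  have hLle : ∀ x, L x ≤ Real.log 2 := by
    intro x
    unfold L
    have h1 : |2 * Real.sin (x / 2)| ≤ 2 := by
      rw [abs_mul, abs_two]
      have := Real.abs_sin_le_one (x / 2)
      linarith
    rcases (abs_nonneg (2 * Real.sin (x / 2))).lt_or_eq with h0 | h0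
    · exact Real.log_le_log h0 h1
    · rw [← h0, Real.log_zero]
      exact Real.log_nonneg (by norm_num)
  have hcs : ∀ s ∈ Icc (Real.pi / 3) Real.pi, |Real.cos s + 1 / 2| ≤ 1 := by
    intro s hs
    have h1 : Real.cos s ≤ 1 / 2 := by
      rw [← Real.cos_pi_div_three]
      exact Real.cos_le_cos_of_nonneg_of_le_pi (by positivity) hs.2 hs.1
    have h2 := Real.neg_one_le_cos s
    rw [abs_le]
    constructor <;> linarith
  have hHL : ∀ᵐ s : ℝ, s ∈ Ι (Real.pi / 3) Real.pi → Hf b a τ s = L (χ s) + L (χ₂ s) := by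
    filter_upwards [hae] with s hs hs2
    rw [uIoc_of_le (by linarith)] at hs2
    exact Hf_region2 hA b a hb τ k hτ s (hcs s ⟨hs2.1.le, hs2.2⟩) hs
  have hHLr : ∀ᵐ s ∂(volume.restrict (Ι (Real.pi / 3) Real.pi)),
      Hf b a τ s = L (χ s) + L (χ₂ s) :=
    (ae_restrict_iff' measurableSet_uIoc).mpr hHL
  have hHi := (intervalIntegrable_iff.mp (hH (Real.pi / 3) Real.pi))
  have hc2 : IntegrableOn (fun _ : ℝ => Real.log 2) (Ι (Real.pi / 3) Real.pi) volume :=
    (intervalIntegrable_iff.mp intervalIntegrable_const)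
  have hbound : IntegrableOn (fun s => |Hf b a τ s| + (Real.log 2 + Real.log 2))
      (Ι (Real.pi / 3) Real.pi) volume := hHi.abs.add (hc2.add hc2)
  have hlog2 : 0 ≤ Real.log 2 := Real.log_nonneg (by norm_num)
  have hI1 : IntervalIntegrable (fun s => L (χ s)) volume (Real.pi / 3) Real.pi := by
    rw [intervalIntegrable_iff]
    refine Integrable.mono' hbound (hLm.comp hχc.measurable).aestronglyMeasurable ?_
    filter_upwards [hHLr] with s hs
    rw [Real.norm_eq_abs, abs_le]
    have h1 := hLle (χ s)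
    have h2 := hLle (χ₂ s)
    have h3 := neg_abs_le (Hf b a τ s)
    have h4 := abs_nonneg (Hf b a τ s)
    constructor <;> linarith
  have hI2 : IntervalIntegrable (fun s => L (χ₂ s)) volume (Real.pi / 3) Real.pi := by
    rw [intervalIntegrable_iff]
    refine Integrable.mono' hbound (hLm.comp hχ₂c.measurable).aestronglyMeasurable ?_
    filter_upwards [hHLr] with s hs
    rw [Real.norm_eq_abs, abs_le]
    have h1 := hLle (χ s)
    have h2 := hLle (χ₂ s)
    have h3 := neg_abs_le (Hf b a τ s)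
    have h4 := abs_nonneg (Hf b a τ s)
    constructor <;> linarith
  have hrefl : ∀ s, L (χ₂ s) = L (χ (2 * Real.pi - s)) := by
    intro s
    have h1 : om (2 * Real.pi - s) = om s := by
      unfold om; rw [Real.cos_two_pi_sub]
    have h2 : χ (2 * Real.pi - s) = χ₂ s + (-(a : ℤ) : ℤ) * (2 * Real.pi) := by
      simp only [hχ, hχ₂]
      rw [h1]; push_cast; ring
    rw [h2, L_periodic]
  have hI3 : IntervalIntegrable (fun s => L (χ s)) volume Real.pi (5 * Real.pi / 3) := by
    have h1 : IntervalIntegrable (fun s => L (χ (2 * Real.pi - s))) volume (Real.pi / 3)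
        Real.pi := hI2.congr (by intro s _; exact hrefl s)
    have h2 := h1.comp_sub_left (2 * Real.pi)
    have h3 : (fun s => L (χ (2 * Real.pi - (2 * Real.pi - s)))) = fun s => L (χ s) := by
      ext s; congr 2; ring
    rw [h3] at h2
    have e1 : 2 * Real.pi - Real.pi / 3 = 5 * Real.pi / 3 := by ring
    have e2 : 2 * Real.pi - Real.pi = Real.pi := by ring
    rw [e1, e2] at h2
    exact h2.symm
  have hR2 : (∫ s in (Real.pi / 3)..Real.pi, Hf b a τ s) =
      ∫ s in (Real.pi / 3)..(5 * Real.pi / 3), L (χ s) := by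
    rw [intervalIntegral.integral_congr_ae hHL, intervalIntegral.integral_add hI1 hI2]
    rw [← intervalIntegral.integral_add_adjacent_intervals hI1 hI3]
    congr 1
    simp_rw [hrefl]
    rw [intervalIntegral.integral_comp_sub_left (fun s => L (χ s)) (2 * Real.pi)]
    congr 1 <;> ring
  have hR3 : (∫ s in (-Real.pi)..(-(Real.pi / 3)), Hf b a τ s) =
      ∫ s in (Real.pi / 3)..Real.pi, Hf b a τ s := by
    have h1 := intervalIntegral.integral_comp_neg (fun s => Hf b a τ s)
      (a := Real.pi / 3) (b := Real.pi)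
    rw [← h1]
    have hae2 : ∀ᵐ s : ℝ, ∀ j ∈ Finset.range b,
        2 * Real.cos (-s) + 1 - 2 * Real.cos ((a * (-s) / b + τ) + 2 * Real.pi * j / b) ≠ 0 := by
      have := (Measure.measurePreserving_neg (volume : Measure ℝ)).quasiMeasurePreserving.ae hae
      exact this
    apply intervalIntegral.integral_congr_ae
    filter_upwards [hHL, hae2] with s hs1 hs2 hs3
    rw [hs1 hs3]
    rw [uIoc_of_le (by linarith)] at hs3
    rw [Hf_region2 hA b a hb τ k hτ (-s) (by rw [Real.cos_neg]; exact hcs s ⟨hs3.1.le, hs3.2⟩) hs2]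
    have h2 : om (-s) = om s := by unfold om; rw [Real.cos_neg]
    rw [h2]
    simp only [hχ, hχ₂]
    rw [add_comm]
    congr 2 <;> ring
  have hosc : -(21 / 2) / √(15 / 32 * b) ≤ ∫ s in (Real.pi / 3)..(5 * Real.pi / 3), L (χ s) := by
    obtain ⟨o1, o2, o3⟩ := hOm
    apply hOsc χ (fun s => b * om' s - a) (Real.pi / 3) (5 * Real.pi / 3) (15 / 32 * b)
      (by linarith) (by positivity)
    · apply ContinuousOn.sub
      · apply ContinuousOn.sub
        · exact continuousOn_const.mul o1
        · fun_prop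
      · fun_prop
    · intro s hs
      have h1 := ((o2 s hs).const_mul (b : ℝ)).sub ((hasDerivAt_id s).const_mul (a : ℝ))
      have h2 := h1.sub_const (b * τ)
      rw [mul_one] at h2
      exact h2
    · intro s hs t ht hst
      have h1 := o3 hs ht hst
      simp only at h1 ⊢
      nlinarith [mul_le_mul_of_nonneg_left h1 (by linarith : (0 : ℝ) ≤ b)]
  rw [hR3, hR2]
  have e1 : 21 / √(15 / 32 * b) = -(2 * (-(21 / 2) / √(15 / 32 * b))) := by ring
  rw [e1]
  linarith

end Pool.Agent.H589.Pent
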