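import Mathlib

/-!
# The Mahler measure of `f(X ^ g)` and `f(-X)`
-/

set_option autoImplicit false

open MeasureTheory Set Polynomial

namespace Pool.Agent.H589.Pent

lemma mm_congr (f g : ℂ[X]) (h0 : f = 0 ↔ g = 0)
    (h : ∫ x in (0 : ℝ)..(2 * Real.pi), Real.log ‖f.eval (circleMap 0 1 x)‖ =
      ∫ x in (0 : ℝ)..(2 * Real.pi), Real.log ‖g.eval (circleMap 0 1 x)‖) :
    f.mahlerMeasure = g.mahlerMeasure := by
  by_cases hf : f = 0
  · rw [hf, h0.mp hf]
  · have hg : g ≠ 0 := fun h => hf (h0.mpr h)
    rw [mahlerMeasure_def_of_ne_zero hf, mahlerMeasure_def_of_ne_zero hg, h]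

lemma per (f : ℂ[X]) : Function.Periodic (fun x : ℝ => Real.log ‖f.eval (circleMap 0 1 x)‖)
    (2 * Real.pi) := by
  intro x
  simp only
  rw [periodic_circleMap]

lemma mm_comp_pow (f : ℂ[X]) (g : ℕ) (hg : 1 ≤ g) :
    (f.comp (X ^ g)).mahlerMeasure = f.mahlerMeasure := by
  have hg0 : (g : ℝ) ≠ 0 := by positivity
  apply mm_congr
  · constructor
    · intro h
      by_contra hf
      rcases comp_eq_zero_iff.mp h with h1 | ⟨_, h2⟩
      · exact hf h1
      · have := congrArg natDegree h2
        rw [natDegree_X_pow, natDegree_C] at this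
        omega
    · rintro rfl; simp
  · have h1 : ∀ x : ℝ, (f.comp (X ^ g)).eval (circleMap 0 1 x) =
        f.eval (circleMap 0 1 (g * x)) := by
      intro x
      rw [eval_comp, eval_pow, eval_X]
      congr 1
      simp only [circleMap, zero_add, Complex.ofReal_one, one_mul]
      rw [← Complex.exp_nat_mul]
      congr 1
      push_cast; ring
    simp_rw [h1]
    rw [intervalIntegral.integral_comp_mul_left
      (fun x => Real.log ‖f.eval (circleMap 0 1 x)‖) hg0, smul_eq_mul, mul_zero]
    have h2 := (per f).intervalIntegral_add_zsmul_eq (g : ℤ) 0 (by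
      intro t₁ t₂
      have h3 : MeromorphicOn (fun x : ℝ => f.eval (circleMap 0 1 x)) (uIcc t₁ t₂) := by
        intro x _
        have : AnalyticAt ℝ (fun x : ℝ => f.eval (circleMap 0 1 x)) x := by
          have h4 : AnalyticAt ℝ (fun x : ℝ => circleMap 0 1 x) x := analyticOnNhd_circleMap 0 1 x (mem_univ _)
          have h5 : AnalyticAt ℂ (fun z : ℂ => f.eval z) (circleMap 0 1 x) :=
            AnalyticOnNhd.eval_polynomial f _ (mem_univ _)
          exact h5.restrictScalars.comp h4
        exact this.meromorphicAt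
      exact h3.intervalIntegrable_log_norm)
    rw [zero_add, zero_add] at h2
    have h3 : (g : ℝ) * (2 * Real.pi) = (g : ℤ) • (2 * Real.pi) := by simp
    rw [h3, h2]
    simp only [zsmul_eq_mul, Int.cast_natCast]
    field_simp

lemma mm_comp_neg (f : ℂ[X]) : (f.comp (-X)).mahlerMeasure = f.mahlerMeasure := by
  apply mm_congr
  · constructor
    · intro h
      have h1 : (f.comp (-X)).comp (-X) = 0 := by rw [h, zero_comp]
      rw [comp_assoc] at h1
      simpa using h1
    · rintro rfl; simp
  · have h1 : ∀ x : ℝ, (f.comp (-X)).eval (circleMap 0 1 x) =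
        f.eval (circleMap 0 1 (x + Real.pi)) := by
      intro x
      rw [eval_comp, eval_neg, eval_X]
      congr 1
      simp only [circleMap, zero_add, Complex.ofReal_one, one_mul]
      rw [Complex.ofReal_add, add_mul, Complex.exp_add, Complex.exp_pi_mul_I]
      ring
    simp_rw [h1]
    rw [intervalIntegral.integral_comp_add_right
      (fun x => Real.log ‖f.eval (circleMap 0 1 x)‖) Real.pi]
    have := (per f).intervalIntegral_add_eq (0 + Real.pi) 0
    rw [zero_add (2 * Real.pi)] at this
    rw [← this]
    congr 1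
    ring

end Pool.Agent.H589.Pent
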