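import Pool.Agent.H589.Pent.Table
import Pool.Agent.H589.Pent.Big

/-!
# Reciprocal pentanomials of small degree
-/

set_option autoImplicit false

open Polynomial

namespace Pool.Agent.H589.Pent

/-- Lehmer's polynomial -/
noncomputable def lehmer : ℤ[X] :=
  X ^ 10 + X ^ 9 - X ^ 7 - X ^ 6 - X ^ 5 - X ^ 4 - X ^ 3 + X + 1

lemma toP_append (l m : List ℤ) : toP (l ++ m) = toP l + X ^ l.length * toP m := by
  induction l with
  | nil => simp [toP]
  | cons a l ih =>
    simp only [List.cons_append, toP, ih, List.length_cons]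
    ring

lemma toP_zeros (n : ℕ) : toP (List.replicate n 0) = 0 := by
  induction n with
  | zero => rfl
  | succ n ih => simp [List.replicate_succ, toP, ih]

lemma toP_pentL (b a : ℕ) (ha : 1 ≤ a) (hab : a < b) (p q : ℤ) :
    toP (pentL b a p q) = pent b a p q := by
  unfold pentL pent
  simp only [toP_append, toP, toP_zeros, List.length_append, List.length_cons,
    List.length_replicate, mul_zero, add_zero, zero_add, List.length_nil]
  have e1 : b - a - 1 + 1 = b - a := by omega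
  have e2 : a - 1 + 1 = a := by omega
  rw [e1, e2]
  have e3 : b - a + a = b := by omega
  have e4 : b - a + a + a = b + a := by omega
  have e5 : b - a + a + a + (b - a) = 2 * b := by omega
  rw [e5, e4, e3]
  simp only [map_one]
  ring

lemma MM_X_pow_sub_one (n : ℕ) (hn : 1 ≤ n) : MM (X ^ n - 1) = 1 := by
  have h : (X ^ n - 1 : ℤ[X]) = (X - 1 : ℤ[X]).comp (X ^ n) := by simp
  rw [h, MM_comp_pow _ n hn]
  unfold MM
  have : (X - 1 : ℤ[X]).map (Int.castRingHom ℂ) = X - C 1 := by simp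
  rw [this, mahlerMeasure_X_sub_C]
  simp

lemma one_le_MM (f : ℤ[X]) (hf : f ≠ 0) : 1 ≤ MM f := one_le_mahlerMeasure_of_ne_zero hf

lemma MM_eq_one_of_mul (f g : ℤ[X]) (h : MM (f * g) = 1) : MM f = 1 := by
  rw [MM_mul] at h
  have hf : f ≠ 0 := by
    rintro rfl
    unfold MM at h; simp at h
  have hg : g ≠ 0 := by
    rintro rfl
    unfold MM at h; simp at h
  have h1 := one_le_MM f hf
  have h2 := one_le_MM g hg
  nlinarith

lemma MM_neg (f : ℤ[X]) : MM (-f) = MM f := by
  unfold MM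
  rw [Polynomial.map_neg]
  have : -(f.map (Int.castRingHom ℂ)) = C (-1) * f.map (Int.castRingHom ℂ) := by simp
  rw [this, mahlerMeasure_mul, mahlerMeasure_const]
  simp

lemma pent_flip (b a : ℕ) (hab : a < b) (p q : ℤ) :
    MM (pent b a (p * (-1) ^ (a + b)) (q * (-1) ^ b)) = MM (pent b a p q) := by
  rw [← MM_comp_neg (pent b a p q)]
  congr 1
  unfold pent
  simp only [add_comp, mul_comp, pow_comp, X_comp, C_comp, one_comp]
  have e1 : (-X : ℤ[X]) ^ (2 * b) = X ^ (2 * b) := by rw [Even.neg_pow (by simp)]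
  have e2 : (-X : ℤ[X]) ^ (b + a) = (-1) ^ (a + b) * X ^ (b + a) := by
    rw [neg_pow, add_comm a b]
  have e3 : (-X : ℤ[X]) ^ b = (-1) ^ b * X ^ b := by rw [neg_pow]
  have e4 : (-X : ℤ[X]) ^ (b - a) = (-1) ^ (a + b) * X ^ (b - a) := by
    rw [neg_pow]
    congr 1
    have : a + b = (b - a) + 2 * a := by omega
    rw [this, pow_add, pow_mul]
    simp
  rw [e1, e2, e3, e4, C_mul, C_mul, C_pow, C_pow]
  simp only [C_neg, map_one]
  ring

/-- a real root greater than one is a lower bound -/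
lemma root_le_MM (f : ℤ[X]) (hf : f ≠ 0) (r : ℝ) (h1 : 1 ≤ r)
    (hr : (f.map (Int.castRingHom ℂ)).eval (r : ℂ) = 0) : r ≤ MM f := by
  set P := f.map (Int.castRingHom ℂ) with hP
  have hP0 : P ≠ 0 := (Polynomial.map_ne_zero_iff (RingHom.injective_int _)).mpr hf
  obtain ⟨g, hg⟩ := dvd_iff_isRoot.mpr hr
  have hg0 : g ≠ 0 := by rintro rfl; rw [mul_zero] at hg; exact hP0 hg
  have hlc : (1 : ℝ) ≤ ‖g.leadingCoeff‖ := by
    have h2 : P.leadingCoeff = g.leadingCoeff := by
      rw [hg, leadingCoeff_mul, leadingCoeff_X_sub_C, one_mul]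
    rw [← h2, hP, leadingCoeff_map_of_injective (RingHom.injective_int _), eq_intCast,
      Complex.norm_intCast]
    exact_mod_cast Int.one_le_abs (leadingCoeff_ne_zero.mpr hf)
  have h3 : 1 ≤ g.mahlerMeasure := hlc.trans (leading_coeff_le_mahlerMeasure g)
  have h4 : MM f = (X - C (r : ℂ)).mahlerMeasure * g.mahlerMeasure := by
    unfold MM
    rw [← hP, hg, mahlerMeasure_mul]
  rw [h4, mahlerMeasure_X_sub_C]
  have h5 : r ≤ max 1 ‖(r : ℂ)‖ := by
    rw [Complex.norm_real, Real.norm_eq_abs]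
    exact (le_abs_self r).trans (le_max_right _ _)
  have h6 : 0 ≤ max 1 ‖(r : ℂ)‖ := le_trans zero_le_one (le_max_left _ _)
  nlinarith

/-- the conclusion for one polynomial -/
def Good (f : ℤ[X]) : Prop := MM f = 1 ∨ MM f = MM lehmer ∨ 6 / 5 ≤ MM f

lemma good_2_1 : Good (pent 2 1 1 1) := by
  left
  apply MM_eq_one_of_mul _ (X - 1)
  have : pent 2 1 1 1 * (X - 1) = X ^ 5 - 1 := by
    unfold pent; simp only [map_one]; ring
  rw [this, MM_X_pow_sub_one 5 (by norm_num)]

lemma good_3_1 : Good (pent 3 1 1 1) := by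
  left
  apply MM_eq_one_of_mul _ ((X - 1) * ((X + 1) * (X ^ 3 - 1)))
  have : pent 3 1 1 1 * ((X - 1) * ((X + 1) * (X ^ 3 - 1))) = (X ^ 5 - 1) * (X ^ 6 - 1) := by
    unfold pent; simp only [map_one]; ring
  rw [this, MM_mul, MM_X_pow_sub_one 5 (by norm_num), MM_X_pow_sub_one 6 (by norm_num), one_mul]

lemma good_3_2 : Good (pent 3 2 (-1) 1) := by
  left
  apply MM_eq_one_of_mul _ ((X + 1) * ((X ^ 3 - 1) * ((X ^ 2 + 1) * (X ^ 6 - 1))))
  have : pent 3 2 (-1) 1 * ((X + 1) * ((X ^ 3 - 1) * ((X ^ 2 + 1) * (X ^ 6 - 1)))) =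
      (X ^ 6 - 1) * (X ^ 12 - 1) := by
    unfold pent; simp only [map_one, map_neg]; ring
  rw [this, MM_mul, MM_X_pow_sub_one 12 (by norm_num), MM_X_pow_sub_one 6 (by norm_num), one_mul]

lemma good_4_3 : Good (pent 4 3 1 1) := by
  left
  apply MM_eq_one_of_mul _ ((X - 1) * ((X ^ 2 + 1) * (X ^ 6 - 1)))
  have : pent 4 3 1 1 * ((X - 1) * ((X ^ 2 + 1) * (X ^ 6 - 1))) = (X ^ 5 - 1) * (X ^ 12 - 1) := by
    unfold pent; simp only [map_one]; ring
  rw [this, MM_mul, MM_X_pow_sub_one 12 (by norm_num), MM_X_pow_sub_one 5 (by norm_num), one_mul]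

lemma MM_lehmer_neg : MM (lehmer.comp (-X)) = MM lehmer := MM_comp_neg _

lemma good_6_1 : Good (pent 6 1 1 (-1)) := by
  right; left
  have h1 : pent 6 1 1 (-1) = lehmer.comp (-X) * (X ^ 2 + X + 1) := by
    unfold pent lehmer
    simp only [map_one, map_neg, add_comp, sub_comp, pow_comp, X_comp, one_comp]
    ring
  have h2 : MM (X ^ 2 + X + 1) = 1 := by
    apply MM_eq_one_of_mul _ (X - 1)
    have : (X ^ 2 + X + 1 : ℤ[X]) * (X - 1) = X ^ 3 - 1 := by ring
    rw [this, MM_X_pow_sub_one 3 (by norm_num)]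
  rw [h1, MM_mul, MM_lehmer_neg, h2, mul_one]

lemma good_7_4 : Good (pent 7 4 1 1) := by
  right; left
  have h1 : pent 7 4 1 1 = lehmer.comp (-X) * (X ^ 4 + X ^ 3 + X ^ 2 + X + 1) := by
    unfold pent lehmer
    simp only [map_one, add_comp, sub_comp, pow_comp, X_comp, one_comp]
    ring
  have h2 : MM (X ^ 4 + X ^ 3 + X ^ 2 + X + 1) = 1 := by
    apply MM_eq_one_of_mul _ (X - 1)
    have : (X ^ 4 + X ^ 3 + X ^ 2 + X + 1 : ℤ[X]) * (X - 1) = X ^ 5 - 1 := by ring
    rw [this, MM_X_pow_sub_one 5 (by norm_num)]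
  rw [h1, MM_mul, MM_lehmer_neg, h2, mul_one]

lemma pent_ne_zero (b a : ℕ) (ha : 1 ≤ a) (hab : a < b) (p q : ℤ) : pent b a p q ≠ 0 := by
  intro h
  have h1 := congrArg (fun f : ℤ[X] => f.eval 0) h
  unfold pent at h1
  have e1 : b ≠ 0 := by omega
  have e2 : b - a ≠ 0 := by omega
  simp [e1, e2] at h1

lemma good_10_9 : Good (pent 10 9 1 (-1)) := by
  right; right
  have hflip := pent_flip 10 9 (by norm_num) (-1) (-1)
  norm_num at hflip
  rw [hflip]
  set g : ℝ → ℝ := fun x => x ^ 20 - x ^ 19 - x ^ 10 - x + 1 with hg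
  have hc : ContinuousOn g (Set.Icc (6 / 5) 2) := by fun_prop
  have h1 : g (6 / 5) ≤ 0 := by rw [hg]; norm_num
  have h2 : 0 ≤ g 2 := by rw [hg]; norm_num
  obtain ⟨r, hr, hr0⟩ := intermediate_value_Icc (by norm_num) hc ⟨h1, h2⟩
  have h3 : r ≤ MM (pent 10 9 (-1) (-1)) := by
    apply root_le_MM _ (pent_ne_zero 10 9 (by norm_num) (by norm_num) _ _) r
      (by linarith [hr.1])
    unfold pent
    simp only [Polynomial.map_add, Polynomial.map_mul, Polynomial.map_pow, map_X, map_C,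
      Polynomial.map_one, eval_add, eval_mul, eval_pow, eval_X, eval_C, eval_one]
    have h4 : ((g r : ℝ) : ℂ) = 0 := by rw [hr0]; simp
    rw [hg] at h4
    push_cast at h4
    rw [← h4]
    norm_num
    ring
  exact hr.1.trans h3

/-- the exceptional entries -/
def exc : List (ℕ × ℕ × ℤ × ℤ) :=
  [(2, 1, 1, 1), (3, 1, 1, 1), (3, 2, -1, 1), (4, 3, 1, 1), (6, 1, 1, -1), (7, 4, 1, 1),
    (10, 9, 1, -1)]

/-- is the entry treated -/
def okE (b a : ℕ) (p q : ℤ) : Bool :=
  (table.any fun t => t.1 == b && t.2.1 == a && t.2.2.1 == p && t.2.2.2.1 == q) ||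
  exc.any fun t => t.1 == b && t.2.1 == a && t.2.2.1 == p && t.2.2.2 == q

/-- is the entry treated, up to sign -/
def okF (b a : ℕ) (p q : ℤ) : Bool :=
  okE b a p q || okE b a (p * (-1) ^ (a + b)) (q * (-1) ^ b)

/-- all entries treated -/
def okAll : Bool :=
  (List.range 19).all fun b => (List.range 19).all fun a =>
    !(decide (1 ≤ a)) || !(decide (a < b)) || !(Nat.gcd a b == 1) ||
      ([1, -1] : List ℤ).all fun p => ([1, -1] : List ℤ).all fun q => okF b a p q

theorem okAll_true : okAll = true := by decide +kernel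

lemma okE_sound (b a : ℕ) (ha : 1 ≤ a) (hab : a < b) (p q : ℤ) (h : okE b a p q = true) :
    Good (pent b a p q) := by
  unfold okE at h
  rw [Bool.or_eq_true] at h
  rcases h with h | h
  · rw [List.any_eq_true] at h
    obtain ⟨t, ht, h⟩ := h
    simp only [Bool.and_eq_true, beq_iff_eq] at h
    obtain ⟨⟨⟨h1, h2⟩, h3⟩, h4⟩ := h
    have h5 := (List.all_eq_true.mp table_ok) t ht
    unfold chk at h5
    have h6 := cert_sound _ _ _ h5
    rw [h1, h2, h3, h4, toP_pentL b a ha hab] at h6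
    exact Or.inr (Or.inr h6)
  · rw [List.any_eq_true] at h
    obtain ⟨t, ht, h⟩ := h
    simp only [Bool.and_eq_true, beq_iff_eq] at h
    obtain ⟨⟨⟨h1, h2⟩, h3⟩, h4⟩ := h
    subst h1 h2 h3 h4
    unfold exc at ht
    simp only [List.mem_cons, List.not_mem_nil, or_false] at ht
    rcases ht with rfl | rfl | rfl | rfl | rfl | rfl | rfl
    · exact good_2_1
    · exact good_3_1
    · exact good_3_2
    · exact good_4_3
    · exact good_6_1
    · exact good_7_4
    · exact good_10_9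

lemma pm_mem {p : ℤ} (hp : p = 1 ∨ p = -1) : p ∈ ([1, -1] : List ℤ) := by
  rcases hp with rfl | rfl <;> simp

/-- the coprime pentanomials of small degree -/
theorem good_small (b a : ℕ) (ha : 1 ≤ a) (hab : a < b) (hc : a.Coprime b) (hb : b ≤ 18)
    (p q : ℤ) (hp : p = 1 ∨ p = -1) (hq : q = 1 ∨ q = -1) : Good (pent b a p q) := by
  have h := okAll_true
  unfold okAll at h
  have h1 := (List.all_eq_true.mp h) b (List.mem_range.mpr (by omega))
  have h2 := (List.all_eq_true.mp h1) a (List.mem_range.mpr (by omega))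
  have e1 : decide (1 ≤ a) = true := decide_eq_true ha
  have e2 : decide (a < b) = true := decide_eq_true hab
  have e3 : (Nat.gcd a b == 1) = true := by
    rw [beq_iff_eq]; exact hc
  rw [e1, e2, e3] at h2
  simp only [Bool.not_true, Bool.false_or] at h2
  have h3 := (List.all_eq_true.mp h2) p (pm_mem hp)
  have h4 := (List.all_eq_true.mp h3) q (pm_mem hq)
  unfold okF at h4
  rw [Bool.or_eq_true] at h4
  rcases h4 with h4 | h4
  · exact okE_sound b a ha hab p q h4
  · have h5 := okE_sound b a ha hab _ _ h4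
    unfold Good at h5 ⊢
    rwa [pent_flip b a hab p q] at h5

/-- the coprime pentanomials -/
theorem good_coprime (b a : ℕ) (ha : 1 ≤ a) (hab : a < b) (hc : a.Coprime b)
    (p q : ℤ) (hp : p = 1 ∨ p = -1) (hq : q = 1 ∨ q = -1) : Good (pent b a p q) := by
  by_cases hb : b ≤ 18
  · exact good_small b a ha hab hc hb p q hp hq
  · exact Or.inr (Or.inr (pent_big b a ha hab hc (by omega) p q hp hq))

/-- all reciprocal pentanomials with coefficients `±1` -/
theorem good_pent (b a : ℕ) (ha : 1 ≤ a) (hab : a < b)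
    (p q : ℤ) (hp : p = 1 ∨ p = -1) (hq : q = 1 ∨ q = -1) : Good (pent b a p q) := by
  set g := Nat.gcd a b with hg
  have hg0 : 0 < g := Nat.gcd_pos_of_pos_left _ (by omega)
  obtain ⟨a', ha'⟩ : g ∣ a := Nat.gcd_dvd_left a b
  obtain ⟨b', hb'⟩ : g ∣ b := Nat.gcd_dvd_right a b
  have hc : a'.Coprime b' := by
    have h := Nat.coprime_div_gcd_div_gcd (m := a) (n := b) hg0
    rw [← hg] at h
    have e1 : a / g = a' := by rw [ha']; exact Nat.mul_div_cancel_left _ hg0
    have e2 : b / g = b' := by rw [hb']; exact Nat.mul_div_cancel_left _ hg0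
    rwa [e1, e2] at h
  have ha1 : 1 ≤ a' := by
    rcases Nat.eq_zero_or_pos a' with h | h
    · rw [h, mul_zero] at ha'; omega
    · exact h
  have hab1 : a' < b' := by
    have : g * a' < g * b' := by rw [← ha', ← hb']; exact hab
    exact lt_of_mul_lt_mul_left this (Nat.zero_le _)
  have h1 := good_coprime b' a' ha1 hab1 hc p q hp hq
  have h2 : pent b a p q = (pent b' a' p q).comp (X ^ g) := by
    unfold pent
    simp only [add_comp, mul_comp, pow_comp, X_comp, C_comp, one_comp, ← pow_mul]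
    have e1 : 2 * b = g * (2 * b') := by rw [hb']; ring
    have e2 : b + a = g * (b' + a') := by rw [hb', ha']; ring
    have e3 : b - a = g * (b' - a') := by rw [hb', ha', Nat.mul_sub]
    rw [e1, e2, e3, ← hb']
  unfold Good at h1 ⊢
  rw [h2, MM_comp_pow _ g hg0]
  exact h1

end Pool.Agent.H589.Pent
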