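import Pool.Agent.H589.Pent.Chk

set_option autoImplicit false
set_option maxRecDepth 100000

namespace Pool.Agent.H589.Pent

/-- table entries -/
def tab0 : List (ℕ × ℕ × ℤ × ℤ × ℕ × ℕ) :=
  [(2, 1, 1, -1, 2, 2), (3, 1, -1, 1, 4, 1), (3, 2, 1, 1, 3, 1), (4, 1, 1, 1, 5, 2), (4, 1, 1, -1, 5, 1), (4, 3, 1, -1, 4, 1), (5, 1, 1, 1, 5, 2), (5, 1, -1, 1, 8, 1), (5, 2, 1, 1, 7, 1), (5, 2, -1, 1, 5, 2), (5, 3, 1, 1, 5, 2), (5, 3, -1, 1, 6, 1), (5, 4, 1, 1, 5, 1), (5, 4, -1, 1, 6, 2), (6, 1, 1, 1, 6, 2), (6, 5, 1, 1, 6, 2), (6, 5, 1, -1, 6, 1), (7, 1, 1, 1, 7, 2), (7, 1, -1, 1, 6, 3), (7, 2, 1, 1, 7, 3), (7, 2, -1, 1, 6, 2), (7, 3, 1, 1, 6, 2), (7, 3, -1, 1, 7, 3), (7, 4, -1, 1, 6, 2), (7, 5, 1, 1, 6, 2)]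

theorem tab0_ok : tab0.all chk = true := by decide +kernel

/-- table entries -/
def tab1 : List (ℕ × ℕ × ℤ × ℤ × ℕ × ℕ) :=
  [(7, 5, -1, 1, 11, 1), (7, 6, 1, 1, 6, 1), (7, 6, -1, 1, 6, 2), (8, 1, 1, 1, 7, 2), (8, 1, 1, -1, 7, 3), (8, 3, 1, 1, 7, 2), (8, 3, 1, -1, 7, 3), (8, 5, 1, 1, 6, 2), (8, 5, 1, -1, 7, 3), (8, 7, 1, 1, 6, 2), (8, 7, 1, -1, 7, 1), (9, 1, 1, 1, 8, 2)]

theorem tab1_ok : tab1.all chk = true := by decide +kernel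

/-- table entries -/
def tab2 : List (ℕ × ℕ × ℤ × ℤ × ℕ × ℕ) :=
  [(9, 1, -1, 1, 7, 3), (9, 2, 1, 1, 7, 3), (9, 2, -1, 1, 8, 2), (9, 4, 1, 1, 7, 3), (9, 4, -1, 1, 8, 2), (9, 5, 1, 1, 7, 2), (9, 5, -1, 1, 7, 3), (9, 7, 1, 1, 6, 2), (9, 7, -1, 1, 7, 3)]

theorem tab2_ok : tab2.all chk = true := by decide +kernel

/-- table entries -/
def tab3 : List (ℕ × ℕ × ℤ × ℤ × ℕ × ℕ) :=
  [(9, 8, 1, 1, 8, 1), (9, 8, -1, 1, 6, 2), (10, 1, 1, 1, 7, 4), (10, 1, 1, -1, 7, 3), (10, 3, 1, 1, 7, 4), (10, 3, 1, -1, 7, 3), (10, 7, 1, 1, 7, 2), (10, 7, 1, -1, 7, 3)]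

theorem tab3_ok : tab3.all chk = true := by decide +kernel

/-- table entries -/
def tab4 : List (ℕ × ℕ × ℤ × ℤ × ℕ × ℕ) :=
  [(10, 9, 1, 1, 6, 2), (11, 1, 1, 1, 7, 4), (11, 1, -1, 1, 8, 3), (11, 2, 1, 1, 8, 3), (11, 2, -1, 1, 7, 4), (11, 3, 1, 1, 7, 4)]

theorem tab4_ok : tab4.all chk = true := by decide +kernel

/-- table entries -/
def tab5 : List (ℕ × ℕ × ℤ × ℤ × ℕ × ℕ) :=
  [(11, 3, -1, 1, 7, 4), (11, 4, 1, 1, 7, 3), (11, 4, -1, 1, 7, 4), (11, 5, 1, 1, 7, 4), (11, 5, -1, 1, 7, 3), (11, 6, 1, 1, 7, 3)]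

theorem tab5_ok : tab5.all chk = true := by decide +kernel

/-- table entries -/
def tab6 : List (ℕ × ℕ × ℤ × ℤ × ℕ × ℕ) :=
  [(11, 6, -1, 1, 7, 4), (11, 7, 1, 1, 9, 2), (11, 7, -1, 1, 7, 3), (11, 8, 1, 1, 7, 3), (11, 8, -1, 1, 8, 2), (11, 9, 1, 1, 7, 2)]

theorem tab6_ok : tab6.all chk = true := by decide +kernel

/-- table entries -/
def tab7 : List (ℕ × ℕ × ℤ × ℤ × ℕ × ℕ) :=
  [(11, 9, -1, 1, 7, 3), (11, 10, 1, 1, 7, 3), (11, 10, -1, 1, 7, 2), (12, 1, 1, 1, 7, 4), (12, 1, 1, -1, 8, 3)]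

theorem tab7_ok : tab7.all chk = true := by decide +kernel

/-- table entries -/
def tab8 : List (ℕ × ℕ × ℤ × ℤ × ℕ × ℕ) :=
  [(12, 5, 1, 1, 7, 4), (12, 5, 1, -1, 8, 3), (12, 7, 1, 1, 7, 4), (12, 7, 1, -1, 7, 3), (12, 11, 1, 1, 7, 2)]

theorem tab8_ok : tab8.all chk = true := by decide +kernel

/-- table entries -/
def tab9 : List (ℕ × ℕ × ℤ × ℤ × ℕ × ℕ) :=
  [(12, 11, 1, -1, 7, 3), (13, 1, 1, 1, 8, 4), (13, 1, -1, 1, 8, 4), (13, 2, 1, 1, 8, 4)]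

theorem tab9_ok : tab9.all chk = true := by decide +kernel

/-- table entries -/
def tab10 : List (ℕ × ℕ × ℤ × ℤ × ℕ × ℕ) :=
  [(13, 2, -1, 1, 8, 4), (13, 3, 1, 1, 8, 4), (13, 3, -1, 1, 8, 4), (13, 4, 1, 1, 8, 4)]

theorem tab10_ok : tab10.all chk = true := by decide +kernel

/-- table entries -/
def tab11 : List (ℕ × ℕ × ℤ × ℤ × ℕ × ℕ) :=
  [(13, 4, -1, 1, 8, 4), (13, 5, 1, 1, 7, 4), (13, 5, -1, 1, 8, 3), (13, 6, 1, 1, 8, 3)]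

theorem tab11_ok : tab11.all chk = true := by decide +kernel

/-- table entries -/
def tab12 : List (ℕ × ℕ × ℤ × ℤ × ℕ × ℕ) :=
  [(13, 6, -1, 1, 7, 4), (13, 7, 1, 1, 7, 4), (13, 7, -1, 1, 8, 3), (13, 8, 1, 1, 8, 3)]

theorem tab12_ok : tab12.all chk = true := by decide +kernel

/-- table entries -/
def tab13 : List (ℕ × ℕ × ℤ × ℤ × ℕ × ℕ) :=
  [(13, 8, -1, 1, 7, 4), (13, 9, 1, 1, 7, 4), (13, 9, -1, 1, 7, 3), (13, 10, 1, 1, 7, 3)]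

theorem tab13_ok : tab13.all chk = true := by decide +kernel

end Pool.Agent.H589.Pent
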