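import Pool.Agent.H589.Pent.Chk

set_option autoImplicit false
set_option maxRecDepth 100000

namespace Pool.Agent.H589.Pent

/-- table entries -/
def tab14 : List (ℕ × ℕ × ℤ × ℤ × ℕ × ℕ) :=
  [(13, 10, -1, 1, 8, 3), (13, 11, 1, 1, 8, 2), (13, 11, -1, 1, 7, 3), (13, 12, 1, 1, 7, 3)]

theorem tab14_ok : tab14.all chk = true := by decide +kernel

/-- table entries -/
def tab15 : List (ℕ × ℕ × ℤ × ℤ × ℕ × ℕ) :=
  [(13, 12, -1, 1, 7, 2), (14, 1, 1, 1, 8, 4), (14, 1, 1, -1, 8, 4)]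

theorem tab15_ok : tab15.all chk = true := by decide +kernel

/-- table entries -/
def tab16 : List (ℕ × ℕ × ℤ × ℤ × ℕ × ℕ) :=
  [(14, 3, 1, 1, 8, 4), (14, 3, 1, -1, 8, 4), (14, 5, 1, 1, 8, 4)]

theorem tab16_ok : tab16.all chk = true := by decide +kernel

/-- table entries -/
def tab17 : List (ℕ × ℕ × ℤ × ℤ × ℕ × ℕ) :=
  [(14, 5, 1, -1, 8, 4), (14, 9, 1, 1, 7, 4), (14, 9, 1, -1, 8, 3)]

theorem tab17_ok : tab17.all chk = true := by decide +kernel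

/-- table entries -/
def tab18 : List (ℕ × ℕ × ℤ × ℤ × ℕ × ℕ) :=
  [(14, 11, 1, 1, 7, 4), (14, 11, 1, -1, 7, 3), (14, 13, 1, 1, 7, 2), (14, 13, 1, -1, 7, 3)]

theorem tab18_ok : tab18.all chk = true := by decide +kernel

/-- table entries -/
def tab19 : List (ℕ × ℕ × ℤ × ℤ × ℕ × ℕ) :=
  [(15, 1, 1, 1, 8, 4), (15, 1, -1, 1, 8, 5), (15, 2, 1, 1, 8, 5)]

theorem tab19_ok : tab19.all chk = true := by decide +kernel

/-- table entries -/
def tab20 : List (ℕ × ℕ × ℤ × ℤ × ℕ × ℕ) :=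
  [(15, 2, -1, 1, 8, 4), (15, 4, 1, 1, 8, 4), (15, 4, -1, 1, 8, 4)]

theorem tab20_ok : tab20.all chk = true := by decide +kernel

/-- table entries -/
def tab21 : List (ℕ × ℕ × ℤ × ℤ × ℕ × ℕ) :=
  [(15, 7, 1, 1, 8, 4), (15, 7, -1, 1, 8, 4), (15, 8, 1, 1, 8, 4)]

theorem tab21_ok : tab21.all chk = true := by decide +kernel

/-- table entries -/
def tab22 : List (ℕ × ℕ × ℤ × ℤ × ℕ × ℕ) :=
  [(15, 8, -1, 1, 8, 4), (15, 11, 1, 1, 7, 4), (15, 11, -1, 1, 8, 3)]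

theorem tab22_ok : tab22.all chk = true := by decide +kernel

/-- table entries -/
def tab23 : List (ℕ × ℕ × ℤ × ℤ × ℕ × ℕ) :=
  [(15, 13, 1, 1, 8, 3), (15, 13, -1, 1, 7, 3), (15, 14, 1, 1, 7, 3)]

theorem tab23_ok : tab23.all chk = true := by decide +kernel

/-- table entries -/
def tab24 : List (ℕ × ℕ × ℤ × ℤ × ℕ × ℕ) :=
  [(15, 14, -1, 1, 8, 2), (16, 1, 1, 1, 8, 5)]

theorem tab24_ok : tab24.all chk = true := by decide +kernel

/-- table entries -/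
def tab25 : List (ℕ × ℕ × ℤ × ℤ × ℕ × ℕ) :=
  [(16, 1, 1, -1, 8, 5), (16, 3, 1, 1, 8, 5)]

theorem tab25_ok : tab25.all chk = true := by decide +kernel

/-- table entries -/
def tab26 : List (ℕ × ℕ × ℤ × ℤ × ℕ × ℕ) :=
  [(16, 3, 1, -1, 8, 5), (16, 5, 1, 1, 8, 4)]

theorem tab26_ok : tab26.all chk = true := by decide +kernel

/-- table entries -/
def tab27 : List (ℕ × ℕ × ℤ × ℤ × ℕ × ℕ) :=
  [(16, 5, 1, -1, 8, 5), (16, 7, 1, 1, 8, 4)]

theorem tab27_ok : tab27.all chk = true := by decide +kernel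

end Pool.Agent.H589.Pent
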