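import Pool.Agent.H589.Pent.Chk

set_option autoImplicit false
set_option maxRecDepth 100000

namespace Pool.Agent.H589.Pent

/-- table entries -/
def tab28 : List (ℕ × ℕ × ℤ × ℤ × ℕ × ℕ) :=
  [(16, 7, 1, -1, 8, 4), (16, 9, 1, 1, 8, 4)]

theorem tab28_ok : tab28.all chk = true := by decide +kernel

/-- table entries -/
def tab29 : List (ℕ × ℕ × ℤ × ℤ × ℕ × ℕ) :=
  [(16, 9, 1, -1, 8, 4), (16, 11, 1, 1, 8, 4)]

theorem tab29_ok : tab29.all chk = true := by decide +kernel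

/-- table entries -/
def tab30 : List (ℕ × ℕ × ℤ × ℤ × ℕ × ℕ) :=
  [(16, 11, 1, -1, 8, 4), (16, 13, 1, 1, 7, 4)]

theorem tab30_ok : tab30.all chk = true := by decide +kernel

/-- table entries -/
def tab31 : List (ℕ × ℕ × ℤ × ℤ × ℕ × ℕ) :=
  [(16, 13, 1, -1, 8, 3), (16, 15, 1, 1, 8, 2)]

theorem tab31_ok : tab31.all chk = true := by decide +kernel

/-- table entries -/
def tab32 : List (ℕ × ℕ × ℤ × ℤ × ℕ × ℕ) :=
  [(16, 15, 1, -1, 7, 3), (17, 1, 1, 1, 8, 6)]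

theorem tab32_ok : tab32.all chk = true := by decide +kernel

/-- table entries -/
def tab33 : List (ℕ × ℕ × ℤ × ℤ × ℕ × ℕ) :=
  [(17, 1, -1, 1, 8, 5), (17, 2, 1, 1, 8, 5)]

theorem tab33_ok : tab33.all chk = true := by decide +kernel

/-- table entries -/
def tab34 : List (ℕ × ℕ × ℤ × ℤ × ℕ × ℕ) :=
  [(17, 2, -1, 1, 8, 5), (17, 3, 1, 1, 8, 5)]

theorem tab34_ok : tab34.all chk = true := by decide +kernel

/-- table entries -/
def tab35 : List (ℕ × ℕ × ℤ × ℤ × ℕ × ℕ) :=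
  [(17, 3, -1, 1, 8, 5), (17, 4, 1, 1, 8, 5)]

theorem tab35_ok : tab35.all chk = true := by decide +kernel

/-- table entries -/
def tab36 : List (ℕ × ℕ × ℤ × ℤ × ℕ × ℕ) :=
  [(17, 4, -1, 1, 8, 5), (17, 5, 1, 1, 8, 5)]

theorem tab36_ok : tab36.all chk = true := by decide +kernel

/-- table entries -/
def tab37 : List (ℕ × ℕ × ℤ × ℤ × ℕ × ℕ) :=
  [(17, 5, -1, 1, 8, 5), (17, 6, 1, 1, 8, 5)]

theorem tab37_ok : tab37.all chk = true := by decide +kernel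

/-- table entries -/
def tab38 : List (ℕ × ℕ × ℤ × ℤ × ℕ × ℕ) :=
  [(17, 6, -1, 1, 8, 5), (17, 7, 1, 1, 8, 5)]

theorem tab38_ok : tab38.all chk = true := by decide +kernel

/-- table entries -/
def tab39 : List (ℕ × ℕ × ℤ × ℤ × ℕ × ℕ) :=
  [(17, 7, -1, 1, 8, 5), (17, 8, 1, 1, 8, 5)]

theorem tab39_ok : tab39.all chk = true := by decide +kernel

/-- table entries -/
def tab40 : List (ℕ × ℕ × ℤ × ℤ × ℕ × ℕ) :=
  [(17, 8, -1, 1, 8, 4), (17, 9, 1, 1, 8, 4)]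

theorem tab40_ok : tab40.all chk = true := by decide +kernel

/-- table entries -/
def tab41 : List (ℕ × ℕ × ℤ × ℤ × ℕ × ℕ) :=
  [(17, 9, -1, 1, 8, 5), (17, 10, 1, 1, 8, 4)]

theorem tab41_ok : tab41.all chk = true := by decide +kernel

end Pool.Agent.H589.Pent
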