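import Pool.Agent.H589.Pent.Chk

set_option autoImplicit false
set_option maxRecDepth 100000

namespace Pool.Agent.H589.Pent

/-- table entries -/
def tab42 : List (ℕ × ℕ × ℤ × ℤ × ℕ × ℕ) :=
  [(17, 10, -1, 1, 8, 4), (17, 11, 1, 1, 8, 4)]

theorem tab42_ok : tab42.all chk = true := by decide +kernel

/-- table entries -/
def tab43 : List (ℕ × ℕ × ℤ × ℤ × ℕ × ℕ) :=
  [(17, 11, -1, 1, 8, 4), (17, 12, 1, 1, 8, 4)]

theorem tab43_ok : tab43.all chk = true := by decide +kernel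

/-- table entries -/
def tab44 : List (ℕ × ℕ × ℤ × ℤ × ℕ × ℕ) :=
  [(17, 12, -1, 1, 8, 4), (17, 13, 1, 1, 8, 4)]

theorem tab44_ok : tab44.all chk = true := by decide +kernel

/-- table entries -/
def tab45 : List (ℕ × ℕ × ℤ × ℤ × ℕ × ℕ) :=
  [(17, 13, -1, 1, 8, 3), (17, 14, 1, 1, 8, 3)]

theorem tab45_ok : tab45.all chk = true := by decide +kernel

/-- table entries -/
def tab46 : List (ℕ × ℕ × ℤ × ℤ × ℕ × ℕ) :=
  [(17, 14, -1, 1, 8, 3), (17, 15, 1, 1, 7, 5)]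

theorem tab46_ok : tab46.all chk = true := by decide +kernel

/-- table entries -/
def tab47 : List (ℕ × ℕ × ℤ × ℤ × ℕ × ℕ) :=
  [(17, 15, -1, 1, 7, 4), (17, 16, 1, 1, 7, 3)]

theorem tab47_ok : tab47.all chk = true := by decide +kernel

/-- table entries -/
def tab48 : List (ℕ × ℕ × ℤ × ℤ × ℕ × ℕ) :=
  [(17, 16, -1, 1, 8, 2), (18, 1, 1, 1, 8, 6)]

theorem tab48_ok : tab48.all chk = true := by decide +kernel

/-- table entries -/
def tab49 : List (ℕ × ℕ × ℤ × ℤ × ℕ × ℕ) :=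
  [(18, 1, 1, -1, 8, 5), (18, 5, 1, 1, 8, 5)]

theorem tab49_ok : tab49.all chk = true := by decide +kernel

/-- table entries -/
def tab50 : List (ℕ × ℕ × ℤ × ℤ × ℕ × ℕ) :=
  [(18, 5, 1, -1, 8, 5), (18, 7, 1, 1, 8, 5)]

theorem tab50_ok : tab50.all chk = true := by decide +kernel

/-- table entries -/
def tab51 : List (ℕ × ℕ × ℤ × ℤ × ℕ × ℕ) :=
  [(18, 7, 1, -1, 8, 5), (18, 11, 1, 1, 8, 4)]

theorem tab51_ok : tab51.all chk = true := by decide +kernel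

/-- table entries -/
def tab52 : List (ℕ × ℕ × ℤ × ℤ × ℕ × ℕ) :=
  [(18, 11, 1, -1, 8, 5), (18, 13, 1, 1, 8, 4)]

theorem tab52_ok : tab52.all chk = true := by decide +kernel

/-- table entries -/
def tab53 : List (ℕ × ℕ × ℤ × ℤ × ℕ × ℕ) :=
  [(18, 13, 1, -1, 8, 5), (18, 17, 1, 1, 8, 3)]

theorem tab53_ok : tab53.all chk = true := by decide +kernel

/-- table entries -/
def tab54 : List (ℕ × ℕ × ℤ × ℤ × ℕ × ℕ) :=
  [(18, 17, 1, -1, 7, 3)]

theorem tab54_ok : tab54.all chk = true := by decide +kernel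

end Pool.Agent.H589.Pent
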