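import Pool.Agent.H589.Pent.Tab0
import Pool.Agent.H589.Pent.Tab1
import Pool.Agent.H589.Pent.Tab2
import Pool.Agent.H589.Pent.Tab3

/-!
# The table
-/

set_option autoImplicit false
set_option maxRecDepth 100000

namespace Pool.Agent.H589.Pent

/-- the table of the certificates -/
def table : List (ℕ × ℕ × ℤ × ℤ × ℕ × ℕ) :=
  tab0 ++ tab1 ++ tab2 ++ tab3 ++ tab4 ++ tab5 ++ tab6 ++ tab7 ++ tab8 ++ tab9 ++ tab10 ++ tab11 ++ tab12 ++ tab13 ++ tab14 ++ tab15 ++ tab16 ++ tab17 ++ tab18 ++ tab19 ++ tab20 ++ tab21 ++ tab22 ++ tab23 ++ tab24 ++ tab25 ++ tab26 ++ tab27 ++ tab28 ++ tab29 ++ tab30 ++ tab31 ++ tab32 ++ tab33 ++ tab34 ++ tab35 ++ tab36 ++ tab37 ++ tab38 ++ tab39 ++ tab40 ++ tab41 ++ tab42 ++ tab43 ++ tab44 ++ tab45 ++ tab46 ++ tab47 ++ tab48 ++ tab49 ++ tab50 ++ tab51 ++ tab52 ++ tab53 ++ tab54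

theorem allApp {l m : List (ℕ × ℕ × ℤ × ℤ × ℕ × ℕ)} (h1 : l.all chk = true)
    (h2 : m.all chk = true) : (l ++ m).all chk = true := by
  rw [List.all_append, h1, h2]; rfl

theorem table_ok : table.all chk = true :=
  (allApp (allApp (allApp (allApp (allApp (allApp (allApp (allApp (allApp (allApp (allApp (allApp (allApp (allApp (allApp (allApp (allApp (allApp (allApp (allApp (allApp (allApp (allApp (allApp (allApp (allApp (allApp (allApp (allApp (allApp (allApp (allApp (allApp (allApp (allApp (allApp (allApp (allApp (allApp (allApp (allApp (allApp (allApp (allApp (allApp (allApp (allApp (allApp (allApp (allApp (allApp (allApp (allApp (allApp tab0_ok tab1_ok) tab2_ok) tab3_ok) tab4_ok) tab5_ok) tab6_ok) tab7_ok) tab8_ok) tab9_ok) tab10_ok) tab11_ok) tab12_ok) tab13_ok) tab14_ok) tab15_ok) tab16_ok) tab17_ok) tab18_ok) tab19_ok) tab20_ok) tab21_ok) tab22_ok) tab23_ok) tab24_ok) tab25_ok) tab26_ok) tab27_ok) tab28_ok)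 tab29_ok) tab30_ok) tab31_ok) tab32_ok) tab33_ok) tab34_ok) tab35_ok) tab36_ok) tab37_ok) tab38_ok) tab39_ok) tab40_ok) tab41_ok) tab42_ok) tab43_ok) tab44_ok) tab45_ok) tab46_ok) tab47_ok) tab48_ok) tab49_ok) tab50_ok) tab51_ok) tab52_ok) tab53_ok) tab54_ok)

end Pool.Agent.H589.Pent
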